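import Pool.Agent.H38.LR.G

/-!
# Counting runs in the sieved models: local densities
-/

set_option autoImplicit false

namespace Pool.Agent.H38.RC

open Finset MeasureTheory Filter Pool.Agent.Q120.MG Pool.Agent.Q120.GM Pool.Agent.Q120.CL Pool.Agent.H38.LR
open scoped Topology

/-- Sums over a product of two coprime moduli. -/
theorem sum_crt {m n : ℕ} (hm : 0 < m) (hn : 0 < n) (h : Nat.Coprime m n) (f g : ℕ → ℕ) :
    ∑ x ∈ range (m * n), f (x % m) * g (x % n) = (∑ r ∈ range m, f r) * ∑ r ∈ range n, g r := by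
  rw [sum_mul_sum, ← sum_product']
  have himg : (range (m * n)).image (fun x => (x % m, x % n)) = range m ×ˢ range n := by
    refine eq_of_subset_of_card_le ?_ ?_
    · intro y hy
      obtain ⟨x, _, rfl⟩ := mem_image.1 hy
      rw [mem_product, mem_range, mem_range]
      exact ⟨Nat.mod_lt _ hm, Nat.mod_lt _ hn⟩
    · rw [card_product, card_range, card_range, card_image_of_injOn, card_range]
      intro x hx y hy hxy
      simp only [Prod.mk.injEq] at hxy
      rw [mem_coe, mem_range] at hx hy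
      have h1 : x ≡ y [MOD m * n] := (Nat.modEq_and_modEq_iff_modEq_mul h).1 ⟨hxy.1, hxy.2⟩
      have h2 : x % (m * n) = y % (m * n) := h1
      rwa [Nat.mod_eq_of_lt hx, Nat.mod_eq_of_lt hy] at h2
  have hinj : Set.InjOn (fun x => (x % m, x % n)) (range (m * n) : Set ℕ) := by
    intro x hx y hy hxy
    simp only [Prod.mk.injEq] at hxy
    rw [mem_coe, mem_range] at hx hy
    have h1 : x ≡ y [MOD m * n] := (Nat.modEq_and_modEq_iff_modEq_mul h).1 ⟨hxy.1, hxy.2⟩
    have h2 : x % (m * n) = y % (m * n) := h1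
    rwa [Nat.mod_eq_of_lt hx, Nat.mod_eq_of_lt hy] at h2
  rw [← himg, sum_image hinj]

/-- The Chinese remainder theorem for sums of products. -/
theorem sum_prod_crt (T : Finset ℕ) (hT : ∀ p ∈ T, p.Prime) (f : ℕ → ℕ → ℕ) :
    ∑ x ∈ range (∏ p ∈ T, p), ∏ p ∈ T, f p (x % p) = ∏ p ∈ T, ∑ r ∈ range p, f p r := by
  induction T using Finset.induction_on with
  | empty => simp
  | insert q T hq ih =>
    have hT' : ∀ p ∈ T, p.Prime := fun p hp => hT p (mem_insert_of_mem hp)
    have hqp : q.Prime := hT q (mem_insert_self _ _)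
    rw [prod_insert hq, prod_insert hq, ← ih hT']
    have hcop : Nat.Coprime q (∏ p ∈ T, p) := by
      refine Nat.Coprime.prod_right fun p hp => ?_
      refine (Nat.coprime_primes hqp (hT' p hp)).2 ?_
      rintro rfl
      exact hq hp
    have hpos : 0 < ∏ p ∈ T, p := Finset.prod_pos fun p hp => (hT' p hp).pos
    rw [← sum_crt hqp.pos hpos hcop (f q) (fun y => ∏ p ∈ T, f p (y % p))]
    refine sum_congr rfl fun x _ => ?_
    rw [prod_insert hq]
    congr 1
    refine prod_congr rfl fun p hp => ?_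
    congr 1
    exact (Nat.mod_mod_of_dvd x (dvd_prod_of_mem (fun p => p) hp)).symm

/-- all the terms are rough -/
def RP (z k d a : ℕ) : Prop := ∀ i < k, Rough z (a + i * d)

open Classical in
/-- the number of the admissible first terms modulo the primes below `z` -/
noncomputable def rho (z k d : ℕ) : ℕ := ((range (PQ z)).filter (fun a => RP z k d a)).card

open Classical in
/-- the number of the admissible classes modulo a prime -/
noncomputable def hh (k p d : ℕ) : ℕ := ((range p).filter (fun a => ∀ i < k, ¬ p ∣ a + i * d)).card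

theorem hh_mod (k p d : ℕ) : hh k p (d % p) = hh k p d := by
  classical
  unfold hh
  congr 1
  ext a
  rw [mem_filter, mem_filter]
  refine and_congr_right fun _ => forall₂_congr fun i _ => not_congr ?_
  have h1 : a + i * (d % p) ≡ a + i * d [MOD p] := Nat.ModEq.add_left _ ((Nat.mod_modEq d p).mul_left i)
  exact h1.dvd_iff dvd_rfl

theorem rho_eq (z k d : ℕ) : rho z k d = ∏ p ∈ (range z).filter Nat.Prime, hh k p d := by
  classical
  have h1 : rho z k d = ∑ x ∈ range (∏ p ∈ (range z).filter Nat.Prime, p), ∏ p ∈ (range z).filter Nat.Prime,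
      (fun p r => if ∀ i < k, ¬ p ∣ r + i * d then 1 else 0) p (x % p) := by
    unfold rho
    rw [card_filter]
    unfold PQ
    refine sum_congr rfl fun a _ => ?_
    rw [prod_boole]
    congr 1
    rw [eq_iff_iff]
    unfold RP Rough
    constructor
    · intro h p hp i hi
      rw [mem_filter, mem_range] at hp
      have h2 := h i hi p hp.2 hp.1
      have h3 : a % p + i * d ≡ a + i * d [MOD p] := Nat.ModEq.add_right _ (Nat.mod_modEq a p)
      rwa [h3.dvd_iff dvd_rfl]
    · intro h i hi p hp hpz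
      have h2 := h p (by rw [mem_filter, mem_range]; exact ⟨hpz, hp⟩) i hi
      have h3 : a % p + i * d ≡ a + i * d [MOD p] := Nat.ModEq.add_right _ (Nat.mod_modEq a p)
      rwa [h3.dvd_iff dvd_rfl] at h2
  rw [h1]
  refine (sum_prod_crt _ (fun p hp => (mem_filter.1 hp).2) (fun p r => if ∀ i < k, ¬ p ∣ r + i * d then 1 else 0)).trans ?_
  refine prod_congr rfl fun p _ => ?_
  unfold hh
  rw [card_filter]

/-- the number of the admissible pairs modulo a prime -/
theorem loc {k p : ℕ} (hp : p.Prime) (hk : 1 ≤ k) : ∑ t ∈ range p, hh k p t = (p - 1) * (1 + (p - k)) := by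
  classical
  have h0 : hh k p 0 = p - 1 := by
    unfold hh
    have h1 : (range p).filter (fun a => ∀ i < k, ¬ p ∣ a + i * 0) = (range p).erase 0 := by
      ext a
      rw [mem_filter, mem_erase, mem_range]
      constructor
      · rintro ⟨h1, h2⟩
        refine ⟨?_, h1⟩
        rintro rfl
        exact h2 0 (by omega) (by simp)
      · rintro ⟨h1, h2⟩
        refine ⟨h2, fun i _ h3 => ?_⟩
        simp only [mul_zero, add_zero] at h3
        exact h1 (Nat.eq_zero_of_dvd_of_lt h3 h2)
    rw [h1, card_erase_of_mem (mem_range.2 hp.pos), card_range]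
  have hne : ∀ t ∈ (range p).erase 0, hh k p t = p - k := by
    intro t ht
    rw [mem_erase, mem_range] at ht
    obtain ⟨ht0, htp⟩ := ht
    have hpt : ¬ p ∣ t := fun h => ht0 (Nat.eq_zero_of_dvd_of_lt h htp)
    have hcop : Nat.Coprime p t := (Nat.Prime.coprime_iff_not_dvd hp).2 hpt
    -- the forbidden classes
    obtain ⟨e, he⟩ : ∃ e : ℕ → ℕ, e = fun i => (p - (i * t) % p) % p := ⟨_, rfl⟩
    have he1 : ∀ i, e i < p := fun i => by rw [he]; exact Nat.mod_lt _ hp.pos
    have he2 : ∀ i, p ∣ e i + i * t := by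
      intro i
      have h1 : (i * t) % p < p := Nat.mod_lt _ hp.pos
      have h2 : e i ≡ p - (i * t) % p [MOD p] := by rw [he]; exact Nat.mod_modEq _ _
      have h3 : e i + i * t ≡ (p - (i * t) % p) + (i * t) % p [MOD p] := Nat.ModEq.add h2 (Nat.mod_modEq _ _).symm
      rw [Nat.sub_add_cancel h1.le] at h3
      exact (h3.dvd_iff dvd_rfl).2 dvd_rfl
    have he3 : ∀ i i', p ∣ e i + i' * t → i < p → i' < p → i = i' := by
      intro i i' h1 hi hi'
      have h2 : i * t ≡ i' * t [MOD p] := by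
        have h3 : e i + i * t ≡ e i + i' * t [MOD p] :=
          ((Nat.modEq_zero_iff_dvd.2 (he2 i)).trans (Nat.modEq_zero_iff_dvd.2 h1).symm)
        exact Nat.ModEq.add_left_cancel' _ h3
      have h3 : i ≡ i' [MOD p] := Nat.ModEq.cancel_right_of_coprime hcop h2
      rwa [Nat.ModEq, Nat.mod_eq_of_lt hi, Nat.mod_eq_of_lt hi'] at h3
    have hset : (range p).filter (fun a => ∀ i < k, ¬ p ∣ a + i * t) = range p \ (range (min k p)).image e := by
      ext a
      rw [mem_filter, Finset.mem_sdiff, mem_image]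
      refine and_congr_right fun ha => ?_
      rw [mem_range] at ha
      constructor
      · rintro h ⟨i, hi, rfl⟩
        rw [mem_range] at hi
        exact h i (by omega) (he2 i)
      · intro h i hi hdvd
        apply h
        refine ⟨i % p, ?_, ?_⟩
        · rw [mem_range]
          have h1 := Nat.mod_lt i hp.pos
          have h2 := Nat.mod_le i p
          omega
        · have h1 : a = (p - (i * t) % p) % p := res_eq ha hdvd
          rw [h1, he]
          simp only
          have h2 : i % p * t % p = i * t % p := by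
            rw [Nat.mul_mod, Nat.mod_mod, ← Nat.mul_mod]
          rw [h2]
    unfold hh
    rw [hset, card_sdiff_of_subset, card_range, card_image_of_injOn, card_range]
    · omega
    · intro i hi i' hi' h
      rw [mem_coe, mem_range] at hi hi'
      refine he3 i i' ?_ (by omega) (by omega)
      have h' : e i = e i' := h
      rw [h']
      exact he2 i'
    · intro a ha
      obtain ⟨i, _, rfl⟩ := mem_image.1 ha
      exact mem_range.2 (he1 i)
  rw [← Finset.add_sum_erase _ _ (mem_range.2 hp.pos), h0, sum_congr rfl hne, sum_const, card_erase_of_mem (mem_range.2 hp.pos),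
    card_range, smul_eq_mul]
  ring

/-- the number of the admissible pairs -/
noncomputable def R2 (z k : ℕ) : ℕ := ∑ d ∈ range (PQ z), rho z k d

theorem R2_eq {z k : ℕ} (hk : 1 ≤ k) : R2 z k = ∏ p ∈ (range z).filter Nat.Prime, ((p - 1) * (1 + (p - k))) := by
  classical
  unfold R2
  have h1 : ∀ d ∈ range (PQ z), rho z k d = ∏ p ∈ (range z).filter Nat.Prime, hh k p (d % p) := by
    intro d _
    rw [rho_eq]
    exact prod_congr rfl fun p _ => (hh_mod k p d).symm
  rw [sum_congr rfl h1]
  unfold PQ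
  rw [sum_prod_crt _ (fun p hp => (mem_filter.1 hp).2)]
  exact prod_congr rfl fun p hp => loc (mem_filter.1 hp).2 hk

/-- the local factor -/
noncomputable def beta (k p : ℕ) : ℝ := ((p - 1) * (1 + (p - k)) : ℕ) / (p : ℝ) ^ 2 / (1 - 1 / (p : ℝ)) ^ k

/-- the truncated singular series -/
noncomputable def gam (z k : ℕ) : ℝ := ∏ p ∈ (range z).filter Nat.Prime, beta k p

theorem R2_gam {z k : ℕ} (hk : 1 ≤ k) : (R2 z k : ℝ) = gam z k * (PQ z : ℝ) ^ 2 * Vf z ^ k := by
  unfold gam Vf PQ
  rw [R2_eq hk]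
  push_cast
  rw [← prod_pow, ← prod_pow, ← prod_mul_distrib, ← prod_mul_distrib]
  refine prod_congr rfl fun p hp => ?_
  have hp' := (mem_filter.1 hp).2
  have hp0 : (0 : ℝ) < p := by exact_mod_cast hp'.pos
  have hp1 : (1 : ℝ) < p := by exact_mod_cast hp'.one_lt
  have h1 : 0 < 1 - 1 / (p : ℝ) := by
    rw [sub_pos, div_lt_one hp0]
    exact hp1
  unfold beta
  obtain ⟨y, hy⟩ : ∃ y, y = (1 - 1 / (p : ℝ)) ^ k := ⟨_, rfl⟩
  have hy0 : y ≠ 0 := by rw [hy]; exact (pow_pos h1 k).ne'
  rw [← hy]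
  push_cast
  field_simp

theorem beta_pos {k p : ℕ} (hp : p.Prime) : 0 < beta k p := by
  have hp0 : (0 : ℝ) < p := by exact_mod_cast hp.pos
  have hp1 : (1 : ℝ) < p := by exact_mod_cast hp.one_lt
  have h1 : 0 < 1 - 1 / (p : ℝ) := by
    rw [sub_pos, div_lt_one hp0]
    exact hp1
  unfold beta
  have h2 : 0 < (p - 1) * (1 + (p - k)) := Nat.mul_pos (by have := hp.one_lt; omega) (by omega)
  have h3 : (0 : ℝ) < ((p - 1) * (1 + (p - k)) : ℕ) := by exact_mod_cast h2
  positivity

theorem gam_pos (z k : ℕ) : 0 < gam z k := prod_pos fun _ hp => beta_pos (mem_filter.1 hp).2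

/-- the local factor of a large prime -/
theorem beta_bound {k p : ℕ} (hk : 1 ≤ k) (hp : p.Prime) (hkp : k < p) :
    1 - ((k : ℝ) - 1) ^ 2 / (p : ℝ) ^ 2 ≤ beta k p ∧ beta k p ≤ 1 := by
  have hp0 : (0 : ℝ) < p := by exact_mod_cast hp.pos
  have hp1 : (1 : ℝ) < p := by exact_mod_cast hp.one_lt
  have hkp' : (k : ℝ) < p := by exact_mod_cast hkp
  have hk' : (1 : ℝ) ≤ k := by exact_mod_cast hk
  obtain ⟨x, hx⟩ : ∃ x, x = 1 / (p : ℝ) := ⟨_, rfl⟩
  have hx0 : 0 < x := by rw [hx]; positivity
  have hx1 : x < 1 := by rw [hx, div_lt_one hp0]; exact hp1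
  obtain ⟨s, rfl⟩ : ∃ s, k = s + 1 := ⟨k - 1, by omega⟩
  have hsx : s * x < 1 := by
    rw [hx, mul_one_div, div_lt_one hp0]
    push_cast at hkp'
    linarith
  have e1 : beta (s + 1) p = (1 - s * x) / (1 - x) ^ s := by
    unfold beta
    have h1 : (((p - 1) * (1 + (p - (s + 1))) : ℕ) : ℝ) = ((p : ℝ) - 1) * (p - s) := by
      rw [Nat.cast_mul, Nat.cast_sub hp.one_lt.le, Nat.cast_add, Nat.cast_sub hkp.le]
      push_cast
      ring
    rw [h1, hx]
    have h2 : (1 : ℝ) - 1 / p ≠ 0 := by
      rw [← hx]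
      linarith
    have h3 : ((p : ℝ) - 1) ≠ 0 := by linarith
    rw [pow_succ (1 - 1 / (p : ℝ)) s]
    have h4 : (1 : ℝ) - 1 / p = (p - 1) / p := by field_simp
    have h5 : ((p : ℝ) - 1) * (p - s) / (p : ℝ) ^ 2 = (1 - s * (1 / (p : ℝ))) * (1 - 1 / (p : ℝ)) := by
      field_simp
    rw [h5, mul_div_mul_right _ _ h2]
  have hpow : 0 < (1 - x) ^ s := pow_pos (by linarith) s
  have hber : 1 - s * x ≤ (1 - x) ^ s := by
    have := one_add_mul_le_pow (show (-2 : ℝ) ≤ -x by linarith) s
    calc 1 - s * x = 1 + s * (-x) := by ring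
      _ ≤ (1 + -x) ^ s := this
      _ = (1 - x) ^ s := by ring
  rw [e1]
  constructor
  · rw [le_div_iff₀ hpow]
    have h1 : (1 - x) ^ s * (1 + s * x) ≤ 1 := by
      have h2 : 1 + s * x ≤ (1 + x) ^ s := one_add_mul_le_pow (by linarith) s
      calc (1 - x) ^ s * (1 + s * x) ≤ (1 - x) ^ s * (1 + x) ^ s := mul_le_mul_of_nonneg_left h2 hpow.le
        _ = ((1 - x) * (1 + x)) ^ s := by rw [mul_pow]
        _ ≤ 1 := pow_le_one₀ (by nlinarith) (by nlinarith)
    have h3 : 1 - (((s + 1 : ℕ) : ℝ) - 1) ^ 2 / (p : ℝ) ^ 2 = (1 - s * x) * (1 + s * x) := by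
      rw [hx]
      push_cast
      field_simp
      ring
    rw [h3]
    calc (1 - s * x) * (1 + s * x) * (1 - x) ^ s = (1 - s * x) * ((1 - x) ^ s * (1 + s * x)) := by ring
      _ ≤ (1 - s * x) * 1 := mul_le_mul_of_nonneg_left h1 (by linarith)
      _ = 1 - s * x := mul_one _
  · rw [div_le_one hpow]
    exact hber

/-- **The singular series converges.** -/
theorem gam_lim {k : ℕ} (hk : 1 ≤ k) : ∃ γ : ℝ, 0 < γ ∧ Tendsto (fun z => gam z k) atTop (𝓝 γ) := by
  classical
  obtain ⟨f, hf⟩ : ∃ f : ℕ → ℝ, f = fun p => if p.Prime then beta k p else 1 := ⟨_, rfl⟩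
  have hfpos : ∀ p, 0 < f p := by
    intro p
    rw [hf]
    simp only
    split_ifs with h
    · exact beta_pos h
    · norm_num
  have hsum : Summable (fun p => f p - 1) := by
    have h1 : Summable (fun p : ℕ => ((k : ℝ) - 1) ^ 2 * (1 / (p : ℝ) ^ 2)) :=
      (Real.summable_one_div_nat_pow.2 one_lt_two).mul_left _
    have h2 : ∀ᶠ p : ℕ in atTop, ‖f p - 1‖ ≤ ((k : ℝ) - 1) ^ 2 * (1 / (p : ℝ) ^ 2) := by
      filter_upwards [eventually_gt_atTop k] with p hp
      rw [hf]
      simp only
      split_ifs with h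
      · obtain ⟨g1, g2⟩ := beta_bound hk h hp
        rw [Real.norm_eq_abs, abs_le]
        have e1 : ((k : ℝ) - 1) ^ 2 * (1 / (p : ℝ) ^ 2) = ((k : ℝ) - 1) ^ 2 / (p : ℝ) ^ 2 := by ring
        have e2 : 0 ≤ ((k : ℝ) - 1) ^ 2 / (p : ℝ) ^ 2 := by positivity
        rw [e1]
        constructor <;> linarith
      · rw [sub_self, norm_zero]
        positivity
    exact summable_of_isBigO_nat h1 (Asymptotics.IsBigO.of_bound 1 (by
      filter_upwards [h2] with p hp
      rw [one_mul]
      refine hp.trans (le_abs_self _)))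
  have hlog : Summable (fun p => Real.log (f p)) := by
    have h1 := Real.summable_log_one_add_of_summable hsum
    refine h1.congr fun p => ?_
    congr 1
    ring
  have hprod := Real.hasProd_of_hasSum_log hfpos hlog.hasSum
  refine ⟨Real.exp (∑' p, Real.log (f p)), Real.exp_pos _, ?_⟩
  have h1 := hprod.tendsto_prod_nat
  refine h1.congr fun z => ?_
  unfold gam
  rw [prod_filter, hf]

end Pool.Agent.H38.RC
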