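import Pool.Agent.H38.RC.A

/-!
# Counting runs in the sieved models: the expected number
-/

set_option autoImplicit false

namespace Pool.Agent.H38.RC

open Finset MeasureTheory Filter Pool.Agent.Q120.MG Pool.Agent.Q120.GM Pool.Agent.Q120.CL Pool.Agent.H38.LR
open scoped Topology

theorem RP_periodic (z k d : ℕ) : Function.Periodic (fun a => RP z k d a) (PQ z) := by
  intro a
  rw [eq_iff_iff]
  unfold RP Rough
  refine forall₂_congr fun i _ => forall_congr' fun p => forall₂_congr fun hp hpz => not_congr ?_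
  have h1 : p ∣ PQ z := Finset.dvd_prod_of_mem (fun p => p) (by rw [mem_filter, mem_range]; exact ⟨hpz, hp⟩)
  have h2 : a + PQ z + i * d = (a + i * d) + PQ z := by ring
  rw [h2]
  exact (Nat.dvd_add_iff_left h1).symm

theorem rho_periodic (z k d : ℕ) : rho z k (d + PQ z) = rho z k d := by
  classical
  rw [rho_eq, rho_eq]
  refine prod_congr rfl fun p hp => ?_
  have h1 : p ∣ PQ z := Finset.dvd_prod_of_mem (fun p => p) hp
  rw [← hh_mod k p (d + PQ z), ← hh_mod k p d]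
  congr 1
  obtain ⟨c, hc⟩ := h1
  rw [hc, Nat.add_mul_mod_self_left]

theorem rho_le (z k d : ℕ) : rho z k d ≤ PQ z := by
  classical
  unfold rho
  refine (card_filter_le _ _).trans ?_
  rw [card_range]

open Classical in
/-- the number of the admissible `n` in `[α, y)` -/
noncomputable def Nd (z k d α y : ℕ) : ℕ := ((Ico α y).filter (fun n => RP z k d n)).card

theorem Nd_full (z k d m : ℕ) : Nd z k d m (m + PQ z) = rho z k d := by
  classical
  unfold Nd rho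
  have h := Nat.filter_Ico_card_eq_of_periodic m (PQ z) (fun a => RP z k d a) (RP_periodic z k d)
  rw [Nat.count_eq_card_filter_range] at h
  convert h

theorem Nd_add (z k d : ℕ) {a b c : ℕ} (h1 : a ≤ b) (h2 : b ≤ c) : Nd z k d a c = Nd z k d a b + Nd z k d b c := by
  classical
  unfold Nd
  rw [← card_union_of_disjoint, ← filter_union, Ico_union_Ico_eq_Ico h1 h2]
  exact disjoint_filter_filter (Ico_disjoint_Ico_consecutive a b c)

theorem Nd_mul (z k d m q : ℕ) : Nd z k d m (m + q * PQ z) = q * rho z k d := by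
  induction q with
  | zero =>
    unfold Nd
    simp
  | succ q ih =>
    rw [Nd_add z k d (b := m + q * PQ z) (by omega) (by nlinarith [PQ_pos z]), ih]
    have h1 : m + (q + 1) * PQ z = (m + q * PQ z) + PQ z := by ring
    rw [h1, Nd_full]
    ring

theorem Nd_mono (z k d : ℕ) {a b c : ℕ} (h : b ≤ c) : Nd z k d a b ≤ Nd z k d a c := by
  classical
  unfold Nd
  exact card_le_card (filter_subset_filter _ (Ico_subset_Ico_right h))

/-- the number of the admissible `n` -/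
theorem Nd_bound (z k d : ℕ) {α y : ℕ} (h : α ≤ y) :
    ((y : ℝ) - α) * ((rho z k d : ℝ) / PQ z) - PQ z ≤ Nd z k d α y ∧
      (Nd z k d α y : ℝ) ≤ ((y : ℝ) - α) * ((rho z k d : ℝ) / PQ z) + PQ z := by
  obtain ⟨L, rfl⟩ : ∃ L, y = α + L := ⟨y - α, by omega⟩
  have hP : (0 : ℝ) < PQ z := by exact_mod_cast PQ_pos z
  have h1 : Nd z k d α (α + (L / PQ z) * PQ z) ≤ Nd z k d α (α + L) :=
    Nd_mono z k d (by have := Nat.div_mul_le_self L (PQ z); omega)
  have h2 : Nd z k d α (α + L) ≤ Nd z k d α (α + (L / PQ z + 1) * PQ z) := by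
    apply Nd_mono
    have := Nat.lt_mul_div_succ L (PQ_pos z)
    have h3 : (L / PQ z + 1) * PQ z = PQ z * (L / PQ z + 1) := by ring
    omega
  rw [Nd_mul] at h1 h2
  have h3 : ((L / PQ z : ℕ) : ℝ) * rho z k d ≤ Nd z k d α (α + L) := by exact_mod_cast h1
  have h4 : (Nd z k d α (α + L) : ℝ) ≤ (((L / PQ z : ℕ) : ℝ) + 1) * rho z k d := by exact_mod_cast h2
  have h5 : (rho z k d : ℝ) ≤ PQ z := by exact_mod_cast rho_le z k d
  have h6 : ((L / PQ z : ℕ) : ℝ) ≤ L / PQ z := Nat.cast_div_le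
  have h7 : (L : ℝ) / PQ z ≤ ((L / PQ z : ℕ) : ℝ) + 1 := by
    rw [div_le_iff₀ hP]
    have h8 := (Nat.lt_mul_div_succ L (PQ_pos z)).le
    have h9 : (L : ℝ) ≤ ((PQ z * (L / PQ z + 1) : ℕ) : ℝ) := by exact_mod_cast h8
    push_cast at h9
    linarith
  have h0 : (0 : ℝ) ≤ rho z k d := Nat.cast_nonneg _
  have e1 : (((α + L : ℕ) : ℝ) - α) * ((rho z k d : ℝ) / PQ z) = (L : ℝ) / PQ z * rho z k d := by
    push_cast
    ring
  rw [e1]
  constructor
  · have := mul_le_mul_of_nonneg_right h7 h0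
    linarith
  · have := mul_le_mul_of_nonneg_right h6 h0
    linarith

/-! ## The sum over the differences -/

theorem sum_period (z k m : ℕ) : ∑ d ∈ Ico m (m + PQ z), rho z k d = R2 z k := by
  induction m with
  | zero =>
    unfold R2
    rw [zero_add, range_eq_Ico]
  | succ m ih =>
    rw [← ih]
    have hP := PQ_pos z
    have h1 : ∑ d ∈ Ico m (m + PQ z), rho z k d = rho z k m + ∑ d ∈ Ico (m + 1) (m + PQ z), rho z k d := by
      rw [← Finset.sum_eq_sum_Ico_succ_bot (by omega)]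
    have h2 : ∑ d ∈ Ico (m + 1) (m + 1 + PQ z), rho z k d = (∑ d ∈ Ico (m + 1) (m + PQ z), rho z k d) + rho z k (m + PQ z) := by
      have h3 : m + 1 + PQ z = (m + PQ z) + 1 := by ring
      rw [h3, Finset.sum_Ico_succ_top (by omega)]
    rw [h1, h2, rho_periodic]
    ring

/-- the weighted sum over the differences -/
noncomputable def Ud (z k : ℕ) (a : ℝ) (D : ℕ) : ℝ := ∑ d ∈ Icc 1 D, (rho z k d : ℝ) / PQ z * Real.exp (-(a * d))

/-- the geometric sum -/
noncomputable def GG (a : ℝ) (P M : ℕ) : ℝ := ∑ s ∈ range M, Real.exp (-(a * (s * P : ℕ)))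

theorem GG_eq {a : ℝ} {P M : ℕ} (ha : 0 < a) (hP : 0 < P) :
    GG a P M = (1 - Real.exp (-(a * (P * M : ℕ)))) / (1 - Real.exp (-(a * P))) := by
  have hP' : (0 : ℝ) < P := by exact_mod_cast hP
  have h1 : Real.exp (-(a * P)) < 1 := by
    rw [Real.exp_lt_one_iff]
    have := mul_pos ha hP'
    linarith
  have h2 : ∀ s ∈ range M, Real.exp (-(a * (s * P : ℕ))) = Real.exp (-(a * P)) ^ s := by
    intro s _
    rw [← Real.exp_nat_mul]
    congr 1
    push_cast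
    ring
  unfold GG
  rw [sum_congr rfl h2, geom_sum_eq h1.ne, ← Real.exp_nat_mul, ← neg_div_neg_eq]
  congr 1
  · rw [neg_sub]
    congr 2
    push_cast
    ring
  · rw [neg_sub]

theorem Ud_mono (z k : ℕ) (a : ℝ) {D D' : ℕ} (h : D ≤ D') : Ud z k a D ≤ Ud z k a D' := by
  unfold Ud
  exact sum_le_sum_of_subset_of_nonneg (Icc_subset_Icc_right h) (fun _ _ _ => by positivity)

theorem Ud_nonneg (z k : ℕ) (a : ℝ) (D : ℕ) : 0 ≤ Ud z k a D := sum_nonneg fun _ _ => by positivity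

theorem Ud_full {z k : ℕ} {a : ℝ} (ha : 0 < a) (M : ℕ) :
    (R2 z k : ℝ) / PQ z * (Real.exp (-(a * PQ z)) * GG a (PQ z) M) ≤ Ud z k a (M * PQ z) ∧
      Ud z k a (M * PQ z) ≤ (R2 z k : ℝ) / PQ z * GG a (PQ z) M := by
  have hP : (0 : ℝ) < PQ z := by exact_mod_cast PQ_pos z
  induction M with
  | zero =>
    unfold Ud GG
    simp
  | succ M ih =>
    have h1 : Ud z k a ((M + 1) * PQ z) = Ud z k a (M * PQ z) +
        ∑ d ∈ Ico (M * PQ z + 1) (M * PQ z + 1 + PQ z), (rho z k d : ℝ) / PQ z * Real.exp (-(a * d)) := by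
      unfold Ud
      rw [← sum_union]
      · congr 1
        ext d
        rw [mem_union, mem_Icc, mem_Icc, mem_Ico]
        have : (M + 1) * PQ z = M * PQ z + PQ z := by ring
        rw [this]
        omega
      · rw [Finset.disjoint_left]
        intro d h1 h2
        rw [mem_Icc] at h1
        rw [mem_Ico] at h2
        omega
    have h2 : GG a (PQ z) (M + 1) = GG a (PQ z) M + Real.exp (-(a * (M * PQ z : ℕ))) := by
      unfold GG
      rw [sum_range_succ]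
    have h3 : ∀ d ∈ Ico (M * PQ z + 1) (M * PQ z + 1 + PQ z),
        Real.exp (-(a * PQ z)) * Real.exp (-(a * (M * PQ z : ℕ))) ≤ Real.exp (-(a * d)) ∧
          Real.exp (-(a * d)) ≤ Real.exp (-(a * (M * PQ z : ℕ))) := by
      intro d hd
      rw [mem_Ico] at hd
      have e1 : ((M * PQ z : ℕ) : ℝ) ≤ d := by exact_mod_cast (by omega : M * PQ z ≤ d)
      have e2 : (d : ℝ) ≤ ((M * PQ z : ℕ) : ℝ) + PQ z := by exact_mod_cast (by omega : d ≤ M * PQ z + PQ z)
      constructor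
      · rw [← Real.exp_add, Real.exp_le_exp]
        nlinarith
      · rw [Real.exp_le_exp]
        nlinarith
    have h4 : ∑ d ∈ Ico (M * PQ z + 1) (M * PQ z + 1 + PQ z), (rho z k d : ℝ) / PQ z = (R2 z k : ℝ) / PQ z := by
      rw [← sum_div, ← sum_period z k (M * PQ z + 1)]
      push_cast
      rfl
    rw [h1, h2]
    constructor
    · have e1 : (R2 z k : ℝ) / PQ z * (Real.exp (-(a * PQ z)) * Real.exp (-(a * (M * PQ z : ℕ)))) ≤
          ∑ d ∈ Ico (M * PQ z + 1) (M * PQ z + 1 + PQ z), (rho z k d : ℝ) / PQ z * Real.exp (-(a * d)) := by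
        rw [← h4, sum_mul]
        exact sum_le_sum fun d hd => mul_le_mul_of_nonneg_left (h3 d hd).1 (by positivity)
      calc _ = (R2 z k : ℝ) / PQ z * (Real.exp (-(a * PQ z)) * GG a (PQ z) M) +
            (R2 z k : ℝ) / PQ z * (Real.exp (-(a * PQ z)) * Real.exp (-(a * (M * PQ z : ℕ)))) := by ring
        _ ≤ _ := add_le_add ih.1 e1
    · have e1 : ∑ d ∈ Ico (M * PQ z + 1) (M * PQ z + 1 + PQ z), (rho z k d : ℝ) / PQ z * Real.exp (-(a * d)) ≤
          (R2 z k : ℝ) / PQ z * Real.exp (-(a * (M * PQ z : ℕ))) := by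
        rw [← h4, sum_mul]
        exact sum_le_sum fun d hd => mul_le_mul_of_nonneg_left (h3 d hd).2 (by positivity)
      rw [mul_add]
      exact add_le_add ih.2 e1

/-! ## The probabilities -/

variable {Ω : Type*} [MeasurableSpace Ω] {μ : Measure Ω} [IsProbabilityMeasure μ] {A : Ω → Set ℕ} {z : ℕ → ℕ}

theorem per_bounds (z a t : ℕ) : Vf z * ((t : ℝ) - PQ z) ≤ Wf z a t ∧ (Wf z a t : ℝ) ≤ Vf z * ((t : ℝ) + PQ z) := by
  have hV := Vf_pos z
  have h1 : Wf z a (PQ z * (t / PQ z)) ≤ Wf z a t := Wf_mono z a (Nat.mul_div_le t (PQ z))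
  have h2 : Wf z a t ≤ Wf z a (PQ z * (t / PQ z + 1)) := Wf_mono z a (Nat.lt_mul_div_succ t (PQ_pos z)).le
  have h3 : (Wf z a (PQ z * (t / PQ z)) : ℝ) ≤ Wf z a t := by exact_mod_cast h1
  have h4 : (Wf z a t : ℝ) ≤ Wf z a (PQ z * (t / PQ z + 1)) := by exact_mod_cast h2
  rw [Wf_full] at h3 h4
  have h5 : (t : ℝ) ≤ ((PQ z * (t / PQ z + 1) : ℕ) : ℝ) := by exact_mod_cast (Nat.lt_mul_div_succ t (PQ_pos z)).le
  have h6 : ((PQ z * (t / PQ z) : ℕ) : ℝ) ≤ t := by exact_mod_cast Nat.mul_div_le t (PQ z)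
  push_cast at h3 h4 h5 h6
  constructor
  · refine le_trans (mul_le_mul_of_nonneg_left ?_ hV.le) h3
    linarith
  · refine le_trans h4 (mul_le_mul_of_nonneg_left ?_ hV.le)
    linarith

open Classical in
theorem run_up (hA : IsModel μ (pr z) A) {j n k d : ℕ} (hj : 1 ≤ j) (hk : 1 ≤ k) (hq : 1 ≤ Vf (z j) * (j * Real.log 2))
    (hd : 1 ≤ d) (h1 : 2 ^ j ≤ n) (h2 : n + (k - 1) * d < 2 ^ (j + 1)) :
    μ.real {ω | Run (A ω) n k d} ≤ (if RP (z j) k d n then 1 else 0) * ((1 / (Vf (z j) * (j * Real.log 2))) ^ k *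
      (Real.exp (PQ (z j) / (((j : ℝ) + 1) * Real.log 2) + k / (Vf (z j) * (((j : ℝ) + 1) * Real.log 2))) *
        Real.exp (-(((k : ℝ) - 1) / (((j : ℝ) + 1) * Real.log 2) * d)))) := by
  have hV := Vf_pos (z j)
  have hl := hl2
  have hj0 : (0 : ℝ) < j := by exact_mod_cast hj
  by_cases hR : RP (z j) k d n
  · rw [if_pos hR, one_mul]
    refine (run_le hA hj hq hd h1 h2).trans ?_
    refine mul_le_mul_of_nonneg_left ?_ (by positivity)
    rw [← Real.exp_add, Real.exp_le_exp]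
    have h3 := (per_bounds (z j) (n - 1) ((k - 1) * d + 1)).1
    obtain ⟨X, hX⟩ : ∃ X, X = ((j : ℝ) + 1) * Real.log 2 := ⟨_, rfl⟩
    have hX0 : 0 < X := by rw [hX]; positivity
    rw [← hX]
    have h4 : (Vf (z j) * ((((k - 1) * d + 1 : ℕ) : ℝ) - PQ (z j)) - k) / (Vf (z j) * X) ≤
        ((Wf (z j) (n - 1) ((k - 1) * d + 1) : ℝ) - k) / (Vf (z j) * X) :=
      div_le_div_of_nonneg_right (by linarith) (by positivity)
    have h5 : (Vf (z j) * ((((k - 1) * d + 1 : ℕ) : ℝ) - PQ (z j)) - k) / (Vf (z j) * X) =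
        ((k : ℝ) - 1) / X * d + 1 / X - PQ (z j) / X - k / (Vf (z j) * X) := by
      push_cast [Nat.cast_sub hk]
      field_simp
    have h6 : 0 < 1 / X := by positivity
    rw [h5] at h4
    linarith
  · rw [if_neg hR, zero_mul, real_run hA]
    unfold RP at hR
    push Not at hR
    obtain ⟨i, hi, hr⟩ := hR
    have h3 : n + i * d ∈ pat n k d := mem_pat.2 ⟨i, hi, rfl⟩
    have h4 := mem_Icc.1 (pat_subset n k d h3)
    have h5 : pr z (n + i * d) = 0 := pr_zero (k := j) (by omega) (by omega) hr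
    rw [prod_eq_zero h3 h5, zero_mul]

open Classical in
theorem run_lo (hA : IsModel μ (pr z) A) {j n k d : ℕ} (hj : 1 ≤ j) (hk : 1 ≤ k) (hq0 : 1 ≤ Vf (z j) * (j * Real.log 2)) {q : ℝ}
    (hq : 1 / (Vf (z j) * (j * Real.log 2)) ≤ q) (hq2 : q ≤ 1 / 2)
    (hd : 1 ≤ d) (h1 : 2 ^ j ≤ n) (h2 : n + (k - 1) * d < 2 ^ (j + 1)) :
    (if RP (z j) k d n then 1 else 0) * ((1 / (Vf (z j) * (((j : ℝ) + 1) * Real.log 2))) ^ k *
      (Real.exp (-((1 + 2 * q) * (1 + PQ (z j)) / (j * Real.log 2))) *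
        Real.exp (-((1 + 2 * q) * ((k : ℝ) - 1) / (j * Real.log 2) * d)))) ≤ μ.real {ω | Run (A ω) n k d} := by
  have hV := Vf_pos (z j)
  have hl := hl2
  have hj0 : (0 : ℝ) < j := by exact_mod_cast hj
  by_cases hR : RP (z j) k d n
  · rw [if_pos hR, one_mul]
    refine le_trans ?_ (le_run hA hj hq0 hq hq2 hd h1 h2 hR)
    refine mul_le_mul_of_nonneg_left ?_ (by positivity)
    rw [← Real.exp_add, Real.exp_le_exp]
    have h3 := (per_bounds (z j) (n - 1) ((k - 1) * d + 1)).2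
    obtain ⟨X, hX⟩ : ∃ X, X = (j : ℝ) * Real.log 2 := ⟨_, rfl⟩
    have hX0 : 0 < X := by rw [hX]; positivity
    rw [← hX] at hq ⊢
    have hq0' : 0 ≤ q := le_trans (by positivity) hq
    have h4 : (Wf (z j) (n - 1) ((k - 1) * d + 1) : ℝ) * (1 / (Vf (z j) * X)) ≤
        Vf (z j) * ((((k - 1) * d + 1 : ℕ) : ℝ) + PQ (z j)) * (1 / (Vf (z j) * X)) :=
      mul_le_mul_of_nonneg_right h3 (by positivity)
    have h5 : Vf (z j) * ((((k - 1) * d + 1 : ℕ) : ℝ) + PQ (z j)) * (1 / (Vf (z j) * X)) =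
        (((k : ℝ) - 1) * d + 1 + PQ (z j)) / X := by
      push_cast [Nat.cast_sub hk]
      field_simp
    rw [h5] at h4
    have h6 := mul_le_mul_of_nonneg_left h4 (show 0 ≤ 1 + 2 * q by linarith)
    have h7 : (1 + 2 * q) * ((((k : ℝ) - 1) * d + 1 + PQ (z j)) / X) = (1 + 2 * q) * (1 + PQ (z j)) / X +
        (1 + 2 * q) * ((k : ℝ) - 1) / X * d := by ring
    rw [h7] at h6
    linarith
  · rw [if_neg hR, zero_mul]
    exact measureReal_nonneg

/-- the expected number of runs -/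
noncomputable def EE (μ : Measure Ω) (A : Ω → Set ℕ) (k α y D : ℕ) : ℝ :=
  ∑ n ∈ Ico α y, ∑ d ∈ Icc 1 D, μ.real {ω | Run (A ω) n k d}

theorem sum_ite_Nd (z k d α y : ℕ) : (∑ n ∈ Ico α y, (open Classical in if RP z k d n then (1 : ℝ) else 0)) = Nd z k d α y := by
  classical
  unfold Nd
  rw [card_filter]
  push_cast
  rfl

theorem EE_up (hA : IsModel μ (pr z) A) {j k α y D : ℕ} (hj : 1 ≤ j) (hk : 1 ≤ k) (hq : 1 ≤ Vf (z j) * (j * Real.log 2))
    (h1 : 2 ^ j ≤ α) (hαy : α ≤ y) (h2 : y + (k - 1) * D ≤ 2 ^ (j + 1)) :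
    EE μ A k α y D ≤ (1 / (Vf (z j) * (j * Real.log 2))) ^ k *
      (Real.exp (PQ (z j) / (((j : ℝ) + 1) * Real.log 2) + k / (Vf (z j) * (((j : ℝ) + 1) * Real.log 2))) *
        (((y : ℝ) - α) * Ud (z j) k (((k : ℝ) - 1) / (((j : ℝ) + 1) * Real.log 2)) D + PQ (z j) * D)) := by
  classical
  have hV := Vf_pos (z j)
  have hl := hl2
  have hj0 : (0 : ℝ) < j := by exact_mod_cast hj
  have hk' : (1 : ℝ) ≤ k := by exact_mod_cast hk
  unfold EE
  rw [sum_comm]
  obtain ⟨C1, hC1⟩ : ∃ C1, C1 = (1 / (Vf (z j) * (j * Real.log 2))) ^ k := ⟨_, rfl⟩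
  obtain ⟨C2, hC2⟩ : ∃ C2, C2 = Real.exp (PQ (z j) / (((j : ℝ) + 1) * Real.log 2) + k / (Vf (z j) * (((j : ℝ) + 1) * Real.log 2))) := ⟨_, rfl⟩
  obtain ⟨a, ha⟩ : ∃ a, a = ((k : ℝ) - 1) / (((j : ℝ) + 1) * Real.log 2) := ⟨_, rfl⟩
  have hC10 : 0 ≤ C1 := by rw [hC1]; positivity
  have hC20 : 0 ≤ C2 := by rw [hC2]; positivity
  have ha0 : 0 ≤ a := by rw [ha]; exact div_nonneg (by linarith) (by positivity)
  rw [← hC1, ← hC2, ← ha]
  have h3 : ∀ d ∈ Icc 1 D, ∑ n ∈ Ico α y, μ.real {ω | Run (A ω) n k d} ≤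
      C1 * (C2 * (((y : ℝ) - α) * ((rho (z j) k d : ℝ) / PQ (z j) * Real.exp (-(a * d))) + PQ (z j))) := by
    intro d hd
    rw [mem_Icc] at hd
    have h4 : ∀ n ∈ Ico α y, μ.real {ω | Run (A ω) n k d} ≤ (if RP (z j) k d n then (1 : ℝ) else 0) * (C1 * (C2 * Real.exp (-(a * d)))) := by
      intro n hn
      rw [mem_Ico] at hn
      have h5 : (k - 1) * d ≤ (k - 1) * D := Nat.mul_le_mul_left _ hd.2
      rw [hC1, hC2, ha]
      exact run_up hA hj hk hq hd.1 (by omega) (by omega)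
    refine (sum_le_sum h4).trans ?_
    rw [← sum_mul, sum_ite_Nd]
    have h5 := (Nd_bound (z j) k d hαy).2
    have he : Real.exp (-(a * d)) ≤ 1 := by
      rw [Real.exp_le_one_iff]
      have : 0 ≤ a * d := by positivity
      linarith
    have he0 := Real.exp_pos (-(a * d))
    have h6 : (Nd (z j) k d α y : ℝ) * Real.exp (-(a * d)) ≤
        ((y : ℝ) - α) * ((rho (z j) k d : ℝ) / PQ (z j) * Real.exp (-(a * d))) + PQ (z j) := by
      have h7 := mul_le_mul_of_nonneg_right h5 he0.le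
      have h8 : (PQ (z j) : ℝ) * Real.exp (-(a * d)) ≤ PQ (z j) := by
        have : (0 : ℝ) ≤ PQ (z j) := Nat.cast_nonneg _
        nlinarith
      linarith
    calc (Nd (z j) k d α y : ℝ) * (C1 * (C2 * Real.exp (-(a * d)))) = C1 * (C2 * ((Nd (z j) k d α y : ℝ) * Real.exp (-(a * d)))) := by ring
      _ ≤ _ := mul_le_mul_of_nonneg_left (mul_le_mul_of_nonneg_left h6 hC20) hC10
  refine (sum_le_sum h3).trans ?_
  rw [← mul_sum, ← mul_sum, sum_add_distrib, ← mul_sum, sum_const, Nat.card_Icc, Nat.add_sub_cancel, nsmul_eq_mul]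
  unfold Ud
  rw [mul_comm (D : ℝ)]

theorem EE_lo (hA : IsModel μ (pr z) A) {j k α y D : ℕ} (hj : 1 ≤ j) (hk : 1 ≤ k) (hq0 : 1 ≤ Vf (z j) * (j * Real.log 2)) {q : ℝ}
    (hq : 1 / (Vf (z j) * (j * Real.log 2)) ≤ q) (hq2 : q ≤ 1 / 2)
    (h1 : 2 ^ j ≤ α) (hαy : α ≤ y) (h2 : y + (k - 1) * D ≤ 2 ^ (j + 1)) :
    (1 / (Vf (z j) * (((j : ℝ) + 1) * Real.log 2))) ^ k *
      (Real.exp (-((1 + 2 * q) * (1 + PQ (z j)) / (j * Real.log 2))) *
        (((y : ℝ) - α) * Ud (z j) k ((1 + 2 * q) * ((k : ℝ) - 1) / (j * Real.log 2)) D - PQ (z j) * D)) ≤ EE μ A k α y D := by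
  classical
  have hV := Vf_pos (z j)
  have hl := hl2
  have hj0 : (0 : ℝ) < j := by exact_mod_cast hj
  have hk' : (1 : ℝ) ≤ k := by exact_mod_cast hk
  have hq00 : 0 ≤ q := le_trans (by positivity) hq
  unfold EE
  rw [sum_comm]
  obtain ⟨C1, hC1⟩ : ∃ C1, C1 = (1 / (Vf (z j) * (((j : ℝ) + 1) * Real.log 2))) ^ k := ⟨_, rfl⟩
  obtain ⟨C2, hC2⟩ : ∃ C2, C2 = Real.exp (-((1 + 2 * q) * (1 + PQ (z j)) / (j * Real.log 2))) := ⟨_, rfl⟩
  obtain ⟨a, ha⟩ : ∃ a, a = (1 + 2 * q) * ((k : ℝ) - 1) / (j * Real.log 2) := ⟨_, rfl⟩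
  have hC10 : 0 ≤ C1 := by rw [hC1]; positivity
  have hC20 : 0 ≤ C2 := by rw [hC2]; positivity
  have ha0 : 0 ≤ a := by rw [ha]; exact div_nonneg (mul_nonneg (by linarith) (by linarith)) (by positivity)
  rw [← hC1, ← hC2, ← ha]
  have h3 : ∀ d ∈ Icc 1 D, C1 * (C2 * (((y : ℝ) - α) * ((rho (z j) k d : ℝ) / PQ (z j) * Real.exp (-(a * d))) - PQ (z j))) ≤
      ∑ n ∈ Ico α y, μ.real {ω | Run (A ω) n k d} := by
    intro d hd
    rw [mem_Icc] at hd
    have h4 : ∀ n ∈ Ico α y, (if RP (z j) k d n then (1 : ℝ) else 0) * (C1 * (C2 * Real.exp (-(a * d)))) ≤ μ.real {ω | Run (A ω) n k d} := by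
      intro n hn
      rw [mem_Ico] at hn
      have h5 : (k - 1) * d ≤ (k - 1) * D := Nat.mul_le_mul_left _ hd.2
      rw [hC1, hC2, ha]
      exact run_lo hA hj hk hq0 hq hq2 hd.1 (by omega) (by omega)
    refine le_trans ?_ (sum_le_sum h4)
    rw [← sum_mul, sum_ite_Nd]
    have h5 := (Nd_bound (z j) k d hαy).1
    have he : Real.exp (-(a * d)) ≤ 1 := by
      rw [Real.exp_le_one_iff]
      have : 0 ≤ a * d := by positivity
      linarith
    have he0 := Real.exp_pos (-(a * d))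
    have h6 : ((y : ℝ) - α) * ((rho (z j) k d : ℝ) / PQ (z j) * Real.exp (-(a * d))) - PQ (z j) ≤
        (Nd (z j) k d α y : ℝ) * Real.exp (-(a * d)) := by
      have h7 := mul_le_mul_of_nonneg_right h5 he0.le
      have h8 : (PQ (z j) : ℝ) * Real.exp (-(a * d)) ≤ PQ (z j) := by
        have : (0 : ℝ) ≤ PQ (z j) := Nat.cast_nonneg _
        nlinarith
      linarith
    calc _ ≤ C1 * (C2 * ((Nd (z j) k d α y : ℝ) * Real.exp (-(a * d)))) :=
          mul_le_mul_of_nonneg_left (mul_le_mul_of_nonneg_left h6 hC20) hC10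
      _ = _ := by ring
  refine le_trans ?_ (sum_le_sum h3)
  rw [← mul_sum, ← mul_sum, sum_sub_distrib, ← mul_sum, sum_const, Nat.card_Icc, Nat.add_sub_cancel, nsmul_eq_mul]
  unfold Ud
  rw [mul_comm (D : ℝ)]

end Pool.Agent.H38.RC
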