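import Pool.Agent.H38.RC.B
import Pool.Agent.H38.LR.I

/-!
# Counting runs in the sieved models: the limit of the expected number
-/

set_option autoImplicit false

namespace Pool.Agent.H38.RC

open Finset MeasureTheory Filter Pool.Agent.Q120.MG Pool.Agent.Q120.GM Pool.Agent.Q120.CL Pool.Agent.H38.LR
open scoped Topology

theorem frac_lim {u : ℕ → ℝ} (hu0 : ∀ᶠ j in atTop, 0 < u j) (hu : Tendsto u atTop (𝓝 0)) :
    Tendsto (fun j => u j / (1 - Real.exp (-(u j)))) atTop (𝓝 1) := by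
  have h1 : Tendsto (fun j => 1 + u j) atTop (𝓝 1) := by simpa using hu.const_add 1
  refine tendsto_of_tendsto_of_tendsto_of_le_of_le' tendsto_const_nhds h1 ?_ ?_
  · filter_upwards [hu0] with j hj
    have h2 : Real.exp (-(u j)) < 1 := by
      rw [Real.exp_lt_one_iff]
      linarith
    rw [le_div_iff₀ (by linarith)]
    have := Real.one_sub_le_exp_neg (u j)
    linarith
  · filter_upwards [hu0] with j hj
    have h2 : Real.exp (-(u j)) < 1 := by
      rw [Real.exp_lt_one_iff]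
      linarith
    rw [div_le_iff₀ (by linarith)]
    have h3 := Real.add_one_le_exp (u j)
    have h4 : Real.exp (-(u j)) * (1 + u j) ≤ 1 := by
      calc Real.exp (-(u j)) * (1 + u j) ≤ Real.exp (-(u j)) * Real.exp (u j) :=
            mul_le_mul_of_nonneg_left (by linarith) (Real.exp_pos _).le
        _ = 1 := by rw [← Real.exp_add, neg_add_cancel, Real.exp_zero]
    nlinarith

/-- The limit of the geometric sums. -/
theorem GG_lim {a X : ℕ → ℝ} {P M D : ℕ → ℕ} {s w : ℝ} (hs : 0 < s) (ha : ∀ᶠ j in atTop, 0 < a j) (hX : ∀ᶠ j in atTop, 0 < X j)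
    (hP : ∀ j, 0 < P j) (haX : Tendsto (fun j => a j * X j) atTop (𝓝 s)) (hPX : Tendsto (fun j => (P j : ℝ) / X j) atTop (𝓝 0))
    (hM1 : ∀ᶠ j in atTop, (D j : ℝ) - P j ≤ ((P j * M j : ℕ) : ℝ)) (hM2 : ∀ᶠ j in atTop, ((P j * M j : ℕ) : ℝ) ≤ (D j : ℝ) + P j)
    (hw : Tendsto (fun j => Real.exp (-(s * D j / X j))) atTop (𝓝 w)) :
    Tendsto (fun j => (P j : ℝ) / X j * GG (a j) (P j) (M j)) atTop (𝓝 ((1 - w) / s)) := by
  have haP : Tendsto (fun j => a j * P j) atTop (𝓝 0) := by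
    have h1 := haX.mul hPX
    rw [mul_zero] at h1
    refine h1.congr' ?_
    filter_upwards [hX] with j hj
    field_simp
  have haP0 : ∀ᶠ j in atTop, 0 < a j * P j := by
    filter_upwards [ha] with j hj
    have : (0 : ℝ) < P j := by exact_mod_cast hP j
    positivity
  have h1 := frac_lim haP0 haP
  -- the truncation
  have h2 : Tendsto (fun j => Real.exp (-(a j * (P j * M j : ℕ)))) atTop (𝓝 w) := by
    have h3 : Tendsto (fun j => Real.exp (-(s * D j / X j)) ^ (a j * X j / s)) atTop (𝓝 w) := by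
      have h4 : Tendsto (fun j => a j * X j / s) atTop (𝓝 1) := by
        have := haX.div_const s
        rwa [div_self hs.ne'] at this
      have h5 := hw.rpow h4 (Or.inr one_pos)
      rwa [Real.rpow_one] at h5
    have h4 : Tendsto (fun j => Real.exp (a j * D j - a j * (P j * M j : ℕ))) atTop (𝓝 1) := by
      have h5 : Tendsto (fun j => a j * D j - a j * (P j * M j : ℕ)) atTop (𝓝 0) := by
        have h6 : Tendsto (fun j => -(a j * P j)) atTop (𝓝 0) := by simpa using haP.neg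
        refine tendsto_of_tendsto_of_tendsto_of_le_of_le' h6 haP ?_ ?_
        · filter_upwards [hM2, ha] with j g1 g2
          nlinarith
        · filter_upwards [hM1, ha] with j g1 g2
          nlinarith
      have h6 := (Real.continuous_exp.tendsto 0).comp h5
      rw [Real.exp_zero] at h6
      exact h6
    have h5 := h3.mul h4
    rw [mul_one] at h5
    refine h5.congr' ?_
    filter_upwards [hX] with j hj
    rw [← Real.exp_mul, ← Real.exp_add]
    congr 1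
    field_simp
    ring
  have h3 : Tendsto (fun j => (1 - Real.exp (-(a j * (P j * M j : ℕ)))) * (a j * P j / (1 - Real.exp (-(a j * P j)))) / (a j * X j))
      atTop (𝓝 ((1 - w) * 1 / s)) := (((tendsto_const_nhds.sub h2)).mul h1).div haX hs.ne'
  rw [mul_one] at h3
  refine h3.congr' ?_
  filter_upwards [ha, hX, haP0] with j g1 g2 g3
  rw [GG_eq g1 (hP j)]
  have h4 : Real.exp (-(a j * P j)) < 1 := by
    rw [Real.exp_lt_one_iff]
    linarith
  have h5 : 1 - Real.exp (-(a j * P j)) ≠ 0 := by linarith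
  field_simp

/-- low levels -/
def LowLev (z : ℕ → ℕ) : Prop := ∃ ε : ℝ, 0 < ε ∧ ∀ᶠ j : ℕ in atTop, (z j : ℝ) ≤ (1 - ε) * Real.log j

theorem X_top : Tendsto (fun j : ℕ => (j : ℝ) * Real.log 2) atTop atTop :=
  Tendsto.atTop_mul_const hl2 tendsto_natCast_atTop_atTop

theorem PX_lim {z : ℕ → ℕ} (hz : LowLev z) : Tendsto (fun j : ℕ => (PQ (z j) : ℝ) / (j * Real.log 2)) atTop (𝓝 0) := by
  obtain ⟨ε', hε', h'⟩ := hz
  obtain ⟨ε, hε⟩ : ∃ ε, ε = min ε' (1 / 2) := ⟨_, rfl⟩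
  have hε0 : 0 < ε := by rw [hε]; exact lt_min hε' (by norm_num)
  have hε1 : ε ≤ 1 / 2 := by rw [hε]; exact min_le_right _ _
  have hε2 : ε ≤ ε' := by rw [hε]; exact min_le_left _ _
  obtain ⟨C, hC, hC'⟩ := logPQ_up (show 0 < ε / 2 by linarith)
  have hl := hl2
  have h1 : Tendsto (fun j : ℕ => Real.exp C / Real.log 2 * (j : ℝ) ^ (-(ε / 2))) atTop (𝓝 0) := by
    have h2 := (tendsto_rpow_neg_atTop (show 0 < ε / 2 by linarith)).comp (tendsto_natCast_atTop_atTop (R := ℝ))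
    have h3 := h2.const_mul (Real.exp C / Real.log 2)
    rwa [mul_zero] at h3
  refine tendsto_of_tendsto_of_tendsto_of_le_of_le' tendsto_const_nhds h1 (Eventually.of_forall fun j => by positivity) ?_
  filter_upwards [h', log_large 0, eventually_ge_atTop 1] with j g1 g2 hj
  have hj0 : (0 : ℝ) < j := by exact_mod_cast hj
  have hP : (0 : ℝ) < PQ (z j) := by exact_mod_cast PQ_pos _
  have e1 : (PQ (z j) : ℝ) ≤ Real.exp C * (j : ℝ) ^ (1 - ε / 2) := by
    rw [← Real.log_le_log_iff hP (by positivity), Real.log_mul (Real.exp_pos _).ne' (by positivity), Real.log_exp, Real.log_rpow hj0]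
    have e2 := hC' (z j)
    have e3 : (z j : ℝ) ≤ (1 - ε) * Real.log j := g1.trans (mul_le_mul_of_nonneg_right (by linarith) g2)
    have e4 : (1 + ε / 2) * (z j : ℝ) ≤ (1 + ε / 2) * ((1 - ε) * Real.log j) := mul_le_mul_of_nonneg_left e3 (by linarith)
    have e5 : (1 + ε / 2) * (1 - ε) ≤ 1 - ε / 2 := by nlinarith
    have e6 : (1 + ε / 2) * ((1 - ε) * Real.log j) ≤ (1 - ε / 2) * Real.log j := by
      calc (1 + ε / 2) * ((1 - ε) * Real.log j) = (1 + ε / 2) * (1 - ε) * Real.log j := by ring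
        _ ≤ _ := mul_le_mul_of_nonneg_right e5 g2
    linarith
  rw [div_le_iff₀ (by positivity)]
  refine e1.trans (le_of_eq ?_)
  have e2 : (j : ℝ) ^ (1 - ε / 2) = (j : ℝ) ^ (-(ε / 2)) * j := by
    rw [← Real.rpow_add_one hj0.ne']
    congr 1
    ring
  rw [e2]
  field_simp

theorem LowLev.le {z : ℕ → ℕ} (hz : LowLev z) : ∀ᶠ j : ℕ in atTop, z j ≤ j := by
  obtain ⟨ε, hε, h⟩ := hz
  filter_upwards [h, log_ev one_pos, eventually_ge_atTop 1] with j h1 h2 h3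
  have h4 : (z j : ℝ) ≤ j := by
    have := Real.log_natCast_nonneg j
    nlinarith
  exact_mod_cast h4

theorem beta_lim {z : ℕ → ℕ} (hz : LowLev z) : Tendsto (fun j : ℕ => 1 / (Vf (z j) * (j * Real.log 2))) atTop (𝓝 0) := by
  have hl := hl2
  rw [Metric.tendsto_nhds]
  intro ε hε
  filter_upwards [beta_small hz.le (show 0 < ε / 2 by linarith)] with j hj
  have hV := Vf_pos (z j)
  have h0 : 0 ≤ 1 / (Vf (z j) * (j * Real.log 2)) := by positivity
  rw [Real.dist_eq, sub_zero, abs_of_nonneg h0]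
  linarith

theorem succ_ratio : Tendsto (fun j : ℕ => ((j : ℝ) * Real.log 2) / (((j : ℝ) + 1) * Real.log 2)) atTop (𝓝 1) := by
  have h1 : Tendsto (fun j : ℕ => (j : ℝ) / ((j : ℝ) + 1)) atTop (𝓝 1) := tendsto_natCast_div_add_atTop 1
  refine h1.congr fun j => ?_
  have hl := hl2
  have : (0 : ℝ) < (j : ℝ) + 1 := by positivity
  field_simp

/-- the upper coefficient -/
theorem Up_lim {z D : ℕ → ℕ} (hz : LowLev z) {k : ℕ} (hk : 2 ≤ k) {w γ : ℝ}
    (hw : Tendsto (fun j : ℕ => Real.exp (-(((k : ℝ) - 1) * D j / (j * Real.log 2)))) atTop (𝓝 w))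
    (hγ : Tendsto (fun j => gam (z j) k) atTop (𝓝 γ)) :
    Tendsto (fun j : ℕ => ((j : ℝ) * Real.log 2) ^ (k - 1) * ((1 / (Vf (z j) * (j * Real.log 2))) ^ k *
      (Real.exp (PQ (z j) / (((j : ℝ) + 1) * Real.log 2) + k / (Vf (z j) * (((j : ℝ) + 1) * Real.log 2))) *
        ((R2 (z j) k : ℝ) / PQ (z j) * GG (((k : ℝ) - 1) / (((j : ℝ) + 1) * Real.log 2)) (PQ (z j)) (D j / PQ (z j) + 1)))))
      atTop (𝓝 (γ * ((1 - w) / ((k : ℝ) - 1)))) := by
  have hl := hl2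
  have hk' : (2 : ℝ) ≤ k := by exact_mod_cast hk
  have hs : (0 : ℝ) < (k : ℝ) - 1 := by linarith
  have hj0 : ∀ᶠ j : ℕ in atTop, (0 : ℝ) < j := by
    filter_upwards [eventually_ge_atTop 1] with j hj
    exact_mod_cast hj
  have hG := GG_lim (a := fun j : ℕ => ((k : ℝ) - 1) / (((j : ℝ) + 1) * Real.log 2)) (X := fun j : ℕ => (j : ℝ) * Real.log 2)
    (P := fun j => PQ (z j)) (M := fun j => D j / PQ (z j) + 1) (D := D) hs (Eventually.of_forall fun j => by positivity)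
    (hj0.mono fun j hj => by positivity) (fun j => PQ_pos _) (by
      have h1 := succ_ratio.const_mul ((k : ℝ) - 1)
      rw [mul_one] at h1
      refine h1.congr fun j => ?_
      ring) (PX_lim hz) (Eventually.of_forall fun j => by
      have h1 := (Nat.lt_mul_div_succ (D j) (PQ_pos (z j))).le
      have h2 : (D j : ℝ) ≤ ((PQ (z j) * (D j / PQ (z j) + 1) : ℕ) : ℝ) := by exact_mod_cast h1
      have h3 : (0 : ℝ) ≤ PQ (z j) := Nat.cast_nonneg _
      linarith) (Eventually.of_forall fun j => by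
      have h1 : PQ (z j) * (D j / PQ (z j) + 1) ≤ D j + PQ (z j) := by
        have := Nat.mul_div_le (D j) (PQ (z j))
        have h2 : PQ (z j) * (D j / PQ (z j) + 1) = PQ (z j) * (D j / PQ (z j)) + PQ (z j) := by ring
        omega
      exact_mod_cast h1) hw
  have hE : Tendsto (fun j : ℕ => Real.exp (PQ (z j) / (((j : ℝ) + 1) * Real.log 2) + k / (Vf (z j) * (((j : ℝ) + 1) * Real.log 2))))
      atTop (𝓝 1) := by
    have h1 : Tendsto (fun j : ℕ => (PQ (z j) : ℝ) / (((j : ℝ) + 1) * Real.log 2) + k / (Vf (z j) * (((j : ℝ) + 1) * Real.log 2)))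
        atTop (𝓝 0) := by
      have h2 := ((PX_lim hz).mul succ_ratio).add (((beta_lim hz).mul succ_ratio).const_mul (k : ℝ))
      simp only [zero_mul, mul_zero, add_zero] at h2
      refine h2.congr' ?_
      filter_upwards [hj0] with j hj
      have hV := Vf_pos (z j)
      field_simp
    have h2 := (Real.continuous_exp.tendsto 0).comp h1
    rw [Real.exp_zero] at h2
    exact h2
  have h3 := (hγ.mul hG).mul hE
  rw [mul_one] at h3
  refine h3.congr' ?_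
  filter_upwards [hj0] with j hj
  have hV := Vf_pos (z j)
  have hP : (0 : ℝ) < PQ (z j) := by exact_mod_cast PQ_pos _
  rw [R2_gam (by omega)]
  obtain ⟨s, rfl⟩ : ∃ s, k = s + 1 := ⟨k - 1, by omega⟩
  rw [Nat.add_sub_cancel]
  obtain ⟨X, hX⟩ : ∃ X, X = (j : ℝ) * Real.log 2 := ⟨_, rfl⟩
  have hX0 : 0 < X := by rw [hX]; positivity
  rw [← hX, one_div, inv_pow, mul_pow, pow_succ X s]
  obtain ⟨Gq, hGq⟩ : ∃ Gq, Gq = GG ((((s + 1 : ℕ) : ℝ) - 1) / (((j : ℝ) + 1) * Real.log 2)) (PQ (z j)) (D j / PQ (z j) + 1) := ⟨_, rfl⟩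
  rw [← hGq]
  field_simp

/-- the lower coefficient -/
theorem Lo_lim {z D : ℕ → ℕ} (hz : LowLev z) {k : ℕ} (hk : 2 ≤ k) {w γ : ℝ}
    (hw : Tendsto (fun j : ℕ => Real.exp (-(((k : ℝ) - 1) * D j / (j * Real.log 2)))) atTop (𝓝 w))
    (hγ : Tendsto (fun j => gam (z j) k) atTop (𝓝 γ)) :
    Tendsto (fun j : ℕ => ((j : ℝ) * Real.log 2) ^ (k - 1) * ((1 / (Vf (z j) * (((j : ℝ) + 1) * Real.log 2))) ^ k *
      (Real.exp (-((1 + 2 * (1 / (Vf (z j) * (j * Real.log 2)))) * (1 + PQ (z j)) / (j * Real.log 2))) *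
        ((R2 (z j) k : ℝ) / PQ (z j) * (Real.exp (-((1 + 2 * (1 / (Vf (z j) * (j * Real.log 2)))) * ((k : ℝ) - 1) / (j * Real.log 2) * PQ (z j))) *
          GG ((1 + 2 * (1 / (Vf (z j) * (j * Real.log 2)))) * ((k : ℝ) - 1) / (j * Real.log 2)) (PQ (z j)) (D j / PQ (z j)))))))
      atTop (𝓝 (γ * ((1 - w) / ((k : ℝ) - 1)))) := by
  have hl := hl2
  have hk' : (2 : ℝ) ≤ k := by exact_mod_cast hk
  have hs : (0 : ℝ) < (k : ℝ) - 1 := by linarith
  have hj0 : ∀ᶠ j : ℕ in atTop, (0 : ℝ) < j := by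
    filter_upwards [eventually_ge_atTop 1] with j hj
    exact_mod_cast hj
  obtain ⟨q, hq⟩ : ∃ q : ℕ → ℝ, q = fun j : ℕ => 1 / (Vf (z j) * (j * Real.log 2)) := ⟨_, rfl⟩
  have hqlim : Tendsto q atTop (𝓝 0) := by rw [hq]; exact beta_lim hz
  have hq0 : ∀ j, 0 ≤ q j := by
    intro j
    rw [hq]
    have hV := Vf_pos (z j)
    positivity
  have hq1 : Tendsto (fun j => 1 + 2 * q j) atTop (𝓝 1) := by
    have := (hqlim.const_mul 2).const_add 1
    simpa using this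
  have hqe : ∀ j : ℕ, 1 / (Vf (z j) * (j * Real.log 2)) = q j := fun j => by rw [hq]
  simp only [hqe]
  have hG := GG_lim (a := fun j : ℕ => (1 + 2 * q j) * ((k : ℝ) - 1) / (j * Real.log 2)) (X := fun j : ℕ => (j : ℝ) * Real.log 2)
    (P := fun j => PQ (z j)) (M := fun j => D j / PQ (z j)) (D := D) hs (hj0.mono fun j hj => by
      have := hq0 j
      positivity)
    (hj0.mono fun j hj => by positivity) (fun j => PQ_pos _) (by
      have h1 := hq1.mul_const ((k : ℝ) - 1)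
      rw [one_mul] at h1
      refine h1.congr' ?_
      filter_upwards [hj0] with j hj
      field_simp) (PX_lim hz) (Eventually.of_forall fun j => by
      have h1 := (Nat.lt_mul_div_succ (D j) (PQ_pos (z j))).le
      have h2 : (D j : ℝ) ≤ ((PQ (z j) * (D j / PQ (z j) + 1) : ℕ) : ℝ) := by exact_mod_cast h1
      push_cast at h2 ⊢
      linarith) (Eventually.of_forall fun j => by
      have h1 := Nat.mul_div_le (D j) (PQ (z j))
      have h2 : ((PQ (z j) * (D j / PQ (z j)) : ℕ) : ℝ) ≤ D j := by exact_mod_cast h1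
      have h3 : (0 : ℝ) ≤ PQ (z j) := Nat.cast_nonneg _
      linarith) hw
  have hPX := PX_lim hz
  have hXinv : Tendsto (fun j : ℕ => 1 / ((j : ℝ) * Real.log 2)) atTop (𝓝 0) := by
    refine X_top.inv_tendsto_atTop.congr fun j => ?_
    rw [Pi.inv_apply, one_div]
  have hE : Tendsto (fun j : ℕ => Real.exp (-((1 + 2 * q j) * (1 + PQ (z j)) / (j * Real.log 2)))) atTop (𝓝 1) := by
    have h1 : Tendsto (fun j : ℕ => -((1 + 2 * q j) * (1 + PQ (z j)) / (j * Real.log 2))) atTop (𝓝 0) := by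
      have h2 := (hq1.mul (hXinv.add hPX)).neg
      simp only [add_zero, mul_zero, neg_zero] at h2
      refine h2.congr fun j => ?_
      ring
    have h2 := (Real.continuous_exp.tendsto 0).comp h1
    rw [Real.exp_zero] at h2
    exact h2
  have hE2 : Tendsto (fun j : ℕ => Real.exp (-((1 + 2 * q j) * ((k : ℝ) - 1) / (j * Real.log 2) * PQ (z j)))) atTop (𝓝 1) := by
    have h1 : Tendsto (fun j : ℕ => -((1 + 2 * q j) * ((k : ℝ) - 1) / (j * Real.log 2) * PQ (z j))) atTop (𝓝 0) := by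
      have h2 := ((hq1.mul_const ((k : ℝ) - 1)).mul hPX).neg
      simp only [mul_zero, neg_zero] at h2
      refine h2.congr fun j => ?_
      ring
    have h2 := (Real.continuous_exp.tendsto 0).comp h1
    rw [Real.exp_zero] at h2
    exact h2
  have hr := succ_ratio.pow k
  rw [one_pow] at hr
  have h3 := (((hγ.mul hG).mul hE).mul hE2).mul hr
  rw [mul_one, mul_one, mul_one] at h3
  refine h3.congr' ?_
  filter_upwards [hj0] with j hj
  have hV := Vf_pos (z j)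
  have hP : (0 : ℝ) < PQ (z j) := by exact_mod_cast PQ_pos _
  rw [R2_gam (by omega)]
  obtain ⟨s, rfl⟩ : ∃ s, k = s + 1 := ⟨k - 1, by omega⟩
  rw [Nat.add_sub_cancel]
  obtain ⟨X, hX⟩ : ∃ X, X = (j : ℝ) * Real.log 2 := ⟨_, rfl⟩
  obtain ⟨X', hX'⟩ : ∃ X', X' = ((j : ℝ) + 1) * Real.log 2 := ⟨_, rfl⟩
  have hX0 : 0 < X := by rw [hX]; positivity
  have hX0' : 0 < X' := by rw [hX']; positivity
  obtain ⟨Gq, hGq⟩ : ∃ Gq, Gq = GG ((1 + 2 * q j) * (((s + 1 : ℕ) : ℝ) - 1) / (j * Real.log 2)) (PQ (z j)) (D j / PQ (z j)) := ⟨_, rfl⟩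
  rw [← hGq, ← hX, ← hX', one_div, inv_pow, mul_pow, div_pow]
  obtain ⟨E1, hE1⟩ : ∃ E1, E1 = Real.exp (-((1 + 2 * q j) * (1 + PQ (z j)) / X)) := ⟨_, rfl⟩
  obtain ⟨E2, hE2⟩ : ∃ E2, E2 = Real.exp (-((1 + 2 * q j) * (((s + 1 : ℕ) : ℝ) - 1) / X * PQ (z j))) := ⟨_, rfl⟩
  rw [← hE1, ← hE2, pow_succ X s]
  field_simp

variable {Ω : Type*} [MeasurableSpace Ω] {μ : Measure Ω} [IsProbabilityMeasure μ] {A : Ω → Set ℕ} {z : ℕ → ℕ}

/-- **The expected number of runs.** -/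
theorem EE_lim (hA : IsModel μ (pr z) A) (hz : LowLev z) {k : ℕ} (hk : 2 ≤ k) {D : ℕ → ℕ} (hD : ∀ᶠ j : ℕ in atTop, D j ≤ j ^ 3)
    {w γ : ℝ} (hw : Tendsto (fun j : ℕ => Real.exp (-(((k : ℝ) - 1) * D j / (j * Real.log 2)))) atTop (𝓝 w))
    (hγ : Tendsto (fun j => gam (z j) k) atTop (𝓝 γ)) {ε : ℝ} (hε : 0 < ε) :
    ∀ᶠ j : ℕ in atTop, ∀ y : ℕ, 2 ^ j ≤ y → y + (k - 1) * D j ≤ 2 ^ (j + 1) →
      |((j : ℝ) * Real.log 2) ^ (k - 1) * EE μ A k (2 ^ j) y (D j) - ((y : ℝ) - 2 ^ j) * (γ * ((1 - w) / ((k : ℝ) - 1)))| ≤ ε * 2 ^ j := by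
  have hl := hl2
  have hl1 : Real.log 2 < 0.7 := by linarith [Real.log_two_lt_d9]
  have hk' : (2 : ℝ) ≤ k := by exact_mod_cast hk
  obtain ⟨c, hc⟩ : ∃ c, c = γ * ((1 - w) / ((k : ℝ) - 1)) := ⟨_, rfl⟩
  have hU := Up_lim hz hk hw hγ
  have hL := Lo_lim hz hk hw hγ
  rw [← hc] at hU hL
  have herr : ∀ᶠ j : ℕ in atTop, 3 * (j : ℝ) ^ (k + 4) ≤ ε / 2 * 2 ^ j := by
    have h1 := (isLittleO_pow_exp_pos_mul_atTop (k + 4) (show (0 : ℝ) < 1 / 2 by norm_num)).bound (show (0 : ℝ) < ε / 6 by positivity)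
    filter_upwards [tendsto_natCast_atTop_atTop.eventually h1, eventually_ge_atTop 1] with j h2 hj
    rw [Real.norm_of_nonneg (by positivity), Real.norm_of_nonneg (Real.exp_pos _).le] at h2
    have e2 : (2 : ℝ) ^ j = Real.exp (j * Real.log 2) := by
      rw [mul_comm, Real.exp_mul, Real.exp_log (by norm_num), Real.rpow_natCast]
    have e3 : Real.exp (1 / 2 * (j : ℝ)) ≤ 2 ^ j := by
      rw [e2, Real.exp_le_exp]
      have := Real.log_two_gt_d9
      have hj0 : (0 : ℝ) ≤ j := Nat.cast_nonneg _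
      nlinarith
    have e4 : ε / 6 * Real.exp (1 / 2 * (j : ℝ)) ≤ ε / 6 * 2 ^ j := mul_le_mul_of_nonneg_left e3 (by positivity)
    linarith
  filter_upwards [hU.eventually (ge_mem_nhds (show c < c + ε / 2 by linarith)), hL.eventually (le_mem_nhds (show c - ε / 2 < c by linarith)),
    herr, hD, beta_small hz.le (show (0 : ℝ) < 1 / 2 by norm_num), (PX_lim hz).eventually (ge_mem_nhds (show (0 : ℝ) < 1 / 4 by norm_num)),
    (beta_lim hz).eventually (ge_mem_nhds (show (0 : ℝ) < 1 / (4 * k) by positivity)), eventually_ge_atTop 1] with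
    j g1 g2 g3 g4 g5 g6 g7 hj y hy1 hy2
  have hj0 : (0 : ℝ) < j := by exact_mod_cast hj
  have hj1 : (1 : ℝ) ≤ j := by exact_mod_cast hj
  have hV := Vf_pos (z j)
  have hP : (0 : ℝ) < PQ (z j) := by exact_mod_cast PQ_pos _
  have hq0 := one_le_of hj (g5.trans (by norm_num))
  have hup := EE_up hA (j := j) (k := k) (α := 2 ^ j) (y := y) (D := D j) hj (by omega) hq0 le_rfl hy1 hy2
  have hlo := EE_lo hA (j := j) (k := k) (α := 2 ^ j) (y := y) (D := D j) hj (by omega) hq0 le_rfl g5 le_rfl hy1 hy2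
  push_cast at hup hlo
  obtain ⟨E, hE⟩ : ∃ E, E = EE μ A k (2 ^ j) y (D j) := ⟨_, rfl⟩
  rw [← hE] at hup hlo ⊢
  have hy0 : (0 : ℝ) ≤ (y : ℝ) - 2 ^ j := by
    have : ((2 ^ j : ℕ) : ℝ) ≤ y := by exact_mod_cast hy1
    push_cast at this
    linarith
  have hy3 : (y : ℝ) - 2 ^ j ≤ 2 ^ j := by
    have h1 : y ≤ 2 ^ (j + 1) := by omega
    have : (y : ℝ) ≤ ((2 ^ (j + 1) : ℕ) : ℝ) := by exact_mod_cast h1
    push_cast at this
    rw [pow_succ] at this
    linarith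
  obtain ⟨X, hX⟩ : ∃ X, X = (j : ℝ) * Real.log 2 := ⟨_, rfl⟩
  obtain ⟨X', hX'⟩ : ∃ X', X' = ((j : ℝ) + 1) * Real.log 2 := ⟨_, rfl⟩
  have hX0 : 0 < X := by rw [hX]; positivity
  have hXX' : X ≤ X' := by rw [hX, hX']; nlinarith
  have hX0' : 0 < X' := by linarith
  have hXj : X ≤ j := by rw [hX]; nlinarith
  rw [← hX, ← hX'] at hup g1
  rw [← hX, ← hX'] at hlo g2
  rw [← hX] at g5 g6 g7 hq0 ⊢
  have hb1 : 1 / (Vf (z j) * X) ≤ 1 := g5.trans (by norm_num)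
  have hb0 : 0 ≤ 1 / (Vf (z j) * X) := by positivity
  have hb1' : 1 / (Vf (z j) * X') ≤ 1 := by
    refine le_trans ?_ hb1
    exact one_div_le_one_div_of_le (by positivity) (mul_le_mul_of_nonneg_left hXX' hV.le)
  have hb0' : 0 ≤ 1 / (Vf (z j) * X') := by positivity
  have hPj : (PQ (z j) : ℝ) ≤ j := by
    rw [div_le_iff₀ hX0] at g6
    linarith
  have hDj : (D j : ℝ) ≤ (j : ℝ) ^ 3 := by exact_mod_cast g4
  have hXs : X ^ (k - 1) ≤ (j : ℝ) ^ (k - 1) := pow_le_pow_left₀ hX0.le hXj _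
  have hXs0 : 0 ≤ X ^ (k - 1) := by positivity
  have hprod : X ^ (k - 1) * (PQ (z j) * D j) ≤ (j : ℝ) ^ (k + 4) := by
    calc X ^ (k - 1) * (PQ (z j) * D j) ≤ (j : ℝ) ^ (k - 1) * (j * (j : ℝ) ^ 3) :=
          mul_le_mul hXs (mul_le_mul hPj hDj (Nat.cast_nonneg _) hj0.le) (by positivity) (by positivity)
      _ = (j : ℝ) ^ (k - 1 + 4) := by rw [pow_add]; ring
      _ ≤ (j : ℝ) ^ (k + 4) := pow_le_pow_right₀ hj1 (by omega)
  have hexp3 : Real.exp (PQ (z j) / X' + k / (Vf (z j) * X')) ≤ 3 := by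
    have e1 : (PQ (z j) : ℝ) / X' ≤ 1 / 4 := (div_le_div_of_nonneg_left hP.le hX0 hXX').trans g6
    have e2 : (k : ℝ) / (Vf (z j) * X') ≤ 1 / 4 := by
      have e3 : (k : ℝ) / (Vf (z j) * X') ≤ k * (1 / (Vf (z j) * X)) := by
        rw [mul_one_div]
        exact div_le_div_of_nonneg_left (by linarith) (by positivity) (mul_le_mul_of_nonneg_left hXX' hV.le)
      refine e3.trans ?_
      have e4 : (k : ℝ) * (1 / (Vf (z j) * X)) ≤ k * (1 / (4 * k)) := mul_le_mul_of_nonneg_left g7 (by linarith)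
      refine e4.trans (le_of_eq ?_)
      field_simp
    have e3 : Real.exp (PQ (z j) / X' + k / (Vf (z j) * X')) ≤ Real.exp 1 := by
      rw [Real.exp_le_exp]
      linarith
    linarith [Real.exp_one_lt_d9]
  rw [abs_le]
  constructor
  · -- lower bound
    obtain ⟨C1, hC1⟩ : ∃ C1, C1 = (1 / (Vf (z j) * X')) ^ k := ⟨_, rfl⟩
    obtain ⟨C2, hC2⟩ : ∃ C2, C2 = Real.exp (-((1 + 2 * (1 / (Vf (z j) * X))) * (1 + PQ (z j)) / X)) := ⟨_, rfl⟩
    obtain ⟨a, ha⟩ : ∃ a, a = (1 + 2 * (1 / (Vf (z j) * X))) * ((k : ℝ) - 1) / X := ⟨_, rfl⟩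
    have hC10 : 0 ≤ C1 := by rw [hC1]; positivity
    have hC11 : C1 ≤ 1 := by rw [hC1]; exact pow_le_one₀ hb0' hb1'
    have hC20 : 0 ≤ C2 := by rw [hC2]; positivity
    have hC21 : C2 ≤ 1 := by
      rw [hC2, Real.exp_le_one_iff]
      have : 0 ≤ (1 + 2 * (1 / (Vf (z j) * X))) * (1 + PQ (z j)) / X := by positivity
      linarith
    have ha0 : 0 < a := by
      rw [ha]
      have : (0 : ℝ) < (k : ℝ) - 1 := by linarith
      positivity
    rw [← hC1, ← hC2, ← ha] at g2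
    have hlo2 : C1 * (C2 * (((y : ℝ) - 2 ^ j) * Ud (z j) k a (D j) - PQ (z j) * D j)) ≤ E := by
      rw [hC1, hC2, ha]
      exact hlo
    have e1 : (R2 (z j) k : ℝ) / PQ (z j) * (Real.exp (-(a * PQ (z j))) * GG a (PQ (z j)) (D j / PQ (z j))) ≤ Ud (z j) k a (D j) :=
      (Ud_full (z := z j) (k := k) ha0 (D j / PQ (z j))).1.trans (Ud_mono _ _ _ (Nat.div_mul_le_self _ _))
    have e2 : X ^ (k - 1) * (C1 * (C2 * (((y : ℝ) - 2 ^ j) * Ud (z j) k a (D j) - PQ (z j) * D j))) ≤ X ^ (k - 1) * E :=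
      mul_le_mul_of_nonneg_left hlo2 hXs0
    have e3 : ((y : ℝ) - 2 ^ j) * (X ^ (k - 1) * (C1 * (C2 * ((R2 (z j) k : ℝ) / PQ (z j) * (Real.exp (-(a * PQ (z j))) *
        GG a (PQ (z j)) (D j / PQ (z j))))))) ≤ ((y : ℝ) - 2 ^ j) * (X ^ (k - 1) * (C1 * (C2 * Ud (z j) k a (D j)))) :=
      mul_le_mul_of_nonneg_left (mul_le_mul_of_nonneg_left (mul_le_mul_of_nonneg_left (mul_le_mul_of_nonneg_left e1 hC20) hC10) hXs0) hy0
    have e4 : ((y : ℝ) - 2 ^ j) * (c - ε / 2) ≤ ((y : ℝ) - 2 ^ j) * (X ^ (k - 1) * (C1 * (C2 * ((R2 (z j) k : ℝ) / PQ (z j) *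
        (Real.exp (-(a * PQ (z j))) * GG a (PQ (z j)) (D j / PQ (z j))))))) := mul_le_mul_of_nonneg_left g2 hy0
    have e5 : X ^ (k - 1) * (C1 * (C2 * (PQ (z j) * D j))) ≤ (j : ℝ) ^ (k + 4) := by
      have e6 : C1 * (C2 * ((PQ (z j) : ℝ) * D j)) ≤ (PQ (z j) : ℝ) * D j := by
        have e7 : 0 ≤ (PQ (z j) : ℝ) * D j := by positivity
        have e8 : C2 * ((PQ (z j) : ℝ) * D j) ≤ (PQ (z j) : ℝ) * D j := by nlinarith
        calc C1 * (C2 * ((PQ (z j) : ℝ) * D j)) ≤ C1 * ((PQ (z j) : ℝ) * D j) := mul_le_mul_of_nonneg_left e8 hC10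
          _ ≤ _ := by nlinarith
      exact (mul_le_mul_of_nonneg_left e6 hXs0).trans hprod
    have e6 : ((y : ℝ) - 2 ^ j) * (ε / 2) ≤ 2 ^ j * (ε / 2) := mul_le_mul_of_nonneg_right hy3 (by linarith)
    have e7 : (0 : ℝ) ≤ (j : ℝ) ^ (k + 4) := by positivity
    rw [← hc]
    nlinarith
  · obtain ⟨C1, hC1⟩ : ∃ C1, C1 = (1 / (Vf (z j) * X)) ^ k := ⟨_, rfl⟩
    obtain ⟨C2, hC2⟩ : ∃ C2, C2 = Real.exp (PQ (z j) / X' + k / (Vf (z j) * X')) := ⟨_, rfl⟩
    obtain ⟨a, ha⟩ : ∃ a, a = ((k : ℝ) - 1) / X' := ⟨_, rfl⟩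
    have hC10 : 0 ≤ C1 := by rw [hC1]; positivity
    have hC11 : C1 ≤ 1 := by rw [hC1]; exact pow_le_one₀ hb0 hb1
    have hC20 : 0 ≤ C2 := by rw [hC2]; positivity
    have ha0 : 0 < a := by
      rw [ha]
      have : (0 : ℝ) < (k : ℝ) - 1 := by linarith
      positivity
    rw [← hC1, ← hC2, ← ha] at g1 hup
    rw [← hC2] at hexp3
    have e1 : Ud (z j) k a (D j) ≤ (R2 (z j) k : ℝ) / PQ (z j) * GG a (PQ (z j)) (D j / PQ (z j) + 1) := by
      refine (Ud_mono _ _ _ ?_).trans (Ud_full (z := z j) (k := k) ha0 (D j / PQ (z j) + 1)).2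
      have := (Nat.lt_mul_div_succ (D j) (PQ_pos (z j))).le
      rwa [mul_comm] at this
    have e2 : X ^ (k - 1) * E ≤ X ^ (k - 1) * (C1 * (C2 * (((y : ℝ) - 2 ^ j) * Ud (z j) k a (D j) + PQ (z j) * D j))) :=
      mul_le_mul_of_nonneg_left hup hXs0
    have e3 : ((y : ℝ) - 2 ^ j) * (X ^ (k - 1) * (C1 * (C2 * Ud (z j) k a (D j)))) ≤ ((y : ℝ) - 2 ^ j) * (X ^ (k - 1) * (C1 * (C2 *
        ((R2 (z j) k : ℝ) / PQ (z j) * GG a (PQ (z j)) (D j / PQ (z j) + 1))))) :=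
      mul_le_mul_of_nonneg_left (mul_le_mul_of_nonneg_left (mul_le_mul_of_nonneg_left (mul_le_mul_of_nonneg_left e1 hC20) hC10) hXs0) hy0
    have e4 : ((y : ℝ) - 2 ^ j) * (X ^ (k - 1) * (C1 * (C2 * ((R2 (z j) k : ℝ) / PQ (z j) * GG a (PQ (z j)) (D j / PQ (z j) + 1))))) ≤
        ((y : ℝ) - 2 ^ j) * (c + ε / 2) := mul_le_mul_of_nonneg_left g1 hy0
    have e5 : X ^ (k - 1) * (C1 * (C2 * (PQ (z j) * D j))) ≤ 3 * (j : ℝ) ^ (k + 4) := by
      have e6 : C1 * (C2 * ((PQ (z j) : ℝ) * D j)) ≤ 3 * ((PQ (z j) : ℝ) * D j) := by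
        have e7 : 0 ≤ (PQ (z j) : ℝ) * D j := by positivity
        have e8 : C2 * ((PQ (z j) : ℝ) * D j) ≤ 3 * ((PQ (z j) : ℝ) * D j) := mul_le_mul_of_nonneg_right hexp3 e7
        calc C1 * (C2 * ((PQ (z j) : ℝ) * D j)) ≤ C1 * (3 * ((PQ (z j) : ℝ) * D j)) := mul_le_mul_of_nonneg_left e8 hC10
          _ ≤ _ := by nlinarith
      calc _ ≤ X ^ (k - 1) * (3 * ((PQ (z j) : ℝ) * D j)) := mul_le_mul_of_nonneg_left e6 hXs0
        _ = 3 * (X ^ (k - 1) * (PQ (z j) * D j)) := by ring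
        _ ≤ _ := mul_le_mul_of_nonneg_left hprod (by norm_num)
    have e6 : ((y : ℝ) - 2 ^ j) * (ε / 2) ≤ 2 ^ j * (ε / 2) := mul_le_mul_of_nonneg_right hy3 (by linarith)
    rw [← hc]
    nlinarith

end Pool.Agent.H38.RC
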