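import Pool.Agent.H38.RC.C

/-!
# Counting runs in the sieved models: concentration
-/

set_option autoImplicit false

namespace Pool.Agent.H38.RC

open Finset MeasureTheory Filter Pool.Agent.Q120.MG Pool.Agent.Q120.GM Pool.Agent.Q120.CL Pool.Agent.H38.LR
open scoped Topology

variable {Ω : Type*} [MeasurableSpace Ω] {μ : Measure Ω} [IsProbabilityMeasure μ] {A : Ω → Set ℕ} {z : ℕ → ℕ}

/-- Chebyshev's inequality for sums of indicator functions. -/
theorem cheb {κ : Type*} [DecidableEq κ] (J : Finset κ) (G : κ → Set Ω) (hG : ∀ j ∈ J, MeasurableSet (G j)) {B t : ℝ} (ht : 0 < t)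
    (hc : ∀ i ∈ J, ∑ j ∈ J, (μ.real (G i ∩ G j) - μ.real (G i) * μ.real (G j)) ≤ B) :
    μ.real {ω | t ≤ |num J G ω - ∑ j ∈ J, μ.real (G j)|} ≤ J.card * B / t ^ 2 := by
  obtain ⟨S, hSd⟩ : ∃ S, S = ∑ j ∈ J, μ.real (G j) := ⟨_, rfl⟩
  rw [← hSd]
  obtain ⟨h1, h2⟩ := num_int (μ := μ) J G hG
  rw [← hSd] at h2
  have hind : ∀ (E E' : Set Ω) (ω : Ω), E.indicator (fun _ => (1 : ℝ)) ω * E'.indicator (fun _ => (1 : ℝ)) ω =
      (E ∩ E').indicator (fun _ => (1 : ℝ)) ω := by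
    intro E E' ω
    by_cases h1 : ω ∈ E <;> by_cases h2 : ω ∈ E' <;> simp [h1, h2]
  have hsq : ∀ ω, (num J G ω - S) ^ 2 = (∑ i ∈ J, ∑ j ∈ J, (G i ∩ G j).indicator (fun _ => (1 : ℝ)) ω) -
      2 * S * num J G ω + S ^ 2 := by
    intro ω
    have h3 : num J G ω ^ 2 = ∑ i ∈ J, ∑ j ∈ J, (G i ∩ G j).indicator (fun _ => (1 : ℝ)) ω := by
      rw [sq]
      unfold num
      rw [sum_mul_sum]
      exact sum_congr rfl (fun i _ => sum_congr rfl (fun j _ => hind _ _ _))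
    rw [← h3]
    ring
  have hi1 : ∀ i ∈ J, ∀ j ∈ J, Integrable ((G i ∩ G j).indicator (fun _ => (1 : ℝ))) μ := fun i hi j hj =>
    (integrable_const 1).indicator ((hG i hi).inter (hG j hj))
  have hi2 : ∀ i ∈ J, Integrable (fun ω => ∑ j ∈ J, (G i ∩ G j).indicator (fun _ => (1 : ℝ)) ω) μ := fun i hi =>
    integrable_finsetSum _ (fun j hj => hi1 i hi j hj)
  have hi3 : Integrable (fun ω => ∑ i ∈ J, ∑ j ∈ J, (G i ∩ G j).indicator (fun _ => (1 : ℝ)) ω) μ :=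
    integrable_finsetSum _ hi2
  have hi4 : Integrable (fun ω => 2 * S * num J G ω) μ := h1.const_mul _
  have hi5 : Integrable (fun ω => (∑ i ∈ J, ∑ j ∈ J, (G i ∩ G j).indicator (fun _ => (1 : ℝ)) ω) -
      2 * S * num J G ω) μ := hi3.sub hi4
  have hi6 : Integrable (fun ω => (num J G ω - S) ^ 2) μ :=
    (hi5.add (integrable_const (S ^ 2))).congr (Eventually.of_forall (fun ω => by
      simp only [Pi.add_apply]
      rw [hsq ω]))
  have hint : ∫ ω, (num J G ω - S) ^ 2 ∂μ = (∑ i ∈ J, ∑ j ∈ J, μ.real (G i ∩ G j)) - 2 * S * S + S ^ 2 := by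
    calc ∫ ω, (num J G ω - S) ^ 2 ∂μ = ∫ ω, ((∑ i ∈ J, ∑ j ∈ J, (G i ∩ G j).indicator (fun _ => (1 : ℝ)) ω) -
          2 * S * num J G ω + S ^ 2) ∂μ := integral_congr_ae (Eventually.of_forall hsq)
      _ = _ := by
        rw [integral_add hi5 (integrable_const _), integral_sub hi3 hi4, integral_const_mul, h2, integral_const]
        rw [integral_finsetSum _ hi2]
        congr 1
        · congr 1
          refine sum_congr rfl (fun i hi => ?_)
          rw [integral_finsetSum _ (fun j hj => hi1 i hi j hj)]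
          refine sum_congr rfl (fun j hj => ?_)
          rw [integral_indicator_const _ ((hG i hi).inter (hG j hj))]
          simp
        · simp
  have hS2 : S * S = ∑ i ∈ J, ∑ j ∈ J, μ.real (G i) * μ.real (G j) := by
    rw [hSd, sum_mul_sum]
  have hvar : ∫ ω, (num J G ω - S) ^ 2 ∂μ ≤ J.card * B := by
    rw [hint]
    have h3 : (∑ i ∈ J, ∑ j ∈ J, μ.real (G i ∩ G j)) - 2 * S * S + S ^ 2 =
        ∑ i ∈ J, ∑ j ∈ J, (μ.real (G i ∩ G j) - μ.real (G i) * μ.real (G j)) := by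
      have h4 : ∑ i ∈ J, ∑ j ∈ J, (μ.real (G i ∩ G j) - μ.real (G i) * μ.real (G j)) =
          (∑ i ∈ J, ∑ j ∈ J, μ.real (G i ∩ G j)) - S * S := by
        rw [hS2, ← sum_sub_distrib]
        exact sum_congr rfl fun i _ => sum_sub_distrib _ _
      rw [h4]
      ring
    rw [h3]
    refine (sum_le_sum hc).trans ?_
    rw [sum_const, nsmul_eq_mul]
  have h3 := mul_meas_ge_le_integral_of_nonneg (μ := μ) (f := fun ω => (num J G ω - S) ^ 2)
    (Eventually.of_forall (fun ω => sq_nonneg _)) hi6 (t ^ 2)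
  have h4 : {ω | t ≤ |num J G ω - S|} ⊆ {ω | t ^ 2 ≤ (num J G ω - S) ^ 2} := by
    intro ω hω
    have hω' : t ≤ |num J G ω - S| := hω
    show t ^ 2 ≤ (num J G ω - S) ^ 2
    rw [← sq_abs (num J G ω - S)]
    exact pow_le_pow_left₀ ht.le hω' 2
  have h5 : μ.real {ω | t ≤ |num J G ω - S|} ≤ μ.real {ω | t ^ 2 ≤ (num J G ω - S) ^ 2} :=
    measureReal_mono h4 (measure_ne_top _ _)
  rw [le_div_iff₀ (by positivity)]
  calc μ.real {ω | t ≤ |num J G ω - S|} * t ^ 2 ≤ μ.real {ω | t ^ 2 ≤ (num J G ω - S) ^ 2} * t ^ 2 :=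
        mul_le_mul_of_nonneg_right h5 (by positivity)
    _ = t ^ 2 * μ.real {ω | t ^ 2 ≤ (num J G ω - S) ^ 2} := mul_comm _ _
    _ ≤ _ := h3.trans hvar

/-- The difference of a run is determined by its first term. -/
theorem run_unique {S : Set ℕ} {n k d d' : ℕ} (hk : 2 ≤ k) (hd : 1 ≤ d) (hd' : 1 ≤ d') (h : Run S n k d) (h' : Run S n k d') :
    d = d' := by
  have key : ∀ {d d' : ℕ}, 1 ≤ d → 1 ≤ d' → Run S n k d → Run S n k d' → d ≤ d' := by
    intro d d' hd hd' h h'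
    by_contra hcon
    have h1 : n + 1 * d' ∈ S := mem_of_run h' (by omega)
    have h2 : d ≤ (k - 1) * d := Nat.le_mul_of_pos_left _ (by omega)
    obtain ⟨i, hi, h3⟩ := (h (n + 1 * d') (by omega) (by omega)).1 h1
    rcases Nat.eq_zero_or_pos i with h0 | h0
    · rw [h0] at h3
      omega
    · have h4 : d ≤ i * d := Nat.le_mul_of_pos_left _ h0
      omega
  exact le_antisymm (key hd hd' h h') (key hd' hd h' h)

open Classical in
/-- the number of the runs -/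
noncomputable def NC (S : Set ℕ) (k α y D : ℕ) : ℕ := ((Ico α y).filter (fun n => ∃ d, 1 ≤ d ∧ d ≤ D ∧ Run S n k d)).card

theorem num_NC (A : Ω → Set ℕ) {k : ℕ} (hk : 2 ≤ k) (α y D : ℕ) (ω : Ω) :
    num (Ico α y ×ˢ Icc 1 D) (fun x => {ω | Run (A ω) x.1 k x.2}) ω = NC (A ω) k α y D := by
  classical
  rw [num_card]
  unfold NC
  norm_cast
  refine card_bij (fun x _ => x.1) ?_ ?_ ?_
  · rintro ⟨n, d⟩ hx
    rw [mem_filter, mem_product, mem_Icc] at hx
    rw [mem_filter]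
    exact ⟨hx.1.1, d, hx.1.2.1, hx.1.2.2, hx.2⟩
  · rintro ⟨n, d⟩ hx ⟨n', d'⟩ hx' h
    rw [mem_filter, mem_product, mem_Icc] at hx hx'
    simp only at h
    subst h
    have h2 : d = d' := run_unique hk hx.1.2.1 hx'.1.2.1 hx.2 hx'.2
    rw [h2]
  · intro n hn
    rw [mem_filter] at hn
    obtain ⟨h1, d, hd1, hd2, hr⟩ := hn
    refine ⟨(n, d), ?_, rfl⟩
    rw [mem_filter, mem_product, mem_Icc]
    exact ⟨⟨h1, hd1, hd2⟩, hr⟩

/-- the variance bound -/
theorem dev (hA : IsModel μ (pr z) A) {k : ℕ} (hk : 2 ≤ k) (α y D : ℕ) {t : ℝ} (ht : 0 < t) :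
    μ.real {ω | t ≤ |(NC (A ω) k α y D : ℝ) - EE μ A k α y D|} ≤
      (((y - α) * D : ℕ) : ℝ) * (((2 * ((k - 1) * D) + 1) * D : ℕ) : ℝ) / t ^ 2 := by
  classical
  have h1 : ∀ ω, num (Ico α y ×ˢ Icc 1 D) (fun x => {ω | Run (A ω) x.1 k x.2}) ω = NC (A ω) k α y D :=
    fun ω => num_NC A hk α y D ω
  have h2 : EE μ A k α y D = ∑ x ∈ Ico α y ×ˢ Icc 1 D, μ.real {ω | Run (A ω) x.1 k x.2} := by
    unfold EE
    rw [sum_product]
  have h3 := cheb (μ := μ) (Ico α y ×ˢ Icc 1 D) (fun x => {ω | Run (A ω) x.1 k x.2}) (fun x _ => meas_run hA _ _ _) (B :=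
    (((2 * ((k - 1) * D) + 1) * D : ℕ) : ℝ)) ht ?_
  · have h4 : {ω | t ≤ |(NC (A ω) k α y D : ℝ) - EE μ A k α y D|} =
        {ω | t ≤ |num (Ico α y ×ˢ Icc 1 D) (fun x => {ω | Run (A ω) x.1 k x.2}) ω - ∑ x ∈ Ico α y ×ˢ Icc 1 D, μ.real {ω | Run (A ω) x.1 k x.2}|} := by
      ext ω
      rw [Set.mem_setOf_eq, Set.mem_setOf_eq, h1, h2]
    rw [h4]
    refine h3.trans (le_of_eq ?_)
    rw [card_product, Nat.card_Ico, Nat.card_Icc, Nat.add_sub_cancel]
  · rintro ⟨n, d⟩ hx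
    rw [mem_product, mem_Icc] at hx
    simp only at hx
    have h5 : ∀ y' ∈ Ico α y ×ˢ Icc 1 D, μ.real ({ω | Run (A ω) n k d} ∩ {ω | Run (A ω) y'.1 k y'.2}) -
        μ.real {ω | Run (A ω) n k d} * μ.real {ω | Run (A ω) y'.1 k y'.2} ≤
          if y' ∈ Icc (n - (k - 1) * D) (n + (k - 1) * D) ×ˢ Icc 1 D then 1 else 0 := by
      rintro ⟨n', d'⟩ hy
      rw [mem_product, mem_Icc] at hy
      simp only at hy ⊢
      have hd1 : (k - 1) * d ≤ (k - 1) * D := Nat.mul_le_mul_left _ hx.2.2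
      have hd2 : (k - 1) * d' ≤ (k - 1) * D := Nat.mul_le_mul_left _ hy.2.2
      split_ifs with h6
      · have e1 : μ.real ({ω | Run (A ω) n k d} ∩ {ω | Run (A ω) n' k d'}) ≤ 1 := measureReal_le_one
        have e2 : 0 ≤ μ.real {ω | Run (A ω) n k d} * μ.real {ω | Run (A ω) n' k d'} :=
          mul_nonneg measureReal_nonneg measureReal_nonneg
        linarith
      · rw [mem_product, mem_Icc, mem_Icc] at h6
        have h7 : n' < n - (k - 1) * D ∨ n + (k - 1) * D < n' := by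
          by_contra hcon
          exact h6 ⟨⟨by omega, by omega⟩, hy.2⟩
        have h8 : μ.real ({ω | Run (A ω) n k d} ∩ {ω | Run (A ω) n' k d'}) =
            μ.real {ω | Run (A ω) n k d} * μ.real {ω | Run (A ω) n' k d'} := by
          refine indep_real hA (S := Set.Icc n (n + (k - 1) * d)) (T := Set.Icc n' (n' + (k - 1) * d')) ?_
            (F_run fun m h1 h2 => ⟨h1, h2⟩) (F_run fun m h1 h2 => ⟨h1, h2⟩)
          rw [Set.disjoint_left]
          rintro m ⟨g1, g2⟩ ⟨g3, g4⟩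
          omega
        rw [h8, sub_self]
    refine (sum_le_sum h5).trans ?_
    rw [← sum_filter, sum_const, nsmul_eq_mul, mul_one]
    have h6 : ((Ico α y ×ˢ Icc 1 D).filter (fun y' => y' ∈ Icc (n - (k - 1) * D) (n + (k - 1) * D) ×ˢ Icc 1 D)).card ≤
        (Icc (n - (k - 1) * D) (n + (k - 1) * D) ×ˢ Icc 1 D).card := by
      apply card_le_card
      intro x hx
      exact (mem_filter.1 hx).2
    have h7 : (Icc (n - (k - 1) * D) (n + (k - 1) * D) ×ˢ Icc 1 D).card ≤ (2 * ((k - 1) * D) + 1) * D := by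
      rw [card_product, Nat.card_Icc, Nat.card_Icc, Nat.add_sub_cancel]
      exact Nat.mul_le_mul_right _ (by omega)
    exact_mod_cast h6.trans h7

/-- the step of the grid -/
def st (k j : ℕ) : ℕ := 2 ^ j / j ^ (k + 1) + 1

/-- **Concentration** on a grid. -/
theorem conc (hA : IsModel μ (pr z) A) {k : ℕ} (hk : 2 ≤ k) {D : ℕ → ℕ} (hD : ∀ᶠ j : ℕ in atTop, D j ≤ j ^ 3) :
    ∀ᵐ ω ∂μ, ∀ᶠ j : ℕ in atTop, ∀ a : ℕ, a ≤ j ^ (k + 1) →
      |(NC (A ω) k (2 ^ j) (2 ^ j + a * st k j) (D j) : ℝ) - EE μ A k (2 ^ j) (2 ^ j + a * st k j) (D j)| < 2 ^ j / (j : ℝ) ^ (k + 1) := by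
  classical
  obtain ⟨B, hB⟩ : ∃ B : ℕ → Set Ω, B = fun j => ⋃ a ∈ range (j ^ (k + 1) + 1),
    {ω | 2 ^ j / (j : ℝ) ^ (k + 1) ≤ |(NC (A ω) k (2 ^ j) (2 ^ j + a * st k j) (D j) : ℝ) - EE μ A k (2 ^ j) (2 ^ j + a * st k j) (D j)|} :=
    ⟨_, rfl⟩
  have hb : ∀ᶠ j : ℕ in atTop, μ.real (B j) ≤ (Real.exp (-(1 / 2))) ^ j := by
    have h1 := (isLittleO_pow_exp_pos_mul_atTop (3 * (k + 1) + 10) (show (0 : ℝ) < 1 / 8 by norm_num)).bound
      (show (0 : ℝ) < 1 / (16 * k) by positivity)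
    filter_upwards [hD, tendsto_natCast_atTop_atTop.eventually h1, eventually_ge_atTop 2] with j g1 g2 hj
    rw [Real.norm_of_nonneg (by positivity), Real.norm_of_nonneg (Real.exp_pos _).le] at g2
    have hj2 : (2 : ℝ) ≤ j := by exact_mod_cast hj
    have hk' : (2 : ℝ) ≤ k := by exact_mod_cast hk
    obtain ⟨t, ht⟩ : ∃ t : ℝ, t = 2 ^ j / (j : ℝ) ^ (k + 1) := ⟨_, rfl⟩
    have ht0 : 0 < t := by rw [ht]; positivity
    have hone : ∀ a ∈ range (j ^ (k + 1) + 1), μ.real {ω | 2 ^ j / (j : ℝ) ^ (k + 1) ≤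
        |(NC (A ω) k (2 ^ j) (2 ^ j + a * st k j) (D j) : ℝ) - EE μ A k (2 ^ j) (2 ^ j + a * st k j) (D j)|} ≤
          8 * k * (j : ℝ) ^ (2 * (k + 1) + 10) * 2 ^ j * 2 ^ j / (2 ^ j) ^ 2 / 2 ^ j * ((j : ℝ) ^ 0) := by
      intro a ha
      rw [mem_range] at ha
      rw [← ht]
      refine (dev hA hk _ _ _ ht0).trans ?_
      have e1 : (2 ^ j + a * st k j - 2 ^ j) * D j ≤ (2 * 2 ^ j + j ^ (k + 1)) * j ^ 3 := by
        refine Nat.mul_le_mul ?_ g1
        rw [Nat.add_sub_cancel_left]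
        have e2 : a * st k j ≤ j ^ (k + 1) * (2 ^ j / j ^ (k + 1) + 1) := Nat.mul_le_mul (by omega) le_rfl
        have e3 : j ^ (k + 1) * (2 ^ j / j ^ (k + 1)) ≤ 2 ^ j := Nat.mul_div_le _ _
        have e4 : j ^ (k + 1) * (2 ^ j / j ^ (k + 1) + 1) = j ^ (k + 1) * (2 ^ j / j ^ (k + 1)) + j ^ (k + 1) := by ring
        omega
      have e2 : (2 * ((k - 1) * D j) + 1) * D j ≤ (2 * k * j ^ 3) * j ^ 3 := by
        refine Nat.mul_le_mul ?_ g1
        have e3 : (k - 1) * D j ≤ (k - 1) * j ^ 3 := Nat.mul_le_mul_left _ g1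
        have e4 : (k - 1) * j ^ 3 + j ^ 3 = k * j ^ 3 := by
          obtain ⟨m, rfl⟩ : ∃ m, k = m + 1 := ⟨k - 1, by omega⟩
          rw [Nat.add_sub_cancel]
          ring
        have e5 : 1 ≤ j ^ 3 := Nat.one_le_pow _ _ (by omega)
        have e6 : 2 * k * j ^ 3 = 2 * (k * j ^ 3) := by ring
        omega
      have e3 : (((2 ^ j + a * st k j - 2 ^ j) * D j : ℕ) : ℝ) ≤ (2 * 2 ^ j + (j : ℝ) ^ (k + 1)) * (j : ℝ) ^ 3 := by exact_mod_cast e1
      have e4 : (((2 * ((k - 1) * D j) + 1) * D j : ℕ) : ℝ) ≤ (2 * k * (j : ℝ) ^ 3) * (j : ℝ) ^ 3 := by exact_mod_cast e2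
      have e5 : (j : ℝ) ^ (k + 1) ≤ 2 * 2 ^ j := by
        have e6 : (j : ℝ) ^ (k + 1) ≤ (j : ℝ) ^ (3 * (k + 1) + 10) := pow_le_pow_right₀ (by linarith) (by omega)
        have e7 : Real.exp (1 / 8 * (j : ℝ)) ≤ 2 ^ j := by
          have e8 : (2 : ℝ) ^ j = Real.exp (j * Real.log 2) := by
            rw [mul_comm, Real.exp_mul, Real.exp_log (by norm_num), Real.rpow_natCast]
          rw [e8, Real.exp_le_exp]
          have := Real.log_two_gt_d9
          nlinarith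
        have e8 : 1 / (16 * (k : ℝ)) ≤ 1 := by
          rw [div_le_one (by positivity)]
          linarith
        have e9 := Real.exp_pos (1 / 8 * (j : ℝ))
        nlinarith
      rw [div_le_iff₀ (by positivity)]
      have e6 : 8 * k * (j : ℝ) ^ (2 * (k + 1) + 10) * 2 ^ j * 2 ^ j / (2 ^ j) ^ 2 / 2 ^ j * ((j : ℝ) ^ 0) * t ^ 2 =
          8 * k * (j : ℝ) ^ 10 * 2 ^ j := by
        rw [ht]
        have e7 : (j : ℝ) ^ (2 * (k + 1) + 10) = ((j : ℝ) ^ (k + 1)) ^ 2 * (j : ℝ) ^ 10 := by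
          rw [pow_add, ← pow_mul, mul_comm 2 (k + 1)]
        rw [e7]
        field_simp
      rw [e6]
      calc (((2 ^ j + a * st k j - 2 ^ j) * D j : ℕ) : ℝ) * (((2 * ((k - 1) * D j) + 1) * D j : ℕ) : ℝ) ≤
            ((2 * 2 ^ j + (j : ℝ) ^ (k + 1)) * (j : ℝ) ^ 3) * ((2 * k * (j : ℝ) ^ 3) * (j : ℝ) ^ 3) :=
            mul_le_mul e3 e4 (Nat.cast_nonneg _) (by positivity)
        _ ≤ ((4 * 2 ^ j) * (j : ℝ) ^ 3) * ((2 * k * (j : ℝ) ^ 3) * (j : ℝ) ^ 3) := by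
            refine mul_le_mul_of_nonneg_right (mul_le_mul_of_nonneg_right (by linarith) (by positivity)) (by positivity)
        _ = 8 * k * (j : ℝ) ^ 9 * 2 ^ j := by ring
        _ ≤ 8 * k * (j : ℝ) ^ 10 * 2 ^ j := by
            refine mul_le_mul_of_nonneg_right (mul_le_mul_of_nonneg_left ?_ (by positivity)) (by positivity)
            exact pow_le_pow_right₀ (by linarith) (by norm_num)
    rw [hB]
    refine (measureReal_biUnion_finset_le _ _).trans ((sum_le_sum hone).trans ?_)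
    rw [sum_const, card_range, nsmul_eq_mul, pow_zero, mul_one]
    push_cast
    have e1 : (((j : ℝ) ^ (k + 1) + 1)) * (8 * k * (j : ℝ) ^ (2 * (k + 1) + 10) * 2 ^ j * 2 ^ j / (2 ^ j) ^ 2 / 2 ^ j) ≤
        16 * k * (j : ℝ) ^ (3 * (k + 1) + 10) / 2 ^ j := by
      have e2 : 1 ≤ (j : ℝ) ^ (k + 1) := one_le_pow₀ (by linarith)
      have e3 : 8 * k * (j : ℝ) ^ (2 * (k + 1) + 10) * 2 ^ j * 2 ^ j / (2 ^ j) ^ 2 / 2 ^ j = 8 * k * (j : ℝ) ^ (2 * (k + 1) + 10) / 2 ^ j := by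
        field_simp
      rw [e3, mul_div_assoc']
      refine div_le_div_of_nonneg_right ?_ (by positivity)
      have e4 : (j : ℝ) ^ (3 * (k + 1) + 10) = (j : ℝ) ^ (k + 1) * (j : ℝ) ^ (2 * (k + 1) + 10) := by
        rw [← pow_add]
        congr 1
        ring
      rw [e4]
      have e5 : 0 ≤ 8 * k * (j : ℝ) ^ (2 * (k + 1) + 10) := by positivity
      nlinarith
    refine e1.trans ?_
    have e2 : 16 * k * (j : ℝ) ^ (3 * (k + 1) + 10) ≤ Real.exp (1 / 8 * j) := by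
      have e3 := mul_le_mul_of_nonneg_left g2 (show 0 ≤ 16 * (k : ℝ) by positivity)
      have e4 : 16 * (k : ℝ) * (1 / (16 * k) * Real.exp (1 / 8 * (j : ℝ))) = Real.exp (1 / 8 * j) := by field_simp
      linarith
    have e3 : (2 : ℝ) ^ j = Real.exp (j * Real.log 2) := by
      rw [mul_comm, Real.exp_mul, Real.exp_log (by norm_num), Real.rpow_natCast]
    rw [div_le_iff₀ (by positivity)]
    refine e2.trans ?_
    rw [e3, ← Real.exp_nat_mul, ← Real.exp_add, Real.exp_le_exp]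
    have := Real.log_two_gt_d9
    nlinarith
  have hsm : Summable (fun j : ℕ => (Real.exp (-(1 / 2))) ^ j) := by
    refine summable_geometric_of_lt_one (Real.exp_pos _).le ?_
    rw [Real.exp_lt_one_iff]
    norm_num
  filter_upwards [bc hsm hb] with ω hω
  filter_upwards [hω] with j hj a ha
  by_contra hcon
  push Not at hcon
  apply hj
  rw [hB]
  exact Set.mem_biUnion (mem_coe.2 (mem_range.2 (by omega))) hcon

theorem NC_add (S : Set ℕ) (k D : ℕ) {a b c : ℕ} (h1 : a ≤ b) (h2 : b ≤ c) : NC S k a c D = NC S k a b D + NC S k b c D := by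
  classical
  unfold NC
  rw [← card_union_of_disjoint, ← filter_union, Ico_union_Ico_eq_Ico h1 h2]
  exact disjoint_filter_filter (Ico_disjoint_Ico_consecutive a b c)

theorem NC_le (S : Set ℕ) (k D a b : ℕ) : NC S k a b D ≤ b - a := by
  classical
  unfold NC
  refine (card_filter_le _ _).trans ?_
  rw [Nat.card_Ico]

end Pool.Agent.H38.RC
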