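import Pool.Agent.H38.RC.D

/-!
# Counting runs in the sieved models: the number of runs up to `x`
-/

set_option autoImplicit false

namespace Pool.Agent.H38.RC

open Finset MeasureTheory Filter Pool.Agent.Q120.MG Pool.Agent.Q120.GM Pool.Agent.Q120.CL Pool.Agent.H38.LR
open scoped Topology

theorem contr {b q t : ℕ → ℝ} {c : ℝ} (hq : Tendsto q atTop (𝓝 (1 / 2))) (ht : Tendsto t atTop (𝓝 c))
    (h : ∀ᶠ j in atTop, b (j + 1) = q j * (b j + t j)) : Tendsto b atTop (𝓝 c) := by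
  have hδ : Tendsto (fun j => q j * (c + t j) - c) atTop (𝓝 0) := by
    have h1 := (hq.mul (ht.const_add c)).sub_const c
    have h2 : 1 / 2 * (c + c) - c = 0 := by ring
    rwa [h2] at h1
  rw [Metric.tendsto_nhds]
  intro ε hε
  have hδ' := (Metric.tendsto_nhds.1 hδ) (ε / 16) (by linarith)
  obtain ⟨J, hJ⟩ := eventually_atTop.1 ((hδ'.and h).and ((hq.eventually (ge_mem_nhds (show (1 / 2 : ℝ) < 3 / 4 by norm_num))).and
    (hq.eventually (le_mem_nhds (show (0 : ℝ) < 1 / 2 by norm_num)))))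
  have hstep : ∀ n, |b (J + n) - c| ≤ (3 / 4) ^ n * |b J - c| + ε / 4 := by
    intro n
    induction n with
    | zero =>
      simp
      linarith
    | succ n ih =>
      obtain ⟨⟨h1, h2⟩, h3, h4⟩ := hJ (J + n) (by omega)
      rw [Real.dist_eq, sub_zero] at h1
      have h5 : b (J + (n + 1)) - c = q (J + n) * (b (J + n) - c) + (q (J + n) * (c + t (J + n)) - c) := by
        rw [← add_assoc, h2]
        ring
      rw [h5]
      refine (abs_add_le _ _).trans ?_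
      rw [abs_mul, abs_of_nonneg h4]
      have h6 : q (J + n) * |b (J + n) - c| ≤ 3 / 4 * |b (J + n) - c| := mul_le_mul_of_nonneg_right h3 (abs_nonneg _)
      rw [pow_succ]
      nlinarith
  have hpow : Tendsto (fun n : ℕ => (3 / 4 : ℝ) ^ n * |b J - c|) atTop (𝓝 0) := by
    have := (tendsto_pow_atTop_nhds_zero_of_lt_one (show (0 : ℝ) ≤ 3 / 4 by norm_num) (by norm_num)).mul_const |b J - c|
    rwa [zero_mul] at this
  obtain ⟨N, hN⟩ := eventually_atTop.1 (hpow.eventually (ge_mem_nhds (show (0 : ℝ) < ε / 4 by linarith)))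
  filter_upwards [eventually_ge_atTop (J + N)] with j hj
  obtain ⟨n, rfl⟩ : ∃ n, j = J + n := ⟨j - J, by omega⟩
  rw [Real.dist_eq]
  have h1 := hstep n
  have h2 := hN n (by omega)
  linarith

open Classical in
/-- the number of the `n` in `[α, y)` with the property `f` -/
noncomputable def cntI (f : ℕ → Prop) (α y : ℕ) : ℕ := ((Ico α y).filter f).card

theorem cntI_add (f : ℕ → Prop) {a b c : ℕ} (h1 : a ≤ b) (h2 : b ≤ c) : cntI f a c = cntI f a b + cntI f b c := by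
  classical
  unfold cntI
  rw [← card_union_of_disjoint, ← filter_union, Ico_union_Ico_eq_Ico h1 h2]
  exact disjoint_filter_filter (Ico_disjoint_Ico_consecutive a b c)

theorem cntI_le (f : ℕ → Prop) (a b : ℕ) : cntI f a b ≤ b - a := by
  classical
  unfold cntI
  refine (card_filter_le _ _).trans ?_
  rw [Nat.card_Ico]

theorem cntI_mono {f g : ℕ → Prop} {a b : ℕ} (h : ∀ n, a ≤ n → n < b → f n → g n) : cntI f a b ≤ cntI g a b := by
  classical
  unfold cntI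
  refine card_le_card fun n hn => ?_
  rw [mem_filter, mem_Ico] at hn ⊢
  exact ⟨hn.1, h n hn.1.1 hn.1.2 hn.2⟩

/-- the law in the blocks -/
def BL (f : ℕ → Prop) (s : ℕ) (c : ℝ) : Prop := ∀ ε : ℝ, 0 < ε → ∀ᶠ j : ℕ in atTop, ∀ y : ℕ, 2 ^ j ≤ y → y ≤ 2 ^ (j + 1) →
  |((j : ℝ) * Real.log 2) ^ s * cntI f (2 ^ j) y - ((y : ℝ) - 2 ^ j) * c| ≤ ε * 2 ^ j

/-- From the blocks to the numbers up to `x`. -/
theorem cumul {f : ℕ → Prop} {s : ℕ} {c : ℝ} (h : BL f s c) :
    Tendsto (fun x : ℕ => (cntI f 0 x : ℝ) / (x / Real.log x ^ s)) atTop (𝓝 c) := by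
  have hl := hl2
  obtain ⟨b, hb⟩ : ∃ b : ℕ → ℝ, b = fun j : ℕ => ((j : ℝ) * Real.log 2) ^ s * cntI f 0 (2 ^ j) / 2 ^ j := ⟨_, rfl⟩
  obtain ⟨t, ht⟩ : ∃ t : ℕ → ℝ, t = fun j : ℕ => ((j : ℝ) * Real.log 2) ^ s * cntI f (2 ^ j) (2 ^ (j + 1)) / 2 ^ j := ⟨_, rfl⟩
  obtain ⟨q, hq⟩ : ∃ q : ℕ → ℝ, q = fun j : ℕ => (((((j : ℝ) + 1) * Real.log 2) / ((j : ℝ) * Real.log 2)) ^ s) / 2 := ⟨_, rfl⟩
  have hqlim : Tendsto q atTop (𝓝 (1 / 2)) := by
    have h1 : Tendsto (fun j : ℕ => (((j : ℝ) + 1) * Real.log 2) / ((j : ℝ) * Real.log 2)) atTop (𝓝 1) := by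
      have h2 := succ_ratio.inv₀ one_ne_zero
      rw [inv_one] at h2
      refine h2.congr fun j => ?_
      rw [inv_div]
    have h2 := (h1.pow s).div_const 2
    rw [one_pow] at h2
    rw [hq]
    exact h2
  have htlim : Tendsto t atTop (𝓝 c) := by
    rw [Metric.tendsto_nhds]
    intro ε hε
    filter_upwards [h (ε / 2) (by linarith)] with j hj
    have h1 := hj (2 ^ (j + 1)) (Nat.pow_le_pow_right (by norm_num) (by omega)) le_rfl
    have h2p : (0 : ℝ) < 2 ^ j := by positivity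
    rw [Real.dist_eq, ht]
    simp only
    have h2 : ((j : ℝ) * Real.log 2) ^ s * cntI f (2 ^ j) (2 ^ (j + 1)) / 2 ^ j - c =
        (((j : ℝ) * Real.log 2) ^ s * cntI f (2 ^ j) (2 ^ (j + 1)) - (((2 ^ (j + 1) : ℕ) : ℝ) - 2 ^ j) * c) / 2 ^ j := by
      push_cast
      rw [pow_succ]
      field_simp
      ring
    rw [h2, abs_div, abs_of_pos h2p, div_lt_iff₀ h2p]
    nlinarith
  have hblim : Tendsto b atTop (𝓝 c) := by
    refine contr hqlim htlim ?_
    filter_upwards [eventually_ge_atTop 1] with j hj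
    have hj0 : (0 : ℝ) < j := by exact_mod_cast hj
    rw [hb, hq, ht]
    simp only
    have h1 := cntI_add f (a := 0) (b := 2 ^ j) (c := 2 ^ (j + 1)) (Nat.zero_le _) (Nat.pow_le_pow_right (by norm_num) (by omega))
    rw [h1]
    push_cast
    rw [div_pow, pow_succ (2 : ℝ) j]
    have h2 : ((j : ℝ) * Real.log 2) ^ s ≠ 0 := by positivity
    field_simp
  -- the ratio of the logarithms
  have hlogr : Tendsto (fun x : ℕ => (Real.log x / ((Nat.log 2 x : ℝ) * Real.log 2)) ^ s) atTop (𝓝 1) := by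
    have h1 : Tendsto (fun x : ℕ => Real.log x / ((Nat.log 2 x : ℝ) * Real.log 2)) atTop (𝓝 1) := by
      have h2 : Tendsto (fun x : ℕ => (((Nat.log 2 x : ℝ) + 1) * Real.log 2) / ((Nat.log 2 x : ℝ) * Real.log 2)) atTop (𝓝 1) := by
        have h3 := succ_ratio.inv₀ one_ne_zero
        rw [inv_one] at h3
        refine (h3.comp log2_top).congr fun x => ?_
        simp only [Function.comp]
        rw [inv_div]
      refine tendsto_of_tendsto_of_tendsto_of_le_of_le' tendsto_const_nhds h2 ?_ ?_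
      · filter_upwards [log2_top.eventually (eventually_ge_atTop 1), eventually_ge_atTop 1] with x g1 g2
        have g1' : (0 : ℝ) < Nat.log 2 x := by exact_mod_cast g1
        rw [le_div_iff₀ (by positivity), one_mul]
        exact (log_cmp g2).1
      · filter_upwards [log2_top.eventually (eventually_ge_atTop 1), eventually_ge_atTop 1] with x g1 g2
        have g1' : (0 : ℝ) < Nat.log 2 x := by exact_mod_cast g1
        exact div_le_div_of_nonneg_right (log_cmp g2).2 (by positivity)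
    have h2 := h1.pow s
    rwa [one_pow] at h2
  have hmain : Tendsto (fun x : ℕ => ((Nat.log 2 x : ℝ) * Real.log 2) ^ s * cntI f 0 x / x) atTop (𝓝 c) := by
    rw [Metric.tendsto_nhds]
    intro ε hε
    filter_upwards [log2_top.eventually (h (ε / 4) (by linarith)), log2_top.eventually ((Metric.tendsto_nhds.1 hblim) (ε / 4) (by linarith)),
      eventually_ge_atTop 1] with x g1 g2 hx
    have e1 : 2 ^ Nat.log 2 x ≤ x := Nat.pow_log_le_self 2 (by omega)
    have e2 : x < 2 ^ (Nat.log 2 x + 1) := Nat.lt_pow_succ_log_self (by norm_num) x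
    have g3 := g1 x e1 e2.le
    have hx0 : (0 : ℝ) < x := by exact_mod_cast hx
    obtain ⟨j, hj⟩ : ∃ j, j = Nat.log 2 x := ⟨_, rfl⟩
    rw [← hj] at e1 g2 g3 ⊢
    have h2p : (0 : ℝ) < 2 ^ j := by positivity
    have e1' : (2 : ℝ) ^ j ≤ x := by exact_mod_cast e1
    obtain ⟨Xs, hXs⟩ : ∃ Xs, Xs = ((j : ℝ) * Real.log 2) ^ s := ⟨_, rfl⟩
    rw [hb, Real.dist_eq] at g2
    simp only at g2
    rw [← hXs] at g2 g3 ⊢
    have h1 := cntI_add f (a := 0) (b := 2 ^ j) (c := x) (Nat.zero_le _) e1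
    rw [h1, Real.dist_eq]
    push_cast
    have h3 : |Xs * cntI f 0 (2 ^ j) - c * 2 ^ j| ≤ ε / 4 * 2 ^ j := by
      have h4 : Xs * cntI f 0 (2 ^ j) - c * 2 ^ j = (Xs * cntI f 0 (2 ^ j) / 2 ^ j - c) * 2 ^ j := by field_simp
      rw [h4, abs_mul, abs_of_pos h2p]
      exact mul_le_mul_of_nonneg_right g2.le h2p.le
    have h4 : Xs * ((cntI f 0 (2 ^ j) : ℝ) + cntI f (2 ^ j) x) / x - c =
        ((Xs * cntI f 0 (2 ^ j) - c * 2 ^ j) + (Xs * cntI f (2 ^ j) x - ((x : ℝ) - 2 ^ j) * c)) / x := by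
      field_simp
      ring
    rw [h4, abs_div, abs_of_pos hx0, div_lt_iff₀ hx0]
    refine lt_of_le_of_lt (abs_add_le _ _) ?_
    nlinarith
  have h5 := hmain.mul hlogr
  rw [mul_one] at h5
  refine h5.congr' ?_
  filter_upwards [log2_top.eventually (eventually_ge_atTop 1), eventually_ge_atTop 2] with x g1 g2
  have g1' : (0 : ℝ) < Nat.log 2 x := by exact_mod_cast g1
  have hx0 : (0 : ℝ) < x := by exact_mod_cast (by omega : 0 < x)
  have hlx : 0 < Real.log (x : ℝ) := Real.log_pos (by exact_mod_cast (by omega : 1 < x))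
  rw [div_pow]
  have h6 : ((Nat.log 2 x : ℝ) * Real.log 2) ^ s ≠ 0 := by positivity
  field_simp

theorem BL_of_close {f g : ℕ → Prop} {s : ℕ} {c : ℝ} (hg : BL g s c) {B : ℕ → ℝ}
    (hB : Tendsto (fun j : ℕ => ((j : ℝ) * Real.log 2) ^ s * B j / 2 ^ j) atTop (𝓝 0))
    (h : ∀ᶠ j : ℕ in atTop, ∀ y : ℕ, 2 ^ j ≤ y → y ≤ 2 ^ (j + 1) → |(cntI f (2 ^ j) y : ℝ) - cntI g (2 ^ j) y| ≤ B j) : BL f s c := by
  intro ε hε
  filter_upwards [hg (ε / 2) (by linarith), h, hB.eventually (ge_mem_nhds (show (0 : ℝ) < ε / 2 by linarith))] with j g1 g2 g3 y hy1 hy2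
  have h1 := g1 y hy1 hy2
  have h2 := g2 y hy1 hy2
  have h2p : (0 : ℝ) < 2 ^ j := by positivity
  have hl := hl2
  obtain ⟨Xs, hXs⟩ : ∃ Xs, Xs = ((j : ℝ) * Real.log 2) ^ s := ⟨_, rfl⟩
  have hXs0 : 0 ≤ Xs := by rw [hXs]; positivity
  rw [← hXs] at h1 g3 ⊢
  rw [div_le_iff₀ h2p] at g3
  have h3 : Xs * cntI f (2 ^ j) y - ((y : ℝ) - 2 ^ j) * c =
      Xs * ((cntI f (2 ^ j) y : ℝ) - cntI g (2 ^ j) y) + (Xs * cntI g (2 ^ j) y - ((y : ℝ) - 2 ^ j) * c) := by ring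
  rw [h3]
  refine (abs_add_le _ _).trans ?_
  rw [abs_mul, abs_of_nonneg hXs0]
  have h4 := mul_le_mul_of_nonneg_left h2 hXs0
  linarith

theorem BL_sandwich {f g g' : ℕ → Prop} {s : ℕ} {c : ℝ} (hg : BL g s c) (hg' : BL g' s c)
    (h : ∀ᶠ j : ℕ in atTop, ∀ y : ℕ, 2 ^ j ≤ y → y ≤ 2 ^ (j + 1) → cntI g (2 ^ j) y ≤ cntI f (2 ^ j) y ∧
      cntI f (2 ^ j) y ≤ cntI g' (2 ^ j) y) : BL f s c := by
  intro ε hε
  filter_upwards [hg ε hε, hg' ε hε, h] with j g1 g2 g3 y hy1 hy2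
  have h1 := g1 y hy1 hy2
  have h2 := g2 y hy1 hy2
  obtain ⟨h3, h4⟩ := g3 y hy1 hy2
  have h3' : (cntI g (2 ^ j) y : ℝ) ≤ cntI f (2 ^ j) y := by exact_mod_cast h3
  have h4' : (cntI f (2 ^ j) y : ℝ) ≤ cntI g' (2 ^ j) y := by exact_mod_cast h4
  have hl := hl2
  have hXs0 : 0 ≤ ((j : ℝ) * Real.log 2) ^ s := by positivity
  have h5 := mul_le_mul_of_nonneg_left h3' hXs0
  have h6 := mul_le_mul_of_nonneg_left h4' hXs0
  rw [abs_le] at h1 h2 ⊢
  constructor <;> linarith [h1.1, h2.2]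

/-- Monotone families with a continuous limit. -/
theorem all_u {Φ : ℝ → ℝ} (hΦ : Continuous Φ) {F : ℝ → ℕ → ℝ} (hmono : ∀ u v, u ≤ v → ∀ᶠ x in atTop, F u x ≤ F v x)
    (h : ∀ q : ℚ, Tendsto (F q) atTop (𝓝 (Φ q))) (u : ℝ) : Tendsto (F u) atTop (𝓝 (Φ u)) := by
  rw [tendsto_order]
  constructor
  · intro a ha
    obtain ⟨δ, hδ, hδ'⟩ := Metric.eventually_nhds_iff.1 ((hΦ.tendsto u).eventually (lt_mem_nhds ha))
    obtain ⟨q, hq1, hq2⟩ := exists_rat_btwn (show u - δ < u by linarith)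
    have h1 : a < Φ q := hδ' (by rw [Real.dist_eq, abs_lt]; constructor <;> linarith)
    filter_upwards [(h q).eventually (lt_mem_nhds h1), hmono q u hq2.le] with x h2 h3
    linarith
  · intro a ha
    obtain ⟨δ, hδ, hδ'⟩ := Metric.eventually_nhds_iff.1 ((hΦ.tendsto u).eventually (gt_mem_nhds ha))
    obtain ⟨q, hq1, hq2⟩ := exists_rat_btwn (show u < u + δ by linarith)
    have h1 : Φ q < a := hδ' (by rw [Real.dist_eq, abs_lt]; constructor <;> linarith)
    filter_upwards [(h q).eventually (gt_mem_nhds h1), hmono u q hq1.le] with x h2 h3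
    linarith

end Pool.Agent.H38.RC
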