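import Pool.Agent.H38.RC.I
import Pool.Agent.H38.RC.D

/-!
# Counting runs in the sieved models: the expected number at every level
-/

set_option autoImplicit false

namespace Pool.Agent.H38.RC

open Finset MeasureTheory Filter Pool.Agent.Q120.MG Pool.Agent.Q120.GM Pool.Agent.Q120.CL Pool.Agent.H38.LR
open scoped Topology

variable {Ω : Type*} [MeasurableSpace Ω] {μ : Measure Ω} [IsProbabilityMeasure μ] {A : Ω → Set ℕ} {z : ℕ → ℕ}

theorem run_up' (hA : IsModel μ (pr z) A) {j n k d : ℕ} (hj : 1 ≤ j) (hq : 1 ≤ Vf (z j) * (j * Real.log 2))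
    (hd : 1 ≤ d) (h1 : 2 ^ j ≤ n) (h2 : n + (k - 1) * d < 2 ^ (j + 1)) :
    μ.real {ω | Run (A ω) n k d} ≤ (1 / (Vf (z j) * (j * Real.log 2))) ^ k *
      (Real.exp (k / (Vf (z j) * (((j : ℝ) + 1) * Real.log 2))) * gw (z j) k d (1 / (Vf (z j) * (((j : ℝ) + 1) * Real.log 2))) n) := by
  classical
  have hV := Vf_pos (z j)
  have hl := hl2
  have hj0 : (0 : ℝ) < j := by exact_mod_cast hj
  unfold gw
  by_cases hR : RP (z j) k d n
  · rw [if_pos hR]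
    refine (run_le hA hj hq hd h1 h2).trans ?_
    refine mul_le_mul_of_nonneg_left ?_ (by positivity)
    rw [← Real.exp_add, Real.exp_le_exp, Wn_eq (le_trans Nat.one_le_two_pow h1)]
    refine le_of_eq ?_
    ring
  · rw [if_neg hR, mul_zero, mul_zero, real_run hA]
    unfold RP at hR
    push Not at hR
    obtain ⟨i, hi, hr⟩ := hR
    have h3 : n + i * d ∈ pat n k d := mem_pat.2 ⟨i, hi, rfl⟩
    have h4 := mem_Icc.1 (pat_subset n k d h3)
    have h5 : pr z (n + i * d) = 0 := pr_zero (k := j) (by omega) (by omega) hr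
    rw [prod_eq_zero h3 h5, zero_mul]

theorem run_lo' (hA : IsModel μ (pr z) A) {j n k d : ℕ} (hj : 1 ≤ j) (hq0 : 1 ≤ Vf (z j) * (j * Real.log 2)) {q : ℝ}
    (hq : 1 / (Vf (z j) * (j * Real.log 2)) ≤ q) (hq2 : q ≤ 1 / 2)
    (hd : 1 ≤ d) (h1 : 2 ^ j ≤ n) (h2 : n + (k - 1) * d < 2 ^ (j + 1)) :
    (1 / (Vf (z j) * (((j : ℝ) + 1) * Real.log 2))) ^ k * gw (z j) k d (1 / (Vf (z j) * (j * Real.log 2 / (1 + 2 * q)))) n ≤
      μ.real {ω | Run (A ω) n k d} := by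
  classical
  have hV := Vf_pos (z j)
  have hl := hl2
  have hj0 : (0 : ℝ) < j := by exact_mod_cast hj
  have hq00 : 0 ≤ q := le_trans (by positivity) hq
  unfold gw
  by_cases hR : RP (z j) k d n
  · rw [if_pos hR]
    refine le_trans ?_ (le_run hA hj hq0 hq hq2 hd h1 h2 hR)
    refine mul_le_mul_of_nonneg_left ?_ (by positivity)
    rw [Real.exp_le_exp, Wn_eq (le_trans Nat.one_le_two_pow h1)]
    refine le_of_eq ?_
    field_simp
  · rw [if_neg hR, mul_zero]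
    exact measureReal_nonneg

theorem EE_up' (hA : IsModel μ (pr z) A) {j k α y D : ℕ} (hj : 1 ≤ j) (hq : 1 ≤ Vf (z j) * (j * Real.log 2))
    (h1 : 2 ^ j ≤ α) (hαy : α ≤ y) (h2 : y + (k - 1) * D ≤ 2 ^ (j + 1)) :
    EE μ A k α y D ≤ (1 / (Vf (z j) * (j * Real.log 2))) ^ k * (Real.exp (k / (Vf (z j) * (((j : ℝ) + 1) * Real.log 2))) *
        (((y : ℝ) - α) * (∑ d ∈ Icc 1 D, Fw (z j) k d (1 / (Vf (z j) * (((j : ℝ) + 1) * Real.log 2)))) + PQ (z j) * D)) := by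
  have hV := Vf_pos (z j)
  have hl := hl2
  have hj0 : (0 : ℝ) < j := by exact_mod_cast hj
  unfold EE
  rw [sum_comm]
  obtain ⟨C1, hC1⟩ : ∃ C1, C1 = (1 / (Vf (z j) * (j * Real.log 2))) ^ k := ⟨_, rfl⟩
  obtain ⟨C2, hC2⟩ : ∃ C2, C2 = Real.exp (k / (Vf (z j) * (((j : ℝ) + 1) * Real.log 2))) := ⟨_, rfl⟩
  obtain ⟨b, hb⟩ : ∃ b, b = 1 / (Vf (z j) * (((j : ℝ) + 1) * Real.log 2)) := ⟨_, rfl⟩
  have hC10 : 0 ≤ C1 := by rw [hC1]; positivity
  have hC20 : 0 ≤ C2 := by rw [hC2]; positivity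
  have hb0 : 0 ≤ b := by rw [hb]; positivity
  rw [← hC1, ← hC2, ← hb]
  have h3 : ∀ d ∈ Icc 1 D, ∑ n ∈ Ico α y, μ.real {ω | Run (A ω) n k d} ≤ C1 * (C2 * (((y : ℝ) - α) * Fw (z j) k d b + PQ (z j))) := by
    intro d hd
    rw [mem_Icc] at hd
    have h4 : ∀ n ∈ Ico α y, μ.real {ω | Run (A ω) n k d} ≤ C1 * (C2 * gw (z j) k d b n) := by
      intro n hn
      rw [mem_Ico] at hn
      have h5 : (k - 1) * d ≤ (k - 1) * D := Nat.mul_le_mul_left _ hd.2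
      rw [hC1, hC2, hb]
      exact run_up' hA hj hq hd.1 (by omega) (by omega)
    refine (sum_le_sum h4).trans ?_
    rw [← mul_sum, ← mul_sum]
    refine mul_le_mul_of_nonneg_left (mul_le_mul_of_nonneg_left ?_ hC20) hC10
    exact (per_sum (PQ_pos _) (gw_period (z j) k d b) (gw_nonneg (z j) k d b) (gw_le_one (z j) k d hb0) hαy).2
  refine (sum_le_sum h3).trans ?_
  rw [← mul_sum, ← mul_sum, sum_add_distrib, ← mul_sum, sum_const, Nat.card_Icc, Nat.add_sub_cancel, nsmul_eq_mul,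
    mul_comm (D : ℝ)]

theorem EE_lo' (hA : IsModel μ (pr z) A) {j k α y D : ℕ} (hj : 1 ≤ j) (hq0 : 1 ≤ Vf (z j) * (j * Real.log 2)) {q : ℝ}
    (hq : 1 / (Vf (z j) * (j * Real.log 2)) ≤ q) (hq2 : q ≤ 1 / 2)
    (h1 : 2 ^ j ≤ α) (hαy : α ≤ y) (h2 : y + (k - 1) * D ≤ 2 ^ (j + 1)) :
    (1 / (Vf (z j) * (((j : ℝ) + 1) * Real.log 2))) ^ k *
        (((y : ℝ) - α) * (∑ d ∈ Icc 1 D, Fw (z j) k d (1 / (Vf (z j) * (j * Real.log 2 / (1 + 2 * q))))) - PQ (z j) * D) ≤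
      EE μ A k α y D := by
  have hV := Vf_pos (z j)
  have hl := hl2
  have hj0 : (0 : ℝ) < j := by exact_mod_cast hj
  have hq00 : 0 ≤ q := le_trans (by positivity) hq
  unfold EE
  rw [sum_comm]
  obtain ⟨C1, hC1⟩ : ∃ C1, C1 = (1 / (Vf (z j) * (((j : ℝ) + 1) * Real.log 2))) ^ k := ⟨_, rfl⟩
  obtain ⟨b, hb⟩ : ∃ b, b = 1 / (Vf (z j) * (j * Real.log 2 / (1 + 2 * q))) := ⟨_, rfl⟩
  have hC10 : 0 ≤ C1 := by rw [hC1]; positivity
  have hb0 : 0 ≤ b := by rw [hb]; positivity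
  rw [← hC1, ← hb]
  have h3 : ∀ d ∈ Icc 1 D, C1 * (((y : ℝ) - α) * Fw (z j) k d b - PQ (z j)) ≤ ∑ n ∈ Ico α y, μ.real {ω | Run (A ω) n k d} := by
    intro d hd
    rw [mem_Icc] at hd
    have h4 : ∀ n ∈ Ico α y, C1 * gw (z j) k d b n ≤ μ.real {ω | Run (A ω) n k d} := by
      intro n hn
      rw [mem_Ico] at hn
      have h5 : (k - 1) * d ≤ (k - 1) * D := Nat.mul_le_mul_left _ hd.2
      rw [hC1, hb]
      exact run_lo' hA hj hq0 hq hq2 hd.1 (by omega) (by omega)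
    refine le_trans ?_ (sum_le_sum h4)
    rw [← mul_sum]
    refine mul_le_mul_of_nonneg_left ?_ hC10
    exact (per_sum (PQ_pos _) (gw_period (z j) k d b) (gw_nonneg (z j) k d b) (gw_le_one (z j) k d hb0) hαy).1
  refine le_trans ?_ (sum_le_sum h3)
  rw [← mul_sum, sum_sub_distrib, ← mul_sum, sum_const, Nat.card_Icc, Nat.add_sub_cancel, nsmul_eq_mul,
    mul_comm (D : ℝ)]

theorem beta_lim' {z : ℕ → ℕ} (hz : ∀ᶠ j : ℕ in atTop, z j ≤ j) : Tendsto (fun j : ℕ => 1 / (Vf (z j) * (j * Real.log 2))) atTop (𝓝 0) := by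
  have hl := hl2
  rw [Metric.tendsto_nhds]
  intro ε hε
  filter_upwards [beta_small hz (show 0 < ε / 2 by linarith)] with j hj
  have hV := Vf_pos (z j)
  have h0 : 0 ≤ 1 / (Vf (z j) * (j * Real.log 2)) := by positivity
  rw [Real.dist_eq, sub_zero, abs_of_nonneg h0]
  linarith

/-- **The expected number of runs**, at every level. -/
theorem EE_lim' (hA : IsModel μ (pr z) A) (hz : ∀ᶠ j : ℕ in atTop, 8 * z j ≤ j) {k : ℕ} (hk : 2 ≤ k) {D : ℕ → ℕ} (hD : ∀ᶠ j : ℕ in atTop, D j ≤ j ^ 3)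
    {w γ : ℝ} (hw : Tendsto (fun j : ℕ => Real.exp (-(((k : ℝ) - 1) * D j / (j * Real.log 2)))) atTop (𝓝 w))
    (hγ : Tendsto (fun j => gam (z j) k) atTop (𝓝 γ)) {ε : ℝ} (hε : 0 < ε) :
    ∀ᶠ j : ℕ in atTop, ∀ y : ℕ, 2 ^ j ≤ y → y + (k - 1) * D j ≤ 2 ^ (j + 1) →
      |((j : ℝ) * Real.log 2) ^ (k - 1) * EE μ A k (2 ^ j) y (D j) - ((y : ℝ) - 2 ^ j) * (γ * ((1 - w) / ((k : ℝ) - 1)))| ≤ ε * 2 ^ j := by
  have hl := hl2
  have hl1 : Real.log 2 < 0.7 := by linarith [Real.log_two_lt_d9]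
  have hk' : (2 : ℝ) ≤ k := by exact_mod_cast hk
  have hz1 : ∀ᶠ j : ℕ in atTop, z j ≤ j := by
    filter_upwards [hz] with j hj
    omega
  obtain ⟨c, hc⟩ : ∃ c, c = γ * ((1 - w) / ((k : ℝ) - 1)) := ⟨_, rfl⟩
  obtain ⟨q, hq⟩ : ∃ q : ℕ → ℝ, q = fun j : ℕ => 1 / (Vf (z j) * (j * Real.log 2)) := ⟨_, rfl⟩
  have hqlim : Tendsto q atTop (𝓝 0) := by rw [hq]; exact beta_lim' hz1
  have hj0' : ∀ᶠ j : ℕ in atTop, (0 : ℝ) < j := by
    filter_upwards [eventually_ge_atTop 1] with j hj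
    exact_mod_cast hj
  -- the upper coefficient
  have hU : Tendsto (fun j : ℕ => Real.exp (k / (Vf (z j) * (((j : ℝ) + 1) * Real.log 2))) * (((j : ℝ) * Real.log 2) ^ (k - 1) *
      ((1 / (Vf (z j) * (j * Real.log 2))) ^ k * ∑ d ∈ Icc 1 (D j), Fw (z j) k d (1 / (Vf (z j) * (((j : ℝ) + 1) * Real.log 2)))))) atTop (𝓝 c) := by
    have h1 := cen_lim (z := z) (D := D) hz1 hk (Y := fun j : ℕ => ((j : ℝ) + 1) * Real.log 2) (by
      have h2 := succ_ratio.inv₀ one_ne_zero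
      rw [inv_one] at h2
      refine h2.congr fun j => ?_
      rw [inv_div]) hD hw hγ
    have h2 : Tendsto (fun j : ℕ => Real.exp (k / (Vf (z j) * (((j : ℝ) + 1) * Real.log 2)))) atTop (𝓝 1) := by
      have h3 : Tendsto (fun j : ℕ => (k : ℝ) / (Vf (z j) * (((j : ℝ) + 1) * Real.log 2))) atTop (𝓝 0) := by
        have h4 := ((beta_lim' hz1).mul succ_ratio).const_mul (k : ℝ)
        simp only [zero_mul, mul_zero] at h4
        refine h4.congr' ?_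
        filter_upwards [hj0'] with j hj
        have hV := Vf_pos (z j)
        field_simp
      have h4 := (Real.continuous_exp.tendsto 0).comp h3
      rw [Real.exp_zero] at h4
      exact h4
    have h3 := h2.mul h1
    rw [one_mul, ← hc] at h3
    exact h3
  -- the lower coefficient
  have hL : Tendsto (fun j : ℕ => (((j : ℝ) * Real.log 2) / (((j : ℝ) + 1) * Real.log 2)) ^ k * (((j : ℝ) * Real.log 2) ^ (k - 1) *
      ((1 / (Vf (z j) * (j * Real.log 2))) ^ k * ∑ d ∈ Icc 1 (D j), Fw (z j) k d (1 / (Vf (z j) * ((j : ℝ) * Real.log 2 / (1 + 2 * q j))))))) atTop (𝓝 c) := by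
    have h1 := cen_lim (z := z) (D := D) hz1 hk (Y := fun j : ℕ => (j : ℝ) * Real.log 2 / (1 + 2 * q j)) (by
      have h2 : Tendsto (fun j => 1 + 2 * q j) atTop (𝓝 1) := by
        have := (hqlim.const_mul 2).const_add 1
        simpa using this
      have h3 := h2.inv₀ one_ne_zero
      rw [inv_one] at h3
      refine h3.congr' ?_
      filter_upwards [hj0'] with j hj
      have hq0 : 0 ≤ q j := by
        rw [hq]
        have hV := Vf_pos (z j)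
        positivity
      field_simp) hD hw hγ
    have h2 := succ_ratio.pow k
    rw [one_pow] at h2
    have h3 := h2.mul h1
    rw [one_mul, ← hc] at h3
    exact h3
  have herr : ∀ᶠ j : ℕ in atTop, 3 * (j : ℝ) ^ (k + 3) * Real.exp (2 / 5 * j) ≤ ε / 2 * 2 ^ j := by
    have h1 := (isLittleO_pow_exp_pos_mul_atTop (k + 3) (show (0 : ℝ) < 1 / 5 by norm_num)).bound (show (0 : ℝ) < ε / 6 by positivity)
    filter_upwards [tendsto_natCast_atTop_atTop.eventually h1, eventually_ge_atTop 1] with j h2 hj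
    rw [Real.norm_of_nonneg (by positivity), Real.norm_of_nonneg (Real.exp_pos _).le] at h2
    have e2 : (2 : ℝ) ^ j = Real.exp (j * Real.log 2) := by
      rw [mul_comm, Real.exp_mul, Real.exp_log (by norm_num), Real.rpow_natCast]
    have e3 : Real.exp (1 / 5 * (j : ℝ)) * Real.exp (2 / 5 * j) ≤ 2 ^ j := by
      rw [e2, ← Real.exp_add, Real.exp_le_exp]
      have := Real.log_two_gt_d9
      have hj0 : (0 : ℝ) ≤ j := Nat.cast_nonneg _
      nlinarith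
    have e4 := mul_le_mul_of_nonneg_right h2 (Real.exp_pos (2 / 5 * (j : ℝ))).le
    have e5 := mul_le_mul_of_nonneg_left e3 (show 0 ≤ ε / 6 by positivity)
    calc 3 * (j : ℝ) ^ (k + 3) * Real.exp (2 / 5 * j) = 3 * ((j : ℝ) ^ (k + 3) * Real.exp (2 / 5 * j)) := by ring
      _ ≤ 3 * (ε / 6 * Real.exp (1 / 5 * j) * Real.exp (2 / 5 * j)) := mul_le_mul_of_nonneg_left e4 (by norm_num)
      _ = 3 * (ε / 6 * (Real.exp (1 / 5 * j) * Real.exp (2 / 5 * j))) := by ring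
      _ ≤ 3 * (ε / 6 * 2 ^ j) := mul_le_mul_of_nonneg_left e5 (by norm_num)
      _ = ε / 2 * 2 ^ j := by ring
  filter_upwards [hU.eventually (ge_mem_nhds (show c < c + ε / 2 by linarith)), hL.eventually (le_mem_nhds (show c - ε / 2 < c by linarith)),
    herr, hD, beta_small hz1 (show (0 : ℝ) < 1 / 2 by norm_num), hz,
    (beta_lim' hz1).eventually (ge_mem_nhds (show (0 : ℝ) < 1 / (2 * k) by positivity)), eventually_ge_atTop 1] with
    j g1 g2 g3 g4 g5 g6 g7 hj y hy1 hy2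
  have hj0 : (0 : ℝ) < j := by exact_mod_cast hj
  have hj1 : (1 : ℝ) ≤ j := by exact_mod_cast hj
  have hV := Vf_pos (z j)
  have hP : (0 : ℝ) < PQ (z j) := by exact_mod_cast PQ_pos _
  have hq0 := one_le_of hj (g5.trans (by norm_num))
  have hqj : q j = 1 / (Vf (z j) * (j * Real.log 2)) := by rw [hq]
  have hup := EE_up' hA (j := j) (k := k) (α := 2 ^ j) (y := y) (D := D j) hj hq0 le_rfl hy1 hy2
  have hlo := EE_lo' hA (j := j) (k := k) (α := 2 ^ j) (y := y) (D := D j) hj hq0 (q := q j) (by rw [hqj]) (by rw [hqj]; exact g5) le_rfl hy1 hy2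
  push_cast at hup hlo
  obtain ⟨E, hE⟩ : ∃ E, E = EE μ A k (2 ^ j) y (D j) := ⟨_, rfl⟩
  rw [← hE] at hup hlo ⊢
  have hy0 : (0 : ℝ) ≤ (y : ℝ) - 2 ^ j := by
    have : ((2 ^ j : ℕ) : ℝ) ≤ y := by exact_mod_cast hy1
    push_cast at this
    linarith
  have hy3 : (y : ℝ) - 2 ^ j ≤ 2 ^ j := by
    have h1 : y ≤ 2 ^ (j + 1) := by omega
    have : (y : ℝ) ≤ ((2 ^ (j + 1) : ℕ) : ℝ) := by exact_mod_cast h1
    push_cast at this
    rw [pow_succ] at this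
    linarith
  obtain ⟨X, hX⟩ : ∃ X, X = (j : ℝ) * Real.log 2 := ⟨_, rfl⟩
  obtain ⟨X', hX'⟩ : ∃ X', X' = ((j : ℝ) + 1) * Real.log 2 := ⟨_, rfl⟩
  have hX0 : 0 < X := by rw [hX]; positivity
  have hXX' : X ≤ X' := by rw [hX, hX']; nlinarith
  have hX0' : 0 < X' := by linarith
  have hXj : X ≤ j := by rw [hX]; nlinarith
  rw [← hX, ← hX'] at hup g1
  rw [← hX, ← hX'] at hlo g2
  rw [← hX] at g5 g7 hq0 hqj ⊢
  have hb1 : 1 / (Vf (z j) * X) ≤ 1 := g5.trans (by norm_num)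
  have hb0 : 0 ≤ 1 / (Vf (z j) * X) := by positivity
  have hb1' : 1 / (Vf (z j) * X') ≤ 1 := by
    refine le_trans ?_ hb1
    exact one_div_le_one_div_of_le (by positivity) (mul_le_mul_of_nonneg_left hXX' hV.le)
  have hb0' : 0 ≤ 1 / (Vf (z j) * X') := by positivity
  have hPj : (PQ (z j) : ℝ) ≤ Real.exp (2 / 5 * j) := by
    have e6 : (PQ (z j) : ℝ) ≤ 4 ^ (z j) := by exact_mod_cast PQ_le (z j)
    have e7 : (4 : ℝ) ^ (z j) = Real.exp (2 * Real.log 2 * z j) := by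
      have : (4 : ℝ) = 2 ^ 2 := by norm_num
      rw [this, ← pow_mul, ← Real.exp_log (show (0 : ℝ) < 2 ^ (2 * z j) by positivity), Real.log_pow]
      congr 1
      push_cast
      ring
    rw [e7] at e6
    refine e6.trans ?_
    rw [Real.exp_le_exp]
    have e8 : (8 : ℝ) * z j ≤ j := by exact_mod_cast g6
    have e9 : (0 : ℝ) ≤ z j := Nat.cast_nonneg _
    nlinarith
  have hDj : (D j : ℝ) ≤ (j : ℝ) ^ 3 := by exact_mod_cast g4
  have hXs : X ^ (k - 1) ≤ (j : ℝ) ^ (k - 1) := pow_le_pow_left₀ hX0.le hXj _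
  have hXs0 : 0 ≤ X ^ (k - 1) := by positivity
  have hprod : X ^ (k - 1) * (PQ (z j) * D j) ≤ (j : ℝ) ^ (k + 3) * Real.exp (2 / 5 * j) := by
    calc X ^ (k - 1) * (PQ (z j) * D j) ≤ (j : ℝ) ^ (k - 1) * (Real.exp (2 / 5 * j) * (j : ℝ) ^ 3) :=
          mul_le_mul hXs (mul_le_mul hPj hDj (Nat.cast_nonneg _) (Real.exp_pos _).le) (by positivity) (by positivity)
      _ = (j : ℝ) ^ (k - 1 + 3) * Real.exp (2 / 5 * j) := by rw [pow_add]; ring
      _ ≤ (j : ℝ) ^ (k + 3) * Real.exp (2 / 5 * j) := mul_le_mul_of_nonneg_right (pow_le_pow_right₀ hj1 (by omega)) (Real.exp_pos _).le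
  have hexp3 : Real.exp (k / (Vf (z j) * X')) ≤ 3 := by
    have e2 : (k : ℝ) / (Vf (z j) * X') ≤ 1 / 2 := by
      have e3 : (k : ℝ) / (Vf (z j) * X') ≤ k * (1 / (Vf (z j) * X)) := by
        rw [mul_one_div]
        exact div_le_div_of_nonneg_left (by linarith) (by positivity) (mul_le_mul_of_nonneg_left hXX' hV.le)
      refine e3.trans ?_
      have e4 : (k : ℝ) * (1 / (Vf (z j) * X)) ≤ k * (1 / (2 * k)) := mul_le_mul_of_nonneg_left g7 (by linarith)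
      refine e4.trans (le_of_eq ?_)
      field_simp
    have e3 : Real.exp (k / (Vf (z j) * X')) ≤ Real.exp 1 := by
      rw [Real.exp_le_exp]
      linarith
    linarith [Real.exp_one_lt_d9]
  have hPD : 0 ≤ X ^ (k - 1) * (PQ (z j) * D j) := by positivity
  rw [← hc, abs_le]
  constructor
  · -- lower bound
    obtain ⟨C1, hC1⟩ : ∃ C1, C1 = (1 / (Vf (z j) * X')) ^ k := ⟨_, rfl⟩
    obtain ⟨F, hF⟩ : ∃ F, F = ∑ d ∈ Icc 1 (D j), Fw (z j) k d (1 / (Vf (z j) * (X / (1 + 2 * q j)))) := ⟨_, rfl⟩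
    have hC10 : 0 ≤ C1 := by rw [hC1]; positivity
    have hC11 : C1 ≤ 1 := by rw [hC1]; exact pow_le_one₀ hb0' hb1'
    rw [← hF] at g2 hlo
    rw [← hC1] at hlo
    have e1 : (X / X') ^ k * (X ^ (k - 1) * ((1 / (Vf (z j) * X)) ^ k * F)) = X ^ (k - 1) * (C1 * F) := by
      have e2 : (X / X') ^ k * (1 / (Vf (z j) * X)) ^ k = C1 := by
        rw [← mul_pow, hC1]
        congr 1
        field_simp
      calc (X / X') ^ k * (X ^ (k - 1) * ((1 / (Vf (z j) * X)) ^ k * F)) = X ^ (k - 1) * (((X / X') ^ k * (1 / (Vf (z j) * X)) ^ k) * F) := by ring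
        _ = _ := by rw [e2]
    rw [e1] at g2
    have h1 := mul_le_mul_of_nonneg_left hlo hXs0
    have h2 : X ^ (k - 1) * (C1 * (((y : ℝ) - 2 ^ j) * F - PQ (z j) * D j)) =
        ((y : ℝ) - 2 ^ j) * (X ^ (k - 1) * (C1 * F)) - C1 * (X ^ (k - 1) * (PQ (z j) * D j)) := by ring
    rw [h2] at h1
    have h3 := mul_le_mul_of_nonneg_left g2 hy0
    have h4 : C1 * (X ^ (k - 1) * (PQ (z j) * D j)) ≤ 1 * (X ^ (k - 1) * (PQ (z j) * D j)) := mul_le_mul_of_nonneg_right hC11 hPD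
    have h5 : (ε / 2) * ((y : ℝ) - 2 ^ j) ≤ ε / 2 * 2 ^ j := mul_le_mul_of_nonneg_left hy3 (by linarith)
    nlinarith
  · -- upper bound
    obtain ⟨C1, hC1⟩ : ∃ C1, C1 = (1 / (Vf (z j) * X)) ^ k := ⟨_, rfl⟩
    obtain ⟨C2, hC2⟩ : ∃ C2, C2 = Real.exp (k / (Vf (z j) * X')) := ⟨_, rfl⟩
    obtain ⟨F, hF⟩ : ∃ F, F = ∑ d ∈ Icc 1 (D j), Fw (z j) k d (1 / (Vf (z j) * X')) := ⟨_, rfl⟩
    have hC10 : 0 ≤ C1 := by rw [hC1]; positivity
    have hC11 : C1 ≤ 1 := by rw [hC1]; exact pow_le_one₀ hb0 hb1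
    have hC20 : 0 ≤ C2 := by rw [hC2]; positivity
    rw [← hF, ← hC1, ← hC2] at g1
    rw [← hF, ← hC1, ← hC2] at hup
    rw [← hC2] at hexp3
    have h1 := mul_le_mul_of_nonneg_left hup hXs0
    have h2 : X ^ (k - 1) * (C1 * (C2 * (((y : ℝ) - 2 ^ j) * F + PQ (z j) * D j))) =
        ((y : ℝ) - 2 ^ j) * (C2 * (X ^ (k - 1) * (C1 * F))) + C1 * C2 * (X ^ (k - 1) * (PQ (z j) * D j)) := by ring
    rw [h2] at h1
    have h3 := mul_le_mul_of_nonneg_left g1 hy0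
    have h4 : C1 * C2 ≤ 3 := by nlinarith
    have h5 : C1 * C2 * (X ^ (k - 1) * (PQ (z j) * D j)) ≤ 3 * (X ^ (k - 1) * (PQ (z j) * D j)) := mul_le_mul_of_nonneg_right h4 hPD
    have h6 : (ε / 2) * ((y : ℝ) - 2 ^ j) ≤ ε / 2 * 2 ^ j := mul_le_mul_of_nonneg_left hy3 (by linarith)
    nlinarith

/-- **The number of runs in a block.** -/
theorem block_law (hA : IsModel μ (pr z) A) (hz : ∀ᶠ j : ℕ in atTop, 8 * z j ≤ j) {k : ℕ} (hk : 2 ≤ k) {D : ℕ → ℕ} (hD : ∀ᶠ j : ℕ in atTop, D j ≤ j ^ 3)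
    {w γ : ℝ} (hw : Tendsto (fun j : ℕ => Real.exp (-(((k : ℝ) - 1) * D j / (j * Real.log 2)))) atTop (𝓝 w))
    (hγ : Tendsto (fun j => gam (z j) k) atTop (𝓝 γ)) :
    ∀ᵐ ω ∂μ, ∀ ε : ℝ, 0 < ε → ∀ᶠ j : ℕ in atTop, ∀ y : ℕ, 2 ^ j ≤ y → y ≤ 2 ^ (j + 1) →
      |((j : ℝ) * Real.log 2) ^ (k - 1) * NC (A ω) k (2 ^ j) y (D j) - ((y : ℝ) - 2 ^ j) * (γ * ((1 - w) / ((k : ℝ) - 1)))| ≤ ε * 2 ^ j := by
  have hl := hl2
  have hl1 : Real.log 2 < 0.7 := by linarith [Real.log_two_lt_d9]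
  filter_upwards [conc hA hk hD] with ω hω ε hε
  obtain ⟨c, hc⟩ : ∃ c, c = γ * ((1 - w) / ((k : ℝ) - 1)) := ⟨_, rfl⟩
  have hE := EE_lim' (z := z) hA hz hk hD hw hγ (show 0 < ε / 8 by linarith)
  have hsmall : ∀ᶠ j : ℕ in atTop, (j : ℝ) ^ (k - 1) * (k * (j : ℝ) ^ 3 + 1) ≤ ε / 8 * 2 ^ j := by
    have h1 := (isLittleO_pow_exp_pos_mul_atTop (k + 3) (show (0 : ℝ) < 1 / 2 by norm_num)).bound
      (show (0 : ℝ) < ε / (8 * (k + 1)) by positivity)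
    filter_upwards [tendsto_natCast_atTop_atTop.eventually h1, eventually_ge_atTop 1] with j g2 hj
    rw [Real.norm_of_nonneg (by positivity), Real.norm_of_nonneg (Real.exp_pos _).le] at g2
    have hj1 : (1 : ℝ) ≤ j := by exact_mod_cast hj
    have e2 : (2 : ℝ) ^ j = Real.exp (j * Real.log 2) := by
      rw [mul_comm, Real.exp_mul, Real.exp_log (by norm_num), Real.rpow_natCast]
    have e3 : Real.exp (1 / 2 * (j : ℝ)) ≤ 2 ^ j := by
      rw [e2, Real.exp_le_exp]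
      have := Real.log_two_gt_d9
      nlinarith
    have e4 : (j : ℝ) ^ (k - 1) * (k * (j : ℝ) ^ 3 + 1) ≤ (k + 1) * (j : ℝ) ^ (k + 3) := by
      have e5 : 1 ≤ (j : ℝ) ^ 3 := one_le_pow₀ hj1
      have e6 : (j : ℝ) ^ (k - 1) * (k * (j : ℝ) ^ 3 + 1) ≤ (j : ℝ) ^ (k - 1) * ((k + 1) * (j : ℝ) ^ 3) := by
        refine mul_le_mul_of_nonneg_left ?_ (by positivity)
        linarith
      have e7 : (j : ℝ) ^ (k - 1) * ((k + 1) * (j : ℝ) ^ 3) = (k + 1) * (j : ℝ) ^ (k - 1 + 3) := by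
        rw [pow_add]
        ring
      rw [e7] at e6
      refine e6.trans (mul_le_mul_of_nonneg_left ?_ (by positivity))
      exact pow_le_pow_right₀ hj1 (by omega)
    refine e4.trans ?_
    have e5 := mul_le_mul_of_nonneg_left g2 (show 0 ≤ (k : ℝ) + 1 by positivity)
    have e6 : ((k : ℝ) + 1) * (ε / (8 * (k + 1)) * Real.exp (1 / 2 * (j : ℝ))) = ε / 8 * Real.exp (1 / 2 * j) := by field_simp
    rw [e6] at e5
    exact e5.trans (mul_le_mul_of_nonneg_left e3 (by positivity))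
  have hinv : ∀ᶠ j : ℕ in atTop, 1 / (j : ℝ) ^ 2 ≤ ε / 8 := by
    filter_upwards [tendsto_natCast_atTop_atTop.eventually_ge_atTop (8 / ε + 1)] with j hj
    have h8 : 0 < 8 / ε := by positivity
    have hj1 : 1 ≤ (j : ℝ) := by linarith
    rw [div_le_iff₀ (by positivity)]
    have h9 : 8 / ε ≤ (j : ℝ) ^ 2 := by nlinarith
    rw [div_le_iff₀ hε] at h9
    linarith
  have hcinv : ∀ᶠ j : ℕ in atTop, |c| * ((1 / (j : ℝ) ^ 2) + 1 / 2 ^ j + k * (j : ℝ) ^ 3 / 2 ^ j) ≤ ε / 8 := by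
    have h1 : Tendsto (fun j : ℕ => 1 / (j : ℝ) ^ 2) atTop (𝓝 0) := by
      have := (tendsto_pow_atTop (two_ne_zero (α := ℕ))).comp (tendsto_natCast_atTop_atTop (R := ℝ))
      refine this.inv_tendsto_atTop.congr fun j => ?_
      rw [Pi.inv_apply, one_div]
      rfl
    have h2 : Tendsto (fun j : ℕ => 1 / (2 : ℝ) ^ j) atTop (𝓝 0) := by
      have := (tendsto_pow_atTop_atTop_of_one_lt (show (1 : ℝ) < 2 by norm_num)).inv_tendsto_atTop
      refine this.congr fun j => ?_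
      rw [Pi.inv_apply, one_div]
    have h3 : Tendsto (fun j : ℕ => (k : ℝ) * (j : ℝ) ^ 3 / 2 ^ j) atTop (𝓝 0) := by
      have h4 := (tendsto_pow_const_div_const_pow_of_one_lt 3 (show (1 : ℝ) < 2 by norm_num)).const_mul (k : ℝ)
      rw [mul_zero] at h4
      refine h4.congr fun j => ?_
      ring
    have h4 := ((h1.add h2).add h3).const_mul |c|
    simp only [add_zero, mul_zero] at h4
    exact h4.eventually (ge_mem_nhds (by linarith))
  have hfit : ∀ᶠ j : ℕ in atTop, k * j ^ 3 ≤ 2 ^ j := by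
    have h4 := (tendsto_pow_const_div_const_pow_of_one_lt 3 (show (1 : ℝ) < 2 by norm_num)).const_mul (k : ℝ)
    rw [mul_zero] at h4
    filter_upwards [h4.eventually (ge_mem_nhds (show (0 : ℝ) < 1 by norm_num))] with j hj
    rw [mul_div_assoc', div_le_one (by positivity)] at hj
    exact_mod_cast hj
  filter_upwards [hω, hE, hD, hsmall, hinv, hcinv, hfit, eventually_ge_atTop 1] with j g1 g2 g3 g4 g5 g6 g7 hj y hy1 hy2
  have hj1 : (1 : ℝ) ≤ j := by exact_mod_cast hj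
  have hj0 : (0 : ℝ) < j := by linarith
  obtain ⟨X, hX⟩ : ∃ X, X = (j : ℝ) * Real.log 2 := ⟨_, rfl⟩
  have hX0 : 0 < X := by rw [hX]; positivity
  have hXj : X ≤ j := by rw [hX]; nlinarith
  rw [← hX, ← hc] at g2
  rw [← hX, ← hc]
  have hXs : X ^ (k - 1) ≤ (j : ℝ) ^ (k - 1) := pow_le_pow_left₀ hX0.le hXj _
  have hXs0 : 0 ≤ X ^ (k - 1) := by positivity
  have hDk : (k - 1) * D j ≤ k * j ^ 3 := Nat.mul_le_mul (by omega) g3
  have h2p : (0 : ℝ) < 2 ^ j := by positivity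
  -- cut off near the end of the block
  obtain ⟨y', hy'⟩ : ∃ y', y' = min y (2 ^ (j + 1) - (k - 1) * D j) := ⟨_, rfl⟩
  have hpow : 2 ^ (j + 1) = 2 * 2 ^ j := by rw [pow_succ']
  have f1 : 2 ^ j ≤ y' := by rw [hy']; exact le_min hy1 (by omega)
  have f2 : y' ≤ y := by rw [hy']; exact min_le_left _ _
  have f3 : y' + (k - 1) * D j ≤ 2 ^ (j + 1) := by
    have : y' ≤ 2 ^ (j + 1) - (k - 1) * D j := by rw [hy']; exact min_le_right _ _
    omega
  have f4 : y - y' ≤ k * j ^ 3 := by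
    rcases le_total y (2 ^ (j + 1) - (k - 1) * D j) with h | h
    · rw [hy', min_eq_left h]
      omega
    · rw [hy', min_eq_right h]
      omega
  -- the grid
  have hst0 : 0 < st k j := Nat.succ_pos _
  obtain ⟨a, ha⟩ : ∃ a, a = (y' - 2 ^ j) / st k j := ⟨_, rfl⟩
  have f5 : a * st k j ≤ y' - 2 ^ j := by rw [ha]; exact Nat.div_mul_le_self _ _
  have f6 : y' - 2 ^ j < a * st k j + st k j := by
    have := Nat.lt_mul_div_succ (y' - 2 ^ j) hst0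
    rw [← ha] at this
    have e1 : st k j * (a + 1) = a * st k j + st k j := by ring
    omega
  have hjk : 0 < j ^ (k + 1) := pow_pos (by omega) _
  have f7 : a ≤ j ^ (k + 1) := by
    have h1 : a * st k j ≤ 2 ^ j := by omega
    have h2 : 2 ^ j < j ^ (k + 1) * st k j := by
      unfold st
      exact Nat.lt_mul_div_succ (2 ^ j) hjk
    have h3 : a * st k j < j ^ (k + 1) * st k j := lt_of_le_of_lt h1 h2
    exact (lt_of_mul_lt_mul_right h3 (Nat.zero_le _)).le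
  have g1a := g1 a f7
  have g2a := g2 (2 ^ j + a * st k j) (by omega) (by omega)
  obtain ⟨E, hEd⟩ : ∃ E, E = EE μ A k (2 ^ j) (2 ^ j + a * st k j) (D j) := ⟨_, rfl⟩
  rw [← hEd] at g1a g2a
  have n1 := NC_add (A ω) k (D j) (a := 2 ^ j) (b := y') (c := y) f1 f2
  have n2 := NC_add (A ω) k (D j) (a := 2 ^ j) (b := 2 ^ j + a * st k j) (c := y') (by omega) (by omega)
  have n3 := NC_le (A ω) k (D j) y' y
  have n4 := NC_le (A ω) k (D j) (2 ^ j + a * st k j) y'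
  obtain ⟨Na, hNa⟩ : ∃ Na, Na = NC (A ω) k (2 ^ j) (2 ^ j + a * st k j) (D j) := ⟨_, rfl⟩
  rw [← hNa] at g1a n2
  have n5 : Na ≤ NC (A ω) k (2 ^ j) y (D j) := by omega
  have n6 : NC (A ω) k (2 ^ j) y (D j) ≤ Na + k * j ^ 3 + st k j := by omega
  have n5' : (Na : ℝ) ≤ NC (A ω) k (2 ^ j) y (D j) := by exact_mod_cast n5
  have n6' : (NC (A ω) k (2 ^ j) y (D j) : ℝ) ≤ Na + k * (j : ℝ) ^ 3 + st k j := by exact_mod_cast n6
  have hst : (st k j : ℝ) ≤ 2 ^ j / (j : ℝ) ^ (k + 1) + 1 := by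
    unfold st
    push_cast
    have h1 : ((2 ^ j / j ^ (k + 1) : ℕ) : ℝ) ≤ ((2 ^ j : ℕ) : ℝ) / ((j ^ (k + 1) : ℕ) : ℝ) := Nat.cast_div_le
    push_cast at h1
    linarith
  obtain ⟨τ, hτ⟩ : ∃ τ : ℝ, τ = 2 ^ j / (j : ℝ) ^ (k + 1) := ⟨_, rfl⟩
  rw [← hτ] at g1a hst
  have hτ0 : 0 < τ := by rw [hτ]; positivity
  have hXτ : X ^ (k - 1) * τ ≤ 2 ^ j * (1 / (j : ℝ) ^ 2) := by
    have h1 : X ^ (k - 1) * τ ≤ (j : ℝ) ^ (k - 1) * τ := mul_le_mul_of_nonneg_right hXs hτ0.le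
    refine h1.trans (le_of_eq ?_)
    rw [hτ]
    have h2 : (j : ℝ) ^ (k + 1) = (j : ℝ) ^ (k - 1) * (j : ℝ) ^ 2 := by
      rw [← pow_add]
      congr 1
      omega
    rw [h2]
    field_simp
  have hτ2 : τ ≤ 2 ^ j * (1 / (j : ℝ) ^ 2) := by
    rw [hτ, mul_one_div]
    exact div_le_div_of_nonneg_left (by positivity) (by positivity) (pow_le_pow_right₀ hj1 (by omega))
  have hya : |((y : ℝ) - 2 ^ j) * c - (((2 ^ j + a * st k j : ℕ) : ℝ) - 2 ^ j) * c| ≤ |c| * (k * (j : ℝ) ^ 3 + st k j) := by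
    have h1 : ((y : ℝ) - 2 ^ j) * c - (((2 ^ j + a * st k j : ℕ) : ℝ) - 2 ^ j) * c = c * ((y : ℝ) - ((2 ^ j + a * st k j : ℕ) : ℝ)) := by ring
    rw [h1, abs_mul]
    refine mul_le_mul_of_nonneg_left ?_ (abs_nonneg c)
    have h2 : 2 ^ j + a * st k j ≤ y := by omega
    have h3 : y ≤ 2 ^ j + a * st k j + k * j ^ 3 + st k j := by omega
    have h2' : ((2 ^ j + a * st k j : ℕ) : ℝ) ≤ y := by exact_mod_cast h2
    have h3' : (y : ℝ) ≤ ((2 ^ j + a * st k j : ℕ) : ℝ) + k * (j : ℝ) ^ 3 + st k j := by exact_mod_cast h3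
    rw [abs_of_nonneg (by linarith)]
    linarith
  have hNE : |X ^ (k - 1) * (NC (A ω) k (2 ^ j) y (D j) : ℝ) - X ^ (k - 1) * E| ≤ X ^ (k - 1) * (k * (j : ℝ) ^ 3 + st k j + τ) := by
    rw [← mul_sub, abs_mul, abs_of_nonneg hXs0]
    refine mul_le_mul_of_nonneg_left ?_ hXs0
    rw [abs_lt] at g1a
    rw [abs_le]
    constructor
    · have : (0 : ℝ) ≤ k * (j : ℝ) ^ 3 + st k j := by positivity
      linarith
    · linarith
  have hcbd : |c| * (k * (j : ℝ) ^ 3 + st k j) ≤ ε / 8 * 2 ^ j := by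
    have h1 : (k : ℝ) * (j : ℝ) ^ 3 + st k j ≤ 2 ^ j * ((1 / (j : ℝ) ^ 2) + 1 / 2 ^ j + k * (j : ℝ) ^ 3 / 2 ^ j) := by
      have h2 : 2 ^ j * ((1 / (j : ℝ) ^ 2) + 1 / 2 ^ j + k * (j : ℝ) ^ 3 / 2 ^ j) = 2 ^ j * (1 / (j : ℝ) ^ 2) + 1 + k * (j : ℝ) ^ 3 := by
        field_simp
      rw [h2]
      linarith
    have h2 := mul_le_mul_of_nonneg_left h1 (abs_nonneg c)
    have h3 : |c| * (2 ^ j * ((1 / (j : ℝ) ^ 2) + 1 / 2 ^ j + k * (j : ℝ) ^ 3 / 2 ^ j)) =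
        2 ^ j * (|c| * ((1 / (j : ℝ) ^ 2) + 1 / 2 ^ j + k * (j : ℝ) ^ 3 / 2 ^ j)) := by ring
    rw [h3] at h2
    have h4 := mul_le_mul_of_nonneg_left g6 h2p.le
    linarith
  have hXbd : X ^ (k - 1) * (k * (j : ℝ) ^ 3 + st k j + τ) ≤ 3 * ε / 8 * 2 ^ j := by
    have h1 : X ^ (k - 1) * (k * (j : ℝ) ^ 3 + st k j + τ) ≤ X ^ (k - 1) * (k * (j : ℝ) ^ 3 + 1) + 2 * (X ^ (k - 1) * τ) := by
      have h2 : X ^ (k - 1) * (st k j : ℝ) ≤ X ^ (k - 1) * (τ + 1) := mul_le_mul_of_nonneg_left hst hXs0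
      linarith
    have h2 : X ^ (k - 1) * (k * (j : ℝ) ^ 3 + 1) ≤ (j : ℝ) ^ (k - 1) * (k * (j : ℝ) ^ 3 + 1) :=
      mul_le_mul_of_nonneg_right hXs (by positivity)
    have h3 := mul_le_mul_of_nonneg_left g5 h2p.le
    linarith
  rw [abs_le] at g2a hya hNE ⊢
  push_cast at g2a hya
  constructor
  · linarith [g2a.1, hya.2, hNE.1]
  · linarith [g2a.2, hya.1, hNE.2]

end Pool.Agent.H38.RC
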