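import Pool.Agent.H38.RC.E
import Pool.Agent.H38.RC.J

/-!
# Counting runs in the sieved models: the final law
-/

set_option autoImplicit false

namespace Pool.Agent.H38.RC

open Finset MeasureTheory Filter Pool.Agent.Q120.MG Pool.Agent.Q120.GM Pool.Agent.Q120.CL Pool.Agent.H38.LR
open scoped Topology

variable {Ω : Type*} [MeasurableSpace Ω] {μ : Measure Ω} [IsProbabilityMeasure μ] {A : Ω → Set ℕ} {z : ℕ → ℕ}

theorem NC_cntI (S : Set ℕ) (k α y D : ℕ) : NC S k α y D = cntI (fun n => ∃ d, 1 ≤ d ∧ d ≤ D ∧ Run S n k d) α y := rfl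

/-- The first terms of the runs with `k` elements. -/
def St (S : Set ℕ) (k n : ℕ) : Prop := ∃ d, 1 ≤ d ∧ Run S n k d

/-- The first terms of the runs with `k` elements and a difference at most `u log n`. -/
def Su (S : Set ℕ) (k : ℕ) (u : ℝ) (n : ℕ) : Prop := ∃ d : ℕ, 1 ≤ d ∧ (d : ℝ) ≤ u * Real.log n ∧ Run S n k d

theorem poly_two (s : ℕ) (C : ℝ) : Tendsto (fun j : ℕ => ((j : ℝ) * Real.log 2) ^ s * (C * (j : ℝ) ^ 3) / 2 ^ j) atTop (𝓝 0) := by
  have h4 := (tendsto_pow_const_div_const_pow_of_one_lt (s + 3) (show (1 : ℝ) < 2 by norm_num)).const_mul (C * Real.log 2 ^ s)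
  rw [mul_zero] at h4
  refine h4.congr fun j => ?_
  rw [mul_pow, pow_add]
  ring

/-- the limit of the truncation for all differences up to `j ^ 3` -/
theorem w_zero {k : ℕ} (hk : 2 ≤ k) :
    Tendsto (fun j : ℕ => Real.exp (-(((k : ℝ) - 1) * ((j ^ 3 : ℕ) : ℝ) / (j * Real.log 2)))) atTop (𝓝 0) := by
  have hk' : (2 : ℝ) ≤ k := by exact_mod_cast hk
  have hl := hl2
  have hl1 : Real.log 2 < 0.7 := by linarith [Real.log_two_lt_d9]
  refine Real.tendsto_exp_neg_atTop_nhds_zero.comp ?_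
  refine tendsto_atTop_mono' atTop ?_ tendsto_natCast_atTop_atTop
  filter_upwards [eventually_ge_atTop 1] with j hj
  have hj1 : (1 : ℝ) ≤ j := by exact_mod_cast hj
  rw [le_div_iff₀ (by positivity)]
  push_cast
  have e1 : (j : ℝ) * (j * Real.log 2) ≤ (j : ℝ) ^ 2 := by nlinarith
  have e2 : (j : ℝ) ^ 2 ≤ (j : ℝ) ^ 3 := pow_le_pow_right₀ hj1 (by norm_num)
  have e3 : (j : ℝ) ^ 3 ≤ ((k : ℝ) - 1) * (j : ℝ) ^ 3 := by
    have : 0 ≤ (j : ℝ) ^ 3 := by positivity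
    nlinarith
  linarith

/-- **All runs in the blocks.** -/
theorem total_BL (low : LOW) (hA : IsModel μ (pr z) A) (hz : ∀ᶠ j : ℕ in atTop, 8 * z j ≤ j) {k : ℕ} (hk : 2 ≤ k)
    {γ : ℝ} (hγ : Tendsto (fun j => gam (z j) k) atTop (𝓝 γ)) :
    ∀ᵐ ω ∂μ, BL (St (A ω) k) (k - 1) (γ / ((k : ℝ) - 1)) := by
  filter_upwards [block_law hA hz hk (D := fun j => j ^ 3) (Eventually.of_forall fun j => le_rfl) (w_zero hk) hγ,
    gaps0 low hA (hz.mono fun j hj => by omega) (T := 5 / 2) (by norm_num)] with ω hω hgap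
  have hBL : BL (fun n => False) 0 0 := by
    intro ε hε
    refine Eventually.of_forall fun j y _ _ => ?_
    unfold cntI
    simp
    positivity
  clear hBL
  -- the law for the differences up to `j ^ 3`
  intro ε hε
  have hsm := (poly_two (k - 1) 1).eventually (ge_mem_nhds (show (0 : ℝ) < ε / 2 by linarith))
  have hT : ∀ᶠ j : ℕ in atTop, ⌈(j : ℝ) ^ (5 / 2 : ℝ)⌉₊ ≤ j ^ 3 := by
    filter_upwards [eventually_ge_atTop 1] with j hj
    rw [Nat.ceil_le]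
    push_cast
    rw [← Real.rpow_natCast]
    exact Real.rpow_le_rpow_of_exponent_le (by exact_mod_cast hj) (by norm_num)
  filter_upwards [hω (ε / 2) (by linarith), hgap, hsm, hT] with j g1 g2 g3 g4 y hy1 hy2
  have h1 := g1 y hy1 hy2
  rw [sub_zero, mul_one_div] at h1
  have hl := hl2
  have h2p : (0 : ℝ) < 2 ^ j := by positivity
  have e1 : NC (A ω) k (2 ^ j) y (j ^ 3) ≤ cntI (St (A ω) k) (2 ^ j) y := by
    rw [NC_cntI]
    exact cntI_mono fun n _ _ ⟨d, hd1, _, hr⟩ => ⟨d, hd1, hr⟩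
  have e2 : cntI (St (A ω) k) (2 ^ j) y ≤ NC (A ω) k (2 ^ j) y (j ^ 3) + j ^ 3 := by
    obtain ⟨y', hy'⟩ : ∃ y', y' = max (2 ^ j) (min y (2 ^ (j + 1) - j ^ 3)) := ⟨_, rfl⟩
    have hpow : 2 ^ (j + 1) = 2 * 2 ^ j := by rw [pow_succ']
    have f1 : 2 ^ j ≤ y' := by rw [hy']; exact le_max_left _ _
    have f2 : y' ≤ y := by rw [hy']; exact max_le hy1 (min_le_left _ _)
    have f3 : y - y' ≤ j ^ 3 := by
      have : min y (2 ^ (j + 1) - j ^ 3) ≤ y' := by rw [hy']; exact le_max_right _ _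
      rcases le_total y (2 ^ (j + 1) - j ^ 3) with h | h
      · rw [min_eq_left h] at this
        omega
      · rw [min_eq_right h] at this
        omega
    have e3 := cntI_add (St (A ω) k) (a := 2 ^ j) (b := y') (c := y) f1 f2
    have e4 := cntI_le (St (A ω) k) y' y
    have e5 : cntI (St (A ω) k) (2 ^ j) y' ≤ cntI (fun n => ∃ d, 1 ≤ d ∧ d ≤ j ^ 3 ∧ Run (A ω) n k d) (2 ^ j) y' := by
      refine cntI_mono fun n hn1 hn2 ⟨d, hd1, hr⟩ => ⟨d, hd1, ?_, hr⟩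
      have f4 : n < 2 ^ (j + 1) - j ^ 3 := by
        rcases le_total (2 ^ j) (min y (2 ^ (j + 1) - j ^ 3)) with h | h
        · rw [max_eq_right h] at hy'
          have := min_le_right y (2 ^ (j + 1) - j ^ 3)
          omega
        · rw [max_eq_left h] at hy'
          omega
      obtain ⟨m, hm, hm1, hm2⟩ := g2 n hn1 (by omega)
      by_contra hcon
      push Not at hcon
      have f5 : d ≤ (k - 1) * d := Nat.le_mul_of_pos_left _ (by omega)
      obtain ⟨i, hi, him⟩ := (hr m (by omega) (by omega)).1 hm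
      rcases Nat.eq_zero_or_pos i with h0 | h0
      · rw [h0] at him
        omega
      · have f6 : d ≤ i * d := Nat.le_mul_of_pos_left _ h0
        omega
    have e6 : cntI (fun n => ∃ d, 1 ≤ d ∧ d ≤ j ^ 3 ∧ Run (A ω) n k d) (2 ^ j) y' ≤ NC (A ω) k (2 ^ j) y (j ^ 3) := by
      have := cntI_add (fun n => ∃ d, 1 ≤ d ∧ d ≤ j ^ 3 ∧ Run (A ω) n k d) (a := 2 ^ j) (b := y') (c := y) f1 f2
      rw [NC_cntI]
      omega
    omega
  have e1' : (NC (A ω) k (2 ^ j) y (j ^ 3) : ℝ) ≤ cntI (St (A ω) k) (2 ^ j) y := by exact_mod_cast e1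
  have e2' : (cntI (St (A ω) k) (2 ^ j) y : ℝ) ≤ NC (A ω) k (2 ^ j) y (j ^ 3) + (j : ℝ) ^ 3 := by exact_mod_cast e2
  obtain ⟨Xs, hXs⟩ : ∃ Xs, Xs = ((j : ℝ) * Real.log 2) ^ (k - 1) := ⟨_, rfl⟩
  have hXs0 : 0 ≤ Xs := by rw [hXs]; positivity
  rw [← hXs] at h1 g3 ⊢
  rw [div_le_iff₀ h2p, one_mul] at g3
  have h5 := mul_le_mul_of_nonneg_left e1' hXs0
  have h6 := mul_le_mul_of_nonneg_left e2' hXs0
  rw [abs_le] at h1 ⊢
  constructor <;> linarith [h1.1, h1.2]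

/-- the limit of the truncation at `u log x` -/
theorem w_u {k : ℕ} {u : ℝ} (hu : 0 ≤ u) (i : ℕ) :
    Tendsto (fun j : ℕ => Real.exp (-(((k : ℝ) - 1) * (⌊u * (((j + i : ℕ) : ℝ) * Real.log 2)⌋₊ : ℝ) / (j * Real.log 2)))) atTop
      (𝓝 (Real.exp (-(((k : ℝ) - 1) * u)))) := by
  have hl := hl2
  have h1 : Tendsto (fun j : ℕ => (⌊u * (((j + i : ℕ) : ℝ) * Real.log 2)⌋₊ : ℝ) / (((j + i : ℕ) : ℝ) * Real.log 2)) atTop (𝓝 u) := by
    have h2 : Tendsto (fun j : ℕ => ((j + i : ℕ) : ℝ) * Real.log 2) atTop atTop := X_top.comp (tendsto_add_atTop_nat i)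
    exact (tendsto_nat_floor_mul_div_atTop hu).comp h2
  have h2 : Tendsto (fun j : ℕ => (((j + i : ℕ) : ℝ) * Real.log 2) / (j * Real.log 2)) atTop (𝓝 1) := by
    have h3 : Tendsto (fun j : ℕ => 1 + (i : ℝ) / j) atTop (𝓝 1) := by
      have := (tendsto_const_div_atTop_nhds_zero_nat (i : ℝ)).const_add 1
      simpa using this
    refine h3.congr' ?_
    filter_upwards [eventually_ge_atTop 1] with j hj
    have hj0 : (0 : ℝ) < j := by exact_mod_cast hj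
    push_cast
    field_simp
  have h3 := ((h1.mul h2).const_mul ((k : ℝ) - 1)).neg
  rw [mul_one] at h3
  refine (Real.continuous_exp.tendsto _).comp (h3.congr' ?_)
  filter_upwards [eventually_ge_atTop 1] with j hj
  have hj0 : (0 : ℝ) < j := by exact_mod_cast hj
  have hji : (0 : ℝ) < ((j + i : ℕ) : ℝ) := by exact_mod_cast (by omega : 0 < j + i)
  field_simp

theorem D_small {u : ℝ} (hu : 0 ≤ u) (i : ℕ) : ∀ᶠ j : ℕ in atTop, ⌊u * (((j + i : ℕ) : ℝ) * Real.log 2)⌋₊ ≤ j ^ 3 := by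
  have hl := hl2
  have hl1 : Real.log 2 < 0.7 := by linarith [Real.log_two_lt_d9]
  filter_upwards [tendsto_natCast_atTop_atTop.eventually_ge_atTop (2 * u), eventually_ge_atTop i, eventually_ge_atTop 1] with j g1 g2 hj
  have hj1 : (1 : ℝ) ≤ j := by exact_mod_cast hj
  have g2' : (i : ℝ) ≤ j := by exact_mod_cast g2
  have h1 : u * (((j + i : ℕ) : ℝ) * Real.log 2) ≤ (j : ℝ) ^ 3 := by
    push_cast
    have e1 : ((j : ℝ) + i) * Real.log 2 ≤ 2 * j := by nlinarith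
    have e2 : u * (((j : ℝ) + i) * Real.log 2) ≤ u * (2 * j) := mul_le_mul_of_nonneg_left e1 hu
    have e3 : u * (2 * j) ≤ (j : ℝ) ^ 2 := by nlinarith
    have e4 : (j : ℝ) ^ 2 ≤ (j : ℝ) ^ 3 := pow_le_pow_right₀ hj1 (by norm_num)
    linarith
  refine Nat.floor_le_of_le ?_
  push_cast
  exact_mod_cast h1

/-- **Runs with small differences in the blocks.** -/
theorem u_BL (hA : IsModel μ (pr z) A) (hz : ∀ᶠ j : ℕ in atTop, 8 * z j ≤ j) {k : ℕ} (hk : 2 ≤ k)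
    {γ : ℝ} (hγ : Tendsto (fun j => gam (z j) k) atTop (𝓝 γ)) {u : ℝ} (hu : 0 ≤ u) :
    ∀ᵐ ω ∂μ, BL (Su (A ω) k u) (k - 1) (γ * ((1 - Real.exp (-(((k : ℝ) - 1) * u))) / ((k : ℝ) - 1))) := by
  filter_upwards [block_law hA hz hk (D := fun j => ⌊u * (((j + 0 : ℕ) : ℝ) * Real.log 2)⌋₊) (D_small hu 0) (w_u hu 0) hγ,
    block_law hA hz hk (D := fun j => ⌊u * (((j + 1 : ℕ) : ℝ) * Real.log 2)⌋₊) (D_small hu 1) (w_u hu 1) hγ] with ω h0 h1
  have hl := hl2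
  intro ε hε
  filter_upwards [h0 ε hε, h1 ε hε, eventually_ge_atTop 1] with j g1 g2 hj y hy1 hy2
  have h1 := g1 y hy1 hy2
  have h2 := g2 y hy1 hy2
  have e1 : NC (A ω) k (2 ^ j) y ⌊u * (((j + 0 : ℕ) : ℝ) * Real.log 2)⌋₊ ≤ cntI (Su (A ω) k u) (2 ^ j) y := by
    rw [NC_cntI]
    refine cntI_mono fun n hn1 hn2 ⟨d, hd1, hd2, hr⟩ => ⟨d, hd1, ?_, hr⟩
    have e2 := (log_block (k := j) hn1 (by omega)).2.1
    have e3 : (d : ℝ) ≤ u * (((j + 0 : ℕ) : ℝ) * Real.log 2) := (Nat.le_floor_iff (by positivity)).1 hd2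
    refine e3.trans (mul_le_mul_of_nonneg_left ?_ hu)
    simpa using e2
  have e2 : cntI (Su (A ω) k u) (2 ^ j) y ≤ NC (A ω) k (2 ^ j) y ⌊u * (((j + 1 : ℕ) : ℝ) * Real.log 2)⌋₊ := by
    rw [NC_cntI]
    refine cntI_mono fun n hn1 hn2 ⟨d, hd1, hd2, hr⟩ => ⟨d, hd1, ?_, hr⟩
    have e2 := (log_block (k := j) hn1 (by omega)).2.2
    refine (Nat.le_floor_iff (by positivity)).2 (hd2.trans (mul_le_mul_of_nonneg_left ?_ hu))
    push_cast
    exact e2
  have e1' : (NC (A ω) k (2 ^ j) y ⌊u * (((j + 0 : ℕ) : ℝ) * Real.log 2)⌋₊ : ℝ) ≤ cntI (Su (A ω) k u) (2 ^ j) y := by exact_mod_cast e1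
  have e2' : (cntI (Su (A ω) k u) (2 ^ j) y : ℝ) ≤ NC (A ω) k (2 ^ j) y ⌊u * (((j + 1 : ℕ) : ℝ) * Real.log 2)⌋₊ := by exact_mod_cast e2
  have hXs0 : 0 ≤ ((j : ℝ) * Real.log 2) ^ (k - 1) := by positivity
  have h5 := mul_le_mul_of_nonneg_left e1' hXs0
  have h6 := mul_le_mul_of_nonneg_left e2' hXs0
  rw [abs_le] at h1 h2 ⊢
  constructor <;> linarith [h1.1, h2.2]

/-- the limiting distribution function -/
noncomputable def Phi (γ : ℝ) (k : ℕ) (u : ℝ) : ℝ := γ / ((k : ℝ) - 1) * (1 - Real.exp (-(((k : ℝ) - 1) * max u 0)))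

/-- **The final law.** -/
theorem final (low : LOW) (hA : IsModel μ (pr z) A) (hz : ∀ᶠ j : ℕ in atTop, 8 * z j ≤ j) {k : ℕ} (hk : 2 ≤ k)
    {γ : ℝ} (hγ : Tendsto (fun j => gam (z j) k) atTop (𝓝 γ)) :
    ∀ᵐ ω ∂μ, Tendsto (fun x : ℕ => (cntI (St (A ω) k) 0 x : ℝ) / (x / Real.log x ^ (k - 1))) atTop (𝓝 (γ / ((k : ℝ) - 1))) ∧
      ∀ u : ℝ, Tendsto (fun x : ℕ => (cntI (Su (A ω) k u) 0 x : ℝ) / (x / Real.log x ^ (k - 1))) atTop (𝓝 (Phi γ k u)) := by
  have hq : ∀ q : ℚ, ∀ᵐ ω ∂μ, Tendsto (fun x : ℕ => (cntI (Su (A ω) k q) 0 x : ℝ) / (x / Real.log x ^ (k - 1))) atTop (𝓝 (Phi γ k q)) := by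
    intro q
    rcases le_or_gt 0 (q : ℝ) with h | h
    · filter_upwards [u_BL hA hz hk hγ h] with ω hω
      have h1 := cumul hω
      unfold Phi
      rw [max_eq_left h]
      have h2 : γ / ((k : ℝ) - 1) * (1 - Real.exp (-(((k : ℝ) - 1) * q))) = γ * ((1 - Real.exp (-(((k : ℝ) - 1) * q))) / ((k : ℝ) - 1)) := by ring
      rw [h2]
      exact h1
    · refine Eventually.of_forall fun ω => ?_
      unfold Phi
      rw [max_eq_right h.le]
      have h1 : ∀ x : ℕ, cntI (Su (A ω) k q) 0 x = 0 := by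
        intro x
        classical
        unfold cntI
        rw [card_eq_zero, filter_eq_empty_iff]
        rintro n _ ⟨d, hd1, hd2, _⟩
        have h2 : (q : ℝ) * Real.log n ≤ 0 := mul_nonpos_of_nonpos_of_nonneg h.le (Real.log_natCast_nonneg n)
        have h3 : (1 : ℝ) ≤ d := by exact_mod_cast hd1
        linarith
      simp only [h1]
      simp
  filter_upwards [total_BL low hA hz hk hγ, ae_all_iff.2 hq] with ω h1 h2
  refine ⟨cumul h1, ?_⟩
  refine all_u (Φ := Phi γ k) ?_ (F := fun u x => (cntI (Su (A ω) k u) 0 x : ℝ) / (x / Real.log x ^ (k - 1))) ?_ h2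
  · unfold Phi
    fun_prop
  · intro u v huv
    filter_upwards [eventually_ge_atTop 1] with x hx
    have h3 : cntI (Su (A ω) k u) 0 x ≤ cntI (Su (A ω) k v) 0 x := by
      refine cntI_mono fun n _ _ ⟨d, hd1, hd2, hr⟩ => ⟨d, hd1, hd2.trans ?_, hr⟩
      exact mul_le_mul_of_nonneg_right huv (Real.log_natCast_nonneg n)
    have h4 : (cntI (Su (A ω) k u) 0 x : ℝ) ≤ cntI (Su (A ω) k v) 0 x := by exact_mod_cast h3
    refine div_le_div_of_nonneg_right h4 ?_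
    have := Real.log_natCast_nonneg x
    positivity

end Pool.Agent.H38.RC
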