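import Pool.Agent.H38.RC.B

/-!
# Counting runs in the sieved models: averages at every level
-/

set_option autoImplicit false

namespace Pool.Agent.H38.RC

open Finset MeasureTheory Filter Pool.Agent.Q120.MG Pool.Agent.Q120.GM Pool.Agent.Q120.CL Pool.Agent.H38.LR
open scoped Topology

/-- the number of the admissible classes modulo a prime -/
theorem hh_eq {k p : ℕ} (hp : p.Prime) (hk : 1 ≤ k) (d : ℕ) : hh k p d = if p ∣ d then p - 1 else p - k := by
  classical
  rw [← hh_mod]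
  have hmod : p ∣ d ↔ d % p = 0 := Nat.dvd_iff_mod_eq_zero
  obtain ⟨t, ht⟩ : ∃ t, t = d % p := ⟨_, rfl⟩
  have htp : t < p := by rw [ht]; exact Nat.mod_lt _ hp.pos
  by_cases ht0 : t = 0
  · rw [if_pos (hmod.2 (by rw [← ht, ht0])), ← ht, ht0]
    clear ht hmod htp ht0
    unfold hh
    have h1 : (range p).filter (fun a => ∀ i < k, ¬ p ∣ a + i * 0) = (range p).erase 0 := by
      ext a
      rw [mem_filter, mem_erase, mem_range]
      constructor
      · rintro ⟨h1, h2⟩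
        refine ⟨?_, h1⟩
        rintro rfl
        exact h2 0 (by omega) (by simp)
      · rintro ⟨h1, h2⟩
        refine ⟨h2, fun i _ h3 => ?_⟩
        simp only [mul_zero, add_zero] at h3
        exact h1 (Nat.eq_zero_of_dvd_of_lt h3 h2)
    rw [h1, card_erase_of_mem (mem_range.2 hp.pos), card_range]
  · rw [if_neg (fun h => ht0 (by rw [ht]; exact hmod.1 h)), ← ht]
    clear ht hmod
    have hpt : ¬ p ∣ t := fun h => ht0 (Nat.eq_zero_of_dvd_of_lt h htp)
    have hcop : Nat.Coprime p t := (Nat.Prime.coprime_iff_not_dvd hp).2 hpt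
    -- the forbidden classes
    obtain ⟨e, he⟩ : ∃ e : ℕ → ℕ, e = fun i => (p - (i * t) % p) % p := ⟨_, rfl⟩
    have he1 : ∀ i, e i < p := fun i => by rw [he]; exact Nat.mod_lt _ hp.pos
    have he2 : ∀ i, p ∣ e i + i * t := by
      intro i
      have h1 : (i * t) % p < p := Nat.mod_lt _ hp.pos
      have h2 : e i ≡ p - (i * t) % p [MOD p] := by rw [he]; exact Nat.mod_modEq _ _
      have h3 : e i + i * t ≡ (p - (i * t) % p) + (i * t) % p [MOD p] := Nat.ModEq.add h2 (Nat.mod_modEq _ _).symm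
      rw [Nat.sub_add_cancel h1.le] at h3
      exact (h3.dvd_iff dvd_rfl).2 dvd_rfl
    have he3 : ∀ i i', p ∣ e i + i' * t → i < p → i' < p → i = i' := by
      intro i i' h1 hi hi'
      have h2 : i * t ≡ i' * t [MOD p] := by
        have h3 : e i + i * t ≡ e i + i' * t [MOD p] :=
          ((Nat.modEq_zero_iff_dvd.2 (he2 i)).trans (Nat.modEq_zero_iff_dvd.2 h1).symm)
        exact Nat.ModEq.add_left_cancel' _ h3
      have h3 : i ≡ i' [MOD p] := Nat.ModEq.cancel_right_of_coprime hcop h2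
      rwa [Nat.ModEq, Nat.mod_eq_of_lt hi, Nat.mod_eq_of_lt hi'] at h3
    have hset : (range p).filter (fun a => ∀ i < k, ¬ p ∣ a + i * t) = range p \ (range (min k p)).image e := by
      ext a
      rw [mem_filter, Finset.mem_sdiff, mem_image]
      refine and_congr_right fun ha => ?_
      rw [mem_range] at ha
      constructor
      · rintro h ⟨i, hi, rfl⟩
        rw [mem_range] at hi
        exact h i (by omega) (he2 i)
      · intro h i hi hdvd
        apply h
        refine ⟨i % p, ?_, ?_⟩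
        · rw [mem_range]
          have h1 := Nat.mod_lt i hp.pos
          have h2 := Nat.mod_le i p
          omega
        · have h1 : a = (p - (i * t) % p) % p := res_eq ha hdvd
          rw [h1, he]
          simp only
          have h2 : i % p * t % p = i * t % p := by
            rw [Nat.mul_mod, Nat.mod_mod, ← Nat.mul_mod]
          rw [h2]
    unfold hh
    rw [hset, card_sdiff_of_subset, card_range, card_image_of_injOn, card_range]
    · omega
    · intro i hi i' hi' h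
      rw [mem_coe, mem_range] at hi hi'
      refine he3 i i' ?_ (by omega) (by omega)
      have h' : e i = e i' := h
      rw [h']
      exact he2 i'
    · intro a ha
      obtain ⟨i, _, rfl⟩ := mem_image.1 ha
      exact mem_range.2 (he1 i)

/-- an averaging lemma for products over primes -/
theorem prod_avg (S : Finset ℕ) (hS : ∀ p ∈ S, p.Prime) {u w : ℕ → ℝ} (hu : ∀ p ∈ S, 0 ≤ u p) (hw : ∀ p ∈ S, 0 ≤ w p) (t : ℕ) :
    |∑ d ∈ Icc 1 t, ∏ p ∈ S, (u p + w p * (if p ∣ d then 1 else 0)) - t * ∏ p ∈ S, (u p + w p / p)| ≤ ∏ p ∈ S, (u p + w p) := by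
  classical
  have h1 : ∀ d ∈ Icc 1 t, ∏ p ∈ S, (u p + w p * (if p ∣ d then 1 else 0)) =
      ∑ T ∈ S.powerset, (∏ p ∈ T, w p) * (∏ p ∈ S \ T, u p) * (if ∏ p ∈ T, p ∣ d then 1 else 0) := by
    intro d _
    have h2 : ∀ p ∈ S, (u p + w p * (if p ∣ d then 1 else 0)) = (w p * (if p ∣ d then 1 else 0)) + u p := fun p _ => add_comm _ _
    rw [prod_congr rfl h2, prod_add]
    refine sum_congr rfl fun T hT => ?_
    rw [mem_powerset] at hT
    rw [prod_mul_distrib, prod_boole]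
    have h3 : (∀ p ∈ T, p ∣ d) ↔ ∏ p ∈ T, p ∣ d := by
      constructor
      · intro h
        exact Finset.prod_primes_dvd d (fun p hp => (hS p (hT hp)).prime) h
      · intro h p hp
        exact (Finset.dvd_prod_of_mem (fun p => p) hp).trans h
    simp only [h3]
    ring
  rw [sum_congr rfl h1, sum_comm]
  have h2 : ∀ T ∈ S.powerset, ∑ d ∈ Icc 1 t, (∏ p ∈ T, w p) * (∏ p ∈ S \ T, u p) * (if ∏ p ∈ T, p ∣ d then (1 : ℝ) else 0) =
      (∏ p ∈ T, w p) * (∏ p ∈ S \ T, u p) * ((t / ∏ p ∈ T, p : ℕ) : ℝ) := by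
    intro T _
    rw [← mul_sum]
    congr 1
    rw [← Nat.Ioc_filter_dvd_card_eq_div t (∏ p ∈ T, p), card_filter]
    push_cast
    rfl
  rw [sum_congr rfl h2]
  have h3 : ∏ p ∈ S, (u p + w p / p) = ∑ T ∈ S.powerset, (∏ p ∈ T, w p) * (∏ p ∈ S \ T, u p) * (1 / ((∏ p ∈ T, p : ℕ) : ℝ)) := by
    have h4 : ∀ p ∈ S, u p + w p / p = w p / p + u p := fun p _ => add_comm _ _
    rw [prod_congr rfl h4, prod_add]
    refine sum_congr rfl fun T _ => ?_
    rw [prod_div_distrib]
    push_cast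
    ring
  have h4 : ∏ p ∈ S, (u p + w p) = ∑ T ∈ S.powerset, (∏ p ∈ T, w p) * (∏ p ∈ S \ T, u p) := by
    have h5 : ∀ p ∈ S, u p + w p = w p + u p := fun p _ => add_comm _ _
    rw [prod_congr rfl h5, prod_add]
  rw [h3, h4, mul_sum, ← sum_sub_distrib]
  refine (abs_sum_le_sum_abs _ _).trans (sum_le_sum fun T hT => ?_)
  rw [mem_powerset] at hT
  have hc : 0 ≤ (∏ p ∈ T, w p) * (∏ p ∈ S \ T, u p) :=
    mul_nonneg (prod_nonneg fun p hp => hw p (hT hp)) (prod_nonneg fun p hp => hu p (Finset.mem_sdiff.1 hp).1)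
  obtain ⟨c, hcc⟩ : ∃ c, c = (∏ p ∈ T, w p) * (∏ p ∈ S \ T, u p) := ⟨_, rfl⟩
  obtain ⟨Q, hQ⟩ : ∃ Q : ℕ, Q = ∏ p ∈ T, p := ⟨_, rfl⟩
  have hQ0 : 0 < Q := by rw [hQ]; exact prod_pos fun p hp => (hS p (hT hp)).pos
  have hQ0' : (0 : ℝ) < Q := by exact_mod_cast hQ0
  rw [← hcc, ← hQ]
  rw [← hcc] at hc
  have e1 : ((t / Q : ℕ) : ℝ) ≤ (t : ℝ) / Q := Nat.cast_div_le
  have e2 : (t : ℝ) / Q ≤ ((t / Q : ℕ) : ℝ) + 1 := by
    rw [div_le_iff₀ hQ0']
    have h8 := (Nat.lt_mul_div_succ t hQ0).le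
    have h9 : (t : ℝ) ≤ ((Q * (t / Q + 1) : ℕ) : ℝ) := by exact_mod_cast h8
    push_cast at h9
    linarith
  have e3 : c * ((t / Q : ℕ) : ℝ) - t * (c * (1 / (Q : ℝ))) = c * (((t / Q : ℕ) : ℝ) - t / Q) := by ring
  rw [e3, abs_mul, abs_of_nonneg hc]
  have e4 : |((t / Q : ℕ) : ℝ) - t / Q| ≤ 1 := by
    rw [abs_le]
    constructor <;> linarith
  calc c * |((t / Q : ℕ) : ℝ) - t / Q| ≤ c * 1 := mul_le_mul_of_nonneg_left e4 hc
    _ = c := mul_one c

/-- **The average of the number of admissible first terms** over the differences, at every level. -/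
theorem avg (z : ℕ) {k : ℕ} (hk : 1 ≤ k) (t : ℕ) :
    |∑ d ∈ Icc 1 t, (rho z k d : ℝ) / PQ z - t * ((R2 z k : ℝ) / (PQ z : ℝ) ^ 2)| ≤ Vf z := by
  classical
  have h := prod_avg ((range z).filter Nat.Prime) (fun p hp => (mem_filter.1 hp).2) (u := fun p => ((p - k : ℕ) : ℝ) / p)
    (w := fun p => (((p - 1 : ℕ) : ℝ) - ((p - k : ℕ) : ℝ)) / p) (fun p _ => by positivity) (fun p _ => by
      refine div_nonneg ?_ (Nat.cast_nonneg _)
      have h1 : p - k ≤ p - 1 := by omega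
      have h2 : ((p - k : ℕ) : ℝ) ≤ ((p - 1 : ℕ) : ℝ) := by exact_mod_cast h1
      linarith) t
  have h1 : ∀ d ∈ Icc 1 t, (rho z k d : ℝ) / PQ z = ∏ p ∈ (range z).filter Nat.Prime,
      ((fun p : ℕ => ((p - k : ℕ) : ℝ) / p) p + (fun p : ℕ => (((p - 1 : ℕ) : ℝ) - ((p - k : ℕ) : ℝ)) / p) p * (if p ∣ d then 1 else 0)) := by
    intro d _
    rw [rho_eq]
    unfold PQ
    push_cast
    rw [← prod_div_distrib]
    refine prod_congr rfl fun p hp => ?_
    have hp' := (mem_filter.1 hp).2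
    rw [hh_eq hp' hk]
    split_ifs with h2
    · ring
    · ring
  have h2 : ∏ p ∈ (range z).filter Nat.Prime,
      ((fun p : ℕ => ((p - k : ℕ) : ℝ) / p) p + (fun p : ℕ => (((p - 1 : ℕ) : ℝ) - ((p - k : ℕ) : ℝ)) / p) p / p) =
      (R2 z k : ℝ) / (PQ z : ℝ) ^ 2 := by
    rw [R2_eq hk]
    unfold PQ
    push_cast
    rw [← prod_pow, ← prod_div_distrib]
    refine prod_congr rfl fun p hp => ?_
    have hp' := (mem_filter.1 hp).2
    have hp0 : (0 : ℝ) < p := by exact_mod_cast hp'.pos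
    have h3 : ((p - 1 : ℕ) : ℝ) = (p : ℝ) - 1 := by rw [Nat.cast_sub hp'.one_lt.le, Nat.cast_one]
    rw [h3]
    field_simp
    ring
  have h3 : ∏ p ∈ (range z).filter Nat.Prime,
      ((fun p : ℕ => ((p - k : ℕ) : ℝ) / p) p + (fun p : ℕ => (((p - 1 : ℕ) : ℝ) - ((p - k : ℕ) : ℝ)) / p) p) = Vf z := by
    unfold Vf
    refine prod_congr rfl fun p hp => ?_
    have hp' := (mem_filter.1 hp).2
    have hp0 : (0 : ℝ) < p := by exact_mod_cast hp'.pos
    have h3 : ((p - 1 : ℕ) : ℝ) = (p : ℝ) - 1 := by rw [Nat.cast_sub hp'.one_lt.le, Nat.cast_one]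
    simp only [h3]
    field_simp
    ring
  rw [sum_congr rfl h1, ← h2, ← h3]
  exact h

theorem R2_two (z : ℕ) : (R2 z 2 : ℝ) / (PQ z : ℝ) ^ 2 = Vf z ^ 2 := by
  rw [R2_eq (by norm_num)]
  unfold PQ Vf
  push_cast
  rw [← prod_pow, ← prod_div_distrib, ← prod_pow]
  refine prod_congr rfl fun p hp => ?_
  have hp' := (mem_filter.1 hp).2
  have hp0 : (0 : ℝ) < p := by exact_mod_cast hp'.pos
  have h3 : ((p - 1 : ℕ) : ℝ) = (p : ℝ) - 1 := by rw [Nat.cast_sub hp'.one_lt.le, Nat.cast_one]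
  have h4 : ((p - 2 : ℕ) : ℝ) = (p : ℝ) - 2 := by rw [Nat.cast_sub hp'.two_le]; norm_num
  rw [h3, h4]
  field_simp
  ring

/-! ## Windows -/

open Classical in
/-- the indicator of the rough numbers -/
noncomputable def ri (z n : ℕ) : ℝ := if Rough z n then 1 else 0

theorem ri_nonneg (z n : ℕ) : 0 ≤ ri z n := by
  unfold ri
  split_ifs <;> norm_num

theorem ri_sq (z n : ℕ) : ri z n * ri z n = ri z n := by
  unfold ri
  split_ifs <;> norm_num

theorem ri_period (z n : ℕ) : ri z (n + PQ z) = ri z n := by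
  classical
  unfold ri
  have h : Rough z (n + PQ z) ↔ Rough z n := rough_add z n
  simp only [h]

theorem Wf_sum (z a H : ℕ) : (Wf z a H : ℝ) = ∑ h ∈ Icc 1 H, ri z (a + h) := by
  classical
  induction H with
  | zero =>
    unfold Wf
    simp
  | succ H ih =>
    rw [Finset.sum_Icc_succ_top (by omega), ← ih]
    unfold Wf ri Rough
    have h1 : Ioc a (a + (H + 1)) = insert (a + (H + 1)) (Ioc a (a + H)) := by
      ext n
      rw [mem_insert, mem_Ioc, mem_Ioc]
      omega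
    rw [h1, filter_insert]
    split_ifs with h2
    · rw [card_insert_of_notMem]
      · push_cast
        ring
      · rw [mem_filter, mem_Ioc]
        omega
    · simp

/-- the sum of a periodic function over a period -/
theorem sum_shift {g : ℕ → ℝ} {P : ℕ} (hP : 0 < P) (hg : ∀ n, g (n + P) = g n) (m : ℕ) : ∑ n ∈ Ico m (m + P), g n = ∑ n ∈ range P, g n := by
  induction m with
  | zero => rw [zero_add, range_eq_Ico]
  | succ m ih =>
    rw [← ih]
    have h1 : ∑ d ∈ Ico m (m + P), g d = g m + ∑ d ∈ Ico (m + 1) (m + P), g d := by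
      rw [← Finset.sum_eq_sum_Ico_succ_bot (by omega)]
    have h2 : ∑ d ∈ Ico (m + 1) (m + 1 + P), g d = (∑ d ∈ Ico (m + 1) (m + P), g d) + g (m + P) := by
      have h3 : m + 1 + P = (m + P) + 1 := by ring
      rw [h3, Finset.sum_Ico_succ_top (by omega)]
    rw [h1, h2, hg]
    ring

theorem sum_shift' {g : ℕ → ℝ} {P : ℕ} (hP : 0 < P) (hg : ∀ n, g (n + P) = g n) (m : ℕ) : ∑ n ∈ range P, g (n + m) = ∑ n ∈ range P, g n := by
  rw [← sum_shift hP hg m, Finset.sum_Ico_eq_sum_range]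
  simp only [Nat.add_sub_cancel_left]
  exact sum_congr rfl fun n _ => by rw [add_comm]

theorem sum_ri (z m : ℕ) : ∑ n ∈ range (PQ z), ri z (n + m) = Vf z * PQ z := by
  rw [sum_shift' (PQ_pos z) (ri_period z)]
  have h1 := Wf_full z 0 1
  rw [mul_one, Wf_sum] at h1
  rw [← h1, ← sum_shift (PQ_pos z) (ri_period z) 1]
  refine sum_congr ?_ fun n _ => by rw [zero_add]
  ext n
  rw [mem_Ico, mem_Icc]
  omega

/-- the pair correlations -/
theorem sum_ri_pair (z m d : ℕ) : ∑ n ∈ range (PQ z), ri z (n + m) * ri z (n + m + d) = rho z 2 d := by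
  classical
  have h0 := sum_shift' (g := fun n => ri z n * ri z (n + d)) (PQ_pos z) (fun n => by
    have h1 : n + PQ z + d = n + d + PQ z := by ring
    rw [h1, ri_period, ri_period]) m
  refine h0.trans ?_
  unfold rho
  rw [card_filter]
  push_cast
  refine sum_congr rfl fun n _ => ?_
  unfold ri
  have h1 : RP z 2 d n ↔ Rough z n ∧ Rough z (n + d) := by
    unfold RP
    constructor
    · intro h
      have h2 := h 0 (by norm_num)
      have h3 := h 1 (by norm_num)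
      simp only [zero_mul, add_zero, one_mul] at h2 h3
      exact ⟨h2, h3⟩
    · rintro ⟨h2, h3⟩ i hi
      interval_cases i
      · simpa using h2
      · simpa using h3
  by_cases h2 : Rough z n
  · by_cases h3 : Rough z (n + d)
    · rw [if_pos h2, if_pos h3, if_pos (h1.2 ⟨h2, h3⟩)]
      norm_num
    · rw [if_pos h2, if_neg h3, if_neg (fun h => h3 (h1.1 h).2)]
      norm_num
  · rw [if_neg h2, if_neg (fun h => h2 (h1.1 h).1)]
    norm_num

/-- the first moment -/
theorem mom_one (z H : ℕ) : ∑ a ∈ range (PQ z), (Wf z a H : ℝ) = Vf z * PQ z * H := by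
  simp only [Wf_sum]
  rw [sum_comm]
  simp only [sum_ri]
  rw [sum_const, Nat.card_Icc, Nat.add_sub_cancel, nsmul_eq_mul]
  ring

/-- the second moment -/
theorem mom_two (z H : ℕ) : (∑ a ∈ range (PQ z), (Wf z a H : ℝ) ^ 2) / PQ z ≤ (H : ℝ) ^ 2 * Vf z ^ 2 + 3 * H * Vf z := by
  have hP : (0 : ℝ) < PQ z := by exact_mod_cast PQ_pos z
  have hV := Vf_pos z
  induction H with
  | zero =>
    simp [Wf_zero]
  | succ H ih =>
    have h1 : ∀ a, (Wf z a (H + 1) : ℝ) ^ 2 = (Wf z a H : ℝ) ^ 2 + 2 * ∑ h ∈ Icc 1 H, ri z (a + h) * ri z (a + (H + 1)) + ri z (a + (H + 1)) := by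
      intro a
      rw [Wf_sum, Wf_sum, Finset.sum_Icc_succ_top (by omega), ← sum_mul]
      have := ri_sq z (a + (H + 1))
      linear_combination this
    have h2 : ∑ a ∈ range (PQ z), ∑ h ∈ Icc 1 H, ri z (a + h) * ri z (a + (H + 1)) = ∑ d ∈ Icc 1 H, (rho z 2 d : ℝ) := by
      rw [sum_comm]
      refine sum_bij' (fun h _ => H + 1 - h) (fun d _ => H + 1 - d) ?_ ?_ ?_ ?_ ?_
      · intro h hh
        rw [mem_Icc] at hh ⊢
        omega
      · intro h hh
        rw [mem_Icc] at hh ⊢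
        omega
      · intro h hh
        rw [mem_Icc] at hh
        omega
      · intro h hh
        rw [mem_Icc] at hh
        omega
      · intro h hh
        rw [mem_Icc] at hh
        rw [← sum_ri_pair z h]
        refine sum_congr rfl fun n _ => ?_
        congr 2
        omega
    have h3 : ∑ a ∈ range (PQ z), (Wf z a (H + 1) : ℝ) ^ 2 = ∑ a ∈ range (PQ z), (Wf z a H : ℝ) ^ 2 + 2 * ∑ d ∈ Icc 1 H, (rho z 2 d : ℝ) + Vf z * PQ z := by
      simp only [h1]
      rw [sum_add_distrib, sum_add_distrib, ← mul_sum, h2, sum_ri]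
    have h4 := (abs_le.1 (avg z (k := 2) (by norm_num) H)).2
    rw [R2_two, ← sum_div] at h4
    rw [h3, add_div, add_div]
    have h5 : 2 * (∑ d ∈ Icc 1 H, (rho z 2 d : ℝ)) / PQ z = 2 * ((∑ d ∈ Icc 1 H, (rho z 2 d : ℝ)) / PQ z) := by ring
    have h6 : Vf z * PQ z / PQ z = Vf z := by field_simp
    rw [h5, h6]
    push_cast
    have h7 : 0 ≤ Vf z ^ 2 := by positivity
    nlinarith

/-- **The variance.** -/
theorem vari (z H : ℕ) : (∑ a ∈ range (PQ z), ((Wf z a H : ℝ) - Vf z * H) ^ 2) / PQ z ≤ 3 * H * Vf z := by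
  have hP : (0 : ℝ) < PQ z := by exact_mod_cast PQ_pos z
  have h1 : ∑ a ∈ range (PQ z), ((Wf z a H : ℝ) - Vf z * H) ^ 2 =
      ∑ a ∈ range (PQ z), (Wf z a H : ℝ) ^ 2 - 2 * (Vf z * H) * ∑ a ∈ range (PQ z), (Wf z a H : ℝ) + PQ z * (Vf z * H) ^ 2 := by
    have h2 : ∀ a ∈ range (PQ z), ((Wf z a H : ℝ) - Vf z * H) ^ 2 = (Wf z a H : ℝ) ^ 2 - 2 * (Vf z * H) * (Wf z a H : ℝ) + (Vf z * H) ^ 2 :=
      fun a _ => by ring
    rw [sum_congr rfl h2, sum_add_distrib, sum_sub_distrib, ← mul_sum, sum_const, card_range, nsmul_eq_mul]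
  rw [h1, mom_one]
  have h2 := mom_two z H
  have h3 : (∑ a ∈ range (PQ z), (Wf z a H : ℝ) ^ 2 - 2 * (Vf z * H) * (Vf z * PQ z * H) + PQ z * (Vf z * H) ^ 2) / PQ z =
      (∑ a ∈ range (PQ z), (Wf z a H : ℝ) ^ 2) / PQ z - (H : ℝ) ^ 2 * Vf z ^ 2 := by
    field_simp
    ring
  rw [h3]
  linarith

end Pool.Agent.H38.RC
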