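import Pool.Agent.H38.RC.G

/-!
# Counting runs in the sieved models: exponential averages at every level
-/

set_option autoImplicit false

namespace Pool.Agent.H38.RC

open Finset MeasureTheory Filter Pool.Agent.Q120.MG Pool.Agent.Q120.GM Pool.Agent.Q120.CL Pool.Agent.H38.LR
open scoped Topology

/-- comparison of exponentials -/
theorem exp_cmp {x y s : ℝ} (hx : 0 ≤ x) (hy : 0 < y) (hs : 0 < s) :
    |Real.exp (-x) - Real.exp (-y)| ≤ 4 * (x - y) ^ 2 / y ^ 2 + Real.exp (-(y / 2)) * (s / 2 * (x - y) ^ 2 + 1 / (2 * s)) := by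
  have hE : 0 < Real.exp (-(y / 2)) := Real.exp_pos _
  have hams : |x - y| ≤ s / 2 * (x - y) ^ 2 + 1 / (2 * s) := by
    have h1 : 0 ≤ (s * |x - y| - 1) ^ 2 := sq_nonneg _
    have h2 : |x - y| ^ 2 = (x - y) ^ 2 := sq_abs _
    have h3 : s / 2 * (x - y) ^ 2 + 1 / (2 * s) - |x - y| = (s * |x - y| - 1) ^ 2 / (2 * s) := by
      rw [← h2]
      field_simp
      ring
    have h4 : 0 ≤ (s * |x - y| - 1) ^ 2 / (2 * s) := by positivity
    linarith
  have h0 : 0 ≤ s / 2 * (x - y) ^ 2 + 1 / (2 * s) := le_trans (abs_nonneg _) hams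
  rcases lt_or_ge x (y / 2) with h | h
  · have h1 : |Real.exp (-x) - Real.exp (-y)| ≤ 1 := by
      rw [abs_le]
      have e1 : Real.exp (-x) ≤ 1 := by rw [Real.exp_le_one_iff]; linarith
      have e2 : Real.exp (-y) ≤ 1 := by rw [Real.exp_le_one_iff]; linarith
      have e3 := Real.exp_pos (-x)
      have e4 := Real.exp_pos (-y)
      constructor <;> linarith
    have h2 : 1 ≤ 4 * (x - y) ^ 2 / y ^ 2 := by
      rw [le_div_iff₀ (by positivity)]
      nlinarith
    have h3 := mul_nonneg hE.le h0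
    linarith
  · have h1 : |Real.exp (-x) - Real.exp (-y)| ≤ Real.exp (-(y / 2)) * |x - y| := by
      rcases le_total x y with hxy | hxy
      · have e1 : Real.exp (-y) ≤ Real.exp (-x) := by rw [Real.exp_le_exp]; linarith
        rw [abs_of_nonneg (by linarith), abs_of_nonpos (by linarith)]
        have e2 : Real.exp (-y) = Real.exp (-x) * Real.exp (-(y - x)) := by rw [← Real.exp_add]; congr 1; ring
        have e3 := Real.one_sub_le_exp_neg (y - x)
        have e4 : Real.exp (-x) ≤ Real.exp (-(y / 2)) := by rw [Real.exp_le_exp]; linarith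
        rw [e2]
        calc Real.exp (-x) - Real.exp (-x) * Real.exp (-(y - x)) = Real.exp (-x) * (1 - Real.exp (-(y - x))) := by ring
          _ ≤ Real.exp (-x) * (y - x) := mul_le_mul_of_nonneg_left (by linarith) (Real.exp_pos _).le
          _ ≤ Real.exp (-(y / 2)) * (y - x) := mul_le_mul_of_nonneg_right e4 (by linarith)
          _ = _ := by ring
      · have e1 : Real.exp (-x) ≤ Real.exp (-y) := by rw [Real.exp_le_exp]; linarith
        rw [abs_of_nonpos (by linarith), abs_of_nonneg (by linarith)]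
        have e2 : Real.exp (-x) = Real.exp (-y) * Real.exp (-(x - y)) := by rw [← Real.exp_add]; congr 1; ring
        have e3 := Real.one_sub_le_exp_neg (x - y)
        have e4 : Real.exp (-y) ≤ Real.exp (-(y / 2)) := by rw [Real.exp_le_exp]; linarith
        rw [e2]
        calc -(Real.exp (-y) * Real.exp (-(x - y)) - Real.exp (-y)) = Real.exp (-y) * (1 - Real.exp (-(x - y))) := by ring
          _ ≤ Real.exp (-y) * (x - y) := mul_le_mul_of_nonneg_left (by linarith) (Real.exp_pos _).le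
          _ ≤ Real.exp (-(y / 2)) * (x - y) := mul_le_mul_of_nonneg_right e4 (by linarith)
    have h2 := mul_le_mul_of_nonneg_left hams hE.le
    have h3 : 0 ≤ 4 * (x - y) ^ 2 / y ^ 2 := by positivity
    linarith

/-- the sum of a periodic function over an interval -/
theorem per_sum {g : ℕ → ℝ} {P : ℕ} (hP : 0 < P) (hg : ∀ n, g (n + P) = g n) (h0 : ∀ n, 0 ≤ g n) (h1 : ∀ n, g n ≤ 1)
    {α y : ℕ} (h : α ≤ y) :
    ((y : ℝ) - α) * ((∑ n ∈ range P, g n) / P) - P ≤ ∑ n ∈ Ico α y, g n ∧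
      ∑ n ∈ Ico α y, g n ≤ ((y : ℝ) - α) * ((∑ n ∈ range P, g n) / P) + P := by
  obtain ⟨L, rfl⟩ : ∃ L, y = α + L := ⟨y - α, by omega⟩
  have hP' : (0 : ℝ) < P := by exact_mod_cast hP
  obtain ⟨c, hc⟩ : ∃ c, c = ∑ n ∈ range P, g n := ⟨_, rfl⟩
  have hc0 : 0 ≤ c := by rw [hc]; exact sum_nonneg fun n _ => h0 n
  have hcP : c ≤ P := by
    rw [hc]
    refine (sum_le_sum fun n _ => h1 n).trans ?_
    rw [sum_const, card_range, nsmul_eq_mul, mul_one]
  have hmul : ∀ q : ℕ, ∑ n ∈ Ico α (α + q * P), g n = q * c := by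
    intro q
    induction q with
    | zero => simp
    | succ q ih =>
      rw [← Finset.sum_Ico_consecutive g (m := α) (n := α + q * P) (k := α + (q + 1) * P) (by omega) (by nlinarith), ih]
      have e1 : α + (q + 1) * P = (α + q * P) + P := by ring
      rw [e1, sum_shift hP hg, ← hc]
      push_cast
      ring
  have hmono : ∀ a b : ℕ, a ≤ b → ∑ n ∈ Ico α a, g n ≤ ∑ n ∈ Ico α b, g n := fun a b hab =>
    sum_le_sum_of_subset_of_nonneg (Ico_subset_Ico_right hab) fun n _ _ => h0 n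
  have e1 := hmono (α + (L / P) * P) (α + L) (by have := Nat.div_mul_le_self L P; omega)
  have e2 := hmono (α + L) (α + (L / P + 1) * P) (by
    have := Nat.lt_mul_div_succ L hP
    have h3 : (L / P + 1) * P = P * (L / P + 1) := by ring
    omega)
  rw [hmul] at e1 e2
  push_cast at e2
  have h6 : ((L / P : ℕ) : ℝ) ≤ L / P := Nat.cast_div_le
  have h7 : (L : ℝ) / P ≤ ((L / P : ℕ) : ℝ) + 1 := by
    rw [div_le_iff₀ hP']
    have h8 := (Nat.lt_mul_div_succ L hP).le
    have h9 : (L : ℝ) ≤ ((P * (L / P + 1) : ℕ) : ℝ) := by exact_mod_cast h8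
    push_cast at h9
    linarith
  have e3 : (((α + L : ℕ) : ℝ) - α) * (c / P) = (L : ℝ) / P * c := by
    push_cast
    ring
  rw [← hc, e3]
  constructor
  · have := mul_le_mul_of_nonneg_right h7 hc0
    linarith
  · have := mul_le_mul_of_nonneg_right h6 hc0
    linarith

/-- the number of rough numbers in `[n, n + (k - 1) d]`, periodic in `n` -/
noncomputable def Wn (z k d n : ℕ) : ℝ := Wf z (n + (PQ z - 1)) ((k - 1) * d + 1)

theorem Wn_eq {z k d n : ℕ} (hn : 1 ≤ n) : Wn z k d n = Wf z (n - 1) ((k - 1) * d + 1) := by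
  unfold Wn
  have hP := PQ_pos z
  have h1 : n + (PQ z - 1) = (n - 1) + PQ z := by omega
  rw [h1, Wf_period]

theorem Wn_nonneg (z k d n : ℕ) : 0 ≤ Wn z k d n := Nat.cast_nonneg _

open Classical in
/-- the weight of the first term `n` -/
noncomputable def gw (z k d : ℕ) (b : ℝ) (n : ℕ) : ℝ := if RP z k d n then Real.exp (-(b * Wn z k d n)) else 0

theorem gw_nonneg (z k d : ℕ) (b : ℝ) (n : ℕ) : 0 ≤ gw z k d b n := by
  unfold gw
  split_ifs
  · exact (Real.exp_pos _).le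
  · exact le_rfl

theorem gw_le_one (z k d : ℕ) {b : ℝ} (hb : 0 ≤ b) (n : ℕ) : gw z k d b n ≤ 1 := by
  unfold gw
  split_ifs
  · rw [Real.exp_le_one_iff]
    have := mul_nonneg hb (Wn_nonneg z k d n)
    linarith
  · exact zero_le_one

theorem gw_period (z k d : ℕ) (b : ℝ) (n : ℕ) : gw z k d b (n + PQ z) = gw z k d b n := by
  classical
  unfold gw
  have h1 : RP z k d (n + PQ z) ↔ RP z k d n := by
    have := RP_periodic z k d n
    simpa using this
  have h2 : Wn z k d (n + PQ z) = Wn z k d n := by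
    unfold Wn
    have h3 : n + PQ z + (PQ z - 1) = (n + (PQ z - 1)) + PQ z := by ring
    rw [h3, Wf_period]
  simp only [h1, h2]

/-- the average of the weights -/
noncomputable def Fw (z k d : ℕ) (b : ℝ) : ℝ := (∑ n ∈ range (PQ z), gw z k d b n) / PQ z

theorem Fw_near (z k d : ℕ) {b s : ℝ} (hb : 0 < b) (hs : 0 < s) {H : ℝ} (hH : H = ((k - 1) * d + 1 : ℕ)) :
    |Fw z k d b - (rho z k d : ℝ) / PQ z * Real.exp (-(b * (Vf z * H)))| ≤
      12 / (Vf z * H) + Real.exp (-(b * (Vf z * H) / 2)) * (s / 2 * (b ^ 2 * (3 * H * Vf z)) + 1 / (2 * s)) := by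
  classical
  have hP : (0 : ℝ) < PQ z := by exact_mod_cast PQ_pos z
  have hV := Vf_pos z
  have hH0 : 0 < H := by rw [hH]; positivity
  obtain ⟨y, hy⟩ : ∃ y, y = b * (Vf z * H) := ⟨_, rfl⟩
  have hy0 : 0 < y := by rw [hy]; positivity
  have h1 : Fw z k d b - (rho z k d : ℝ) / PQ z * Real.exp (-y) = (∑ n ∈ range (PQ z), (gw z k d b n - (if RP z k d n then (1 : ℝ) else 0) * Real.exp (-y))) / PQ z := by
    unfold Fw rho
    rw [sum_sub_distrib, ← sum_mul, card_filter]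
    push_cast
    ring
  have h2 : ∀ n ∈ range (PQ z), |gw z k d b n - (if RP z k d n then (1 : ℝ) else 0) * Real.exp (-y)| ≤
      (4 * b ^ 2 / y ^ 2 + Real.exp (-(y / 2)) * (s / 2) * b ^ 2) * (Wn z k d n - Vf z * H) ^ 2 + Real.exp (-(y / 2)) * (1 / (2 * s)) := by
    intro n _
    have e1 := exp_cmp (x := b * Wn z k d n) (mul_nonneg hb.le (Wn_nonneg z k d n)) hy0 hs
    have e2 : b * Wn z k d n - y = b * (Wn z k d n - Vf z * H) := by rw [hy]; ring
    rw [e2, mul_pow] at e1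
    have e3 : 4 * (b ^ 2 * (Wn z k d n - Vf z * H) ^ 2) / y ^ 2 + Real.exp (-(y / 2)) * (s / 2 * (b ^ 2 * (Wn z k d n - Vf z * H) ^ 2) + 1 / (2 * s)) =
        (4 * b ^ 2 / y ^ 2 + Real.exp (-(y / 2)) * (s / 2) * b ^ 2) * (Wn z k d n - Vf z * H) ^ 2 + Real.exp (-(y / 2)) * (1 / (2 * s)) := by
      ring
    rw [e3] at e1
    unfold gw
    split_ifs with h3
    · rw [one_mul]
      exact e1
    · rw [zero_mul, sub_zero, abs_zero]
      exact le_trans (abs_nonneg _) e1
  have h3 : (∑ n ∈ range (PQ z), (Wn z k d n - Vf z * H) ^ 2) / PQ z ≤ 3 * H * Vf z := by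
    have e1 := vari z ((k - 1) * d + 1)
    rw [← hH] at e1
    refine le_trans (le_of_eq ?_) e1
    congr 1
    unfold Wn
    refine sum_shift' (g := fun a => ((Wf z a ((k - 1) * d + 1) : ℝ) - Vf z * H) ^ 2) (PQ_pos z) (fun n => ?_) (PQ z - 1)
    simp only [Wf_period]
  rw [← hy, h1, abs_div, abs_of_pos hP]
  have h4 : |∑ n ∈ range (PQ z), (gw z k d b n - (if RP z k d n then (1 : ℝ) else 0) * Real.exp (-y))| ≤
      (4 * b ^ 2 / y ^ 2 + Real.exp (-(y / 2)) * (s / 2) * b ^ 2) * ∑ n ∈ range (PQ z), (Wn z k d n - Vf z * H) ^ 2 +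
        PQ z * (Real.exp (-(y / 2)) * (1 / (2 * s))) := by
    refine (abs_sum_le_sum_abs _ _).trans ((sum_le_sum h2).trans ?_)
    rw [sum_add_distrib, ← mul_sum, sum_const, card_range, nsmul_eq_mul]
  have h5 := div_le_div_of_nonneg_right h4 hP.le
  refine h5.trans ?_
  have h6 : ((4 * b ^ 2 / y ^ 2 + Real.exp (-(y / 2)) * (s / 2) * b ^ 2) * ∑ n ∈ range (PQ z), (Wn z k d n - Vf z * H) ^ 2 +
        PQ z * (Real.exp (-(y / 2)) * (1 / (2 * s)))) / PQ z =
      (4 * b ^ 2 / y ^ 2 + Real.exp (-(y / 2)) * (s / 2) * b ^ 2) * ((∑ n ∈ range (PQ z), (Wn z k d n - Vf z * H) ^ 2) / PQ z) +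
        Real.exp (-(y / 2)) * (1 / (2 * s)) := by
    field_simp
  rw [h6]
  have h7 : 0 ≤ 4 * b ^ 2 / y ^ 2 + Real.exp (-(y / 2)) * (s / 2) * b ^ 2 := by positivity
  have h8 := mul_le_mul_of_nonneg_left h3 h7
  have h9 : 4 * b ^ 2 / y ^ 2 * (3 * H * Vf z) = 12 / (Vf z * H) := by
    rw [hy]
    field_simp
    norm_num
  have h10 : (4 * b ^ 2 / y ^ 2 + Real.exp (-(y / 2)) * (s / 2) * b ^ 2) * (3 * H * Vf z) =
      4 * b ^ 2 / y ^ 2 * (3 * H * Vf z) + Real.exp (-(y / 2)) * (s / 2 * (b ^ 2 * (3 * H * Vf z))) := by ring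
  rw [h10, h9] at h8
  linarith

/-- sums of exponentials -/
theorem exp_sum {c : ℝ} (hc : 0 < c) (D : ℕ) : ∑ d ∈ Icc 1 D, Real.exp (-(d / c)) ≤ c := by
  have h : ∀ D : ℕ, ∑ d ∈ Icc 1 D, Real.exp (-((d : ℝ) / c)) ≤ c * (1 - Real.exp (-((D : ℝ) / c))) := by
    intro D
    induction D with
    | zero => simp
    | succ D ih =>
      rw [Finset.sum_Icc_succ_top (by omega)]
      have e1 : Real.exp (-(((D : ℕ) : ℝ) / c)) = Real.exp (-(((D + 1 : ℕ) : ℝ) / c)) * Real.exp (1 / c) := by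
        rw [← Real.exp_add]
        congr 1
        push_cast
        field_simp
        ring
      have e2 := Real.add_one_le_exp (1 / c)
      have e3 := Real.exp_pos (-(((D + 1 : ℕ) : ℝ) / c))
      rw [e1] at ih
      have e4 : Real.exp (-(((D + 1 : ℕ) : ℝ) / c)) ≤ c * (Real.exp (-(((D + 1 : ℕ) : ℝ) / c)) * Real.exp (1 / c)) - c * Real.exp (-(((D + 1 : ℕ) : ℝ) / c)) := by
        have e5 : c * (Real.exp (-(((D + 1 : ℕ) : ℝ) / c)) * Real.exp (1 / c)) - c * Real.exp (-(((D + 1 : ℕ) : ℝ) / c)) =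
            Real.exp (-(((D + 1 : ℕ) : ℝ) / c)) * (c * (Real.exp (1 / c) - 1)) := by ring
        rw [e5]
        have e6 : 1 ≤ c * (Real.exp (1 / c) - 1) := by
          have e7 : c * (1 / c) ≤ c * (Real.exp (1 / c) - 1) := mul_le_mul_of_nonneg_left (by linarith) hc.le
          rwa [mul_one_div_cancel hc.ne'] at e7
        nlinarith
      linarith
  have h1 := h D
  have h2 := mul_nonneg hc.le (Real.exp_pos (-((D : ℝ) / c))).le
  linarith

/-- summation by parts -/
theorem abel {x b : ℕ → ℝ} {E : ℝ} (hx : ∀ t, |∑ d ∈ Icc 1 t, x d| ≤ E) (hb0 : ∀ d, 0 ≤ b d) (hb : ∀ d, b (d + 1) ≤ b d) (D : ℕ) :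
    |∑ d ∈ Icc 1 D, x d * b d| ≤ E * b 0 := by
  have h : ∀ D : ℕ, |∑ d ∈ Icc 1 D, x d * b d - (∑ d ∈ Icc 1 D, x d) * b D| ≤ E * (b 0 - b D) := by
    intro D
    induction D with
    | zero => simp
    | succ D ih =>
      rw [Finset.sum_Icc_succ_top (by omega), Finset.sum_Icc_succ_top (by omega)]
      have e1 : ∑ d ∈ Icc 1 D, x d * b d + x (D + 1) * b (D + 1) - (∑ d ∈ Icc 1 D, x d + x (D + 1)) * b (D + 1) =
          (∑ d ∈ Icc 1 D, x d * b d - (∑ d ∈ Icc 1 D, x d) * b D) + (∑ d ∈ Icc 1 D, x d) * (b D - b (D + 1)) := by ring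
      rw [e1]
      refine (abs_add_le _ _).trans ?_
      rw [abs_mul, abs_of_nonneg (show 0 ≤ b D - b (D + 1) by linarith [hb D])]
      have e2 := mul_le_mul_of_nonneg_right (hx D) (show 0 ≤ b D - b (D + 1) by linarith [hb D])
      linarith
  have h1 := h D
  have h2 : |(∑ d ∈ Icc 1 D, x d) * b D| ≤ E * b D := by
    rw [abs_mul, abs_of_nonneg (hb0 D)]
    exact mul_le_mul_of_nonneg_right (hx D) (hb0 D)
  have h3 : ∑ d ∈ Icc 1 D, x d * b d = (∑ d ∈ Icc 1 D, x d * b d - (∑ d ∈ Icc 1 D, x d) * b D) + (∑ d ∈ Icc 1 D, x d) * b D := by ring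
  rw [h3]
  refine (abs_add_le _ _).trans ?_
  linarith

end Pool.Agent.H38.RC
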