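import Pool.Agent.H38.RC.H
import Pool.Agent.H38.RC.C

/-!
# Counting runs in the sieved models: the central limit relation at every level
-/

set_option autoImplicit false

namespace Pool.Agent.H38.RC

open Finset MeasureTheory Filter Pool.Agent.Q120.MG Pool.Agent.Q120.GM Pool.Agent.Q120.CL Pool.Agent.H38.LR
open scoped Topology

/-- the exponential sum over the differences -/
noncomputable def SS (a : ℝ) (D : ℕ) : ℝ := ∑ d ∈ Icc 1 D, Real.exp (-(a * d))

theorem SS_GG (a : ℝ) (D : ℕ) : SS a D = Real.exp (-a) * GG a 1 D := by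
  unfold SS GG
  rw [mul_sum, range_eq_Ico]
  have h1 : Icc 1 D = Ico (0 + 1) (D + 1) := by
    ext n
    rw [mem_Icc, mem_Ico]
    omega
  rw [h1, ← Finset.sum_Ico_add' (fun d : ℕ => Real.exp (-(a * d))) 0 D 1]
  refine sum_congr rfl fun d _ => ?_
  rw [← Real.exp_add]
  congr 1
  push_cast
  ring

theorem sum_inv (D : ℕ) : ∑ d ∈ Icc 1 D, 1 / (d : ℝ) ≤ 1 + Real.log D := by
  have h := harmonic_le_one_add_log D
  rw [harmonic_eq_sum_Icc] at h
  push_cast at h
  simpa only [one_div] using h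

/-- **The sum over the differences of the averages of the weights.** -/
theorem Fw_sum (z D : ℕ) {k : ℕ} (hk : 2 ≤ k) {Y s : ℝ} (hY : 0 < Y) (hs : 0 < s) :
    |∑ d ∈ Icc 1 D, Fw z k d (1 / (Vf z * Y)) - Real.exp (-(1 / Y)) * ((R2 z k : ℝ) / (PQ z : ℝ) ^ 2 * SS (((k : ℝ) - 1) / Y) D)| ≤
      12 * (1 + Real.log D) / Vf z + 24 * s / Vf z + Y / s + Vf z := by
  have hP : (0 : ℝ) < PQ z := by exact_mod_cast PQ_pos z
  have hV := Vf_pos z
  have hk' : (2 : ℝ) ≤ k := by exact_mod_cast hk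
  obtain ⟨H, hH⟩ : ∃ H : ℕ → ℝ, H = fun d => (((k - 1) * d + 1 : ℕ) : ℝ) := ⟨_, rfl⟩
  have hH' : ∀ d : ℕ, H d = ((k : ℝ) - 1) * d + 1 := by
    intro d
    rw [hH]
    push_cast [Nat.cast_sub (show 1 ≤ k by omega)]
    ring
  have hHd : ∀ d : ℕ, (d : ℝ) ≤ H d := by
    intro d
    rw [hH' d]
    have : (0 : ℝ) ≤ d := Nat.cast_nonneg _
    nlinarith
  have hH0 : ∀ d : ℕ, 0 < H d := by
    intro d
    rw [hH' d]
    have : (0 : ℝ) ≤ d := Nat.cast_nonneg _
    nlinarith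
  have hb : 0 < 1 / (Vf z * Y) := by positivity
  have hbV : ∀ d : ℕ, 1 / (Vf z * Y) * (Vf z * H d) = H d / Y := by
    intro d
    field_simp
  -- the exponential averages
  have h1 : ∀ d ∈ Icc 1 D, |Fw z k d (1 / (Vf z * Y)) - (rho z k d : ℝ) / PQ z * Real.exp (-(H d / Y))| ≤
      12 / Vf z * (1 / (d : ℝ)) + 6 * s / (Vf z * Y) * Real.exp (-((d : ℝ) / (4 * Y))) + 1 / (2 * s) * Real.exp (-((d : ℝ) / (2 * Y))) := by
    intro d hd
    rw [mem_Icc] at hd
    have hd0 : (0 : ℝ) < d := by exact_mod_cast hd.1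
    have e1 := Fw_near z k d hb hs (H := H d) (by rw [hH])
    rw [hbV] at e1
    have e2 : 12 / (Vf z * H d) ≤ 12 / Vf z * (1 / (d : ℝ)) := by
      rw [div_mul_div_comm, mul_one]
      exact div_le_div_of_nonneg_left (by norm_num) (by positivity) (mul_le_mul_of_nonneg_left (hHd d) hV.le)
    have e3 : Real.exp (-(H d / Y / 2)) * (s / 2 * ((1 / (Vf z * Y)) ^ 2 * (3 * H d * Vf z)) + 1 / (2 * s)) ≤
        6 * s / (Vf z * Y) * Real.exp (-((d : ℝ) / (4 * Y))) + 1 / (2 * s) * Real.exp (-((d : ℝ) / (2 * Y))) := by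
      have e4 : Real.exp (-(H d / Y / 2)) * H d ≤ 4 * Y * Real.exp (-((d : ℝ) / (4 * Y))) := by
        have e5 : H d / (4 * Y) ≤ Real.exp (H d / (4 * Y)) := by
          have := Real.add_one_le_exp (H d / (4 * Y))
          linarith
        rw [div_le_iff₀ (by positivity)] at e5
        have e6 : Real.exp (-(H d / Y / 2)) = Real.exp (-(H d / (4 * Y))) * Real.exp (-(H d / (4 * Y))) := by
          rw [← Real.exp_add]
          congr 1
          field_simp
          ring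
        have e7 : Real.exp (-(H d / (4 * Y))) * Real.exp (H d / (4 * Y)) = 1 := by rw [← Real.exp_add, neg_add_cancel, Real.exp_zero]
        have e8 : Real.exp (-(H d / (4 * Y))) ≤ Real.exp (-((d : ℝ) / (4 * Y))) := by
          rw [Real.exp_le_exp, neg_le_neg_iff]
          exact div_le_div_of_nonneg_right (hHd d) (by positivity)
        have e9 := Real.exp_pos (-(H d / (4 * Y)))
        calc Real.exp (-(H d / Y / 2)) * H d ≤ Real.exp (-(H d / Y / 2)) * (Real.exp (H d / (4 * Y)) * (4 * Y)) :=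
              mul_le_mul_of_nonneg_left e5 (Real.exp_pos _).le
          _ = 4 * Y * Real.exp (-(H d / (4 * Y))) * (Real.exp (-(H d / (4 * Y))) * Real.exp (H d / (4 * Y))) := by rw [e6]; ring
          _ = 4 * Y * Real.exp (-(H d / (4 * Y))) := by rw [e7, mul_one]
          _ ≤ 4 * Y * Real.exp (-((d : ℝ) / (4 * Y))) := mul_le_mul_of_nonneg_left e8 (by positivity)
      have e5 : Real.exp (-(H d / Y / 2)) ≤ Real.exp (-((d : ℝ) / (2 * Y))) := by
        rw [Real.exp_le_exp, neg_le_neg_iff, div_div, mul_comm Y 2]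
        exact div_le_div_of_nonneg_right (hHd d) (by positivity)
      have e6 : Real.exp (-(H d / Y / 2)) * (s / 2 * ((1 / (Vf z * Y)) ^ 2 * (3 * H d * Vf z)) + 1 / (2 * s)) =
          3 * s / (2 * Vf z * Y ^ 2) * (Real.exp (-(H d / Y / 2)) * H d) + 1 / (2 * s) * Real.exp (-(H d / Y / 2)) := by
        field_simp
      rw [e6]
      have e7 := mul_le_mul_of_nonneg_left e4 (show 0 ≤ 3 * s / (2 * Vf z * Y ^ 2) by positivity)
      have e8 := mul_le_mul_of_nonneg_left e5 (show 0 ≤ 1 / (2 * s) by positivity)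
      have e9 : 3 * s / (2 * Vf z * Y ^ 2) * (4 * Y * Real.exp (-((d : ℝ) / (4 * Y)))) = 6 * s / (Vf z * Y) * Real.exp (-((d : ℝ) / (4 * Y))) := by
        field_simp
        ring
      linarith
    linarith
  have h2 : |∑ d ∈ Icc 1 D, (Fw z k d (1 / (Vf z * Y)) - (rho z k d : ℝ) / PQ z * Real.exp (-(H d / Y)))| ≤
      12 * (1 + Real.log D) / Vf z + 24 * s / Vf z + Y / s := by
    refine (abs_sum_le_sum_abs _ _).trans ((sum_le_sum h1).trans ?_)
    rw [sum_add_distrib, sum_add_distrib, ← mul_sum, ← mul_sum, ← mul_sum]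
    have e1 := mul_le_mul_of_nonneg_left (sum_inv D) (show 0 ≤ 12 / Vf z by positivity)
    have e2 := mul_le_mul_of_nonneg_left (exp_sum (show 0 < 4 * Y by positivity) D) (show 0 ≤ 6 * s / (Vf z * Y) by positivity)
    have e3 := mul_le_mul_of_nonneg_left (exp_sum (show 0 < 2 * Y by positivity) D) (show 0 ≤ 1 / (2 * s) by positivity)
    have e4 : 6 * s / (Vf z * Y) * (4 * Y) = 24 * s / Vf z := by
      field_simp
      ring
    have e5 : 1 / (2 * s) * (2 * Y) = Y / s := by field_simp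
    have e6 : 12 / Vf z * (1 + Real.log D) = 12 * (1 + Real.log D) / Vf z := by ring
    rw [e4] at e2
    rw [e5] at e3
    rw [e6] at e1
    linarith
  -- summation by parts
  have h3 := abel (x := fun d => (rho z k d : ℝ) / PQ z - (R2 z k : ℝ) / (PQ z : ℝ) ^ 2) (b := fun d => Real.exp (-(((k : ℝ) - 1) / Y * d)))
    (E := Vf z) (fun t => by
      rw [sum_sub_distrib, sum_const, Nat.card_Icc, Nat.add_sub_cancel, nsmul_eq_mul]
      exact avg z (by omega) t) (fun d => (Real.exp_pos _).le) (fun d => by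
      rw [Real.exp_le_exp]
      push_cast
      have : 0 ≤ ((k : ℝ) - 1) / Y := div_nonneg (by linarith) hY.le
      nlinarith) D
  simp only [Nat.cast_zero, mul_zero, neg_zero, Real.exp_zero, mul_one] at h3
  have h4 : ∑ d ∈ Icc 1 D, Fw z k d (1 / (Vf z * Y)) - Real.exp (-(1 / Y)) * ((R2 z k : ℝ) / (PQ z : ℝ) ^ 2 * SS (((k : ℝ) - 1) / Y) D) =
      ∑ d ∈ Icc 1 D, (Fw z k d (1 / (Vf z * Y)) - (rho z k d : ℝ) / PQ z * Real.exp (-(H d / Y))) +
        Real.exp (-(1 / Y)) * ∑ d ∈ Icc 1 D, ((rho z k d : ℝ) / PQ z - (R2 z k : ℝ) / (PQ z : ℝ) ^ 2) * Real.exp (-(((k : ℝ) - 1) / Y * d)) := by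
    unfold SS
    rw [sum_sub_distrib]
    have e1 : ∑ d ∈ Icc 1 D, (rho z k d : ℝ) / PQ z * Real.exp (-(H d / Y)) =
        Real.exp (-(1 / Y)) * ∑ d ∈ Icc 1 D, (rho z k d : ℝ) / PQ z * Real.exp (-(((k : ℝ) - 1) / Y * d)) := by
      rw [mul_sum]
      refine sum_congr rfl fun d _ => ?_
      have e2 : Real.exp (-(H d / Y)) = Real.exp (-(1 / Y)) * Real.exp (-(((k : ℝ) - 1) / Y * d)) := by
        rw [← Real.exp_add, hH' d]
        congr 1
        field_simp
        ring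
      rw [e2]
      ring
    have e2 : ∑ d ∈ Icc 1 D, ((rho z k d : ℝ) / PQ z - (R2 z k : ℝ) / (PQ z : ℝ) ^ 2) * Real.exp (-(((k : ℝ) - 1) / Y * d)) =
        ∑ d ∈ Icc 1 D, (rho z k d : ℝ) / PQ z * Real.exp (-(((k : ℝ) - 1) / Y * d)) -
          (R2 z k : ℝ) / (PQ z : ℝ) ^ 2 * ∑ d ∈ Icc 1 D, Real.exp (-(((k : ℝ) - 1) / Y * d)) := by
      rw [mul_sum, ← sum_sub_distrib]
      exact sum_congr rfl fun d _ => by ring
    rw [e1, e2]
    ring
  rw [h4]
  refine (abs_add_le _ _).trans ?_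
  rw [abs_mul, abs_of_pos (Real.exp_pos _)]
  have h5 : Real.exp (-(1 / Y)) ≤ 1 := by
    rw [Real.exp_le_one_iff]
    have : 0 < 1 / Y := by positivity
    linarith
  have h6 := mul_le_mul h5 h3 (abs_nonneg _) zero_le_one
  linarith

/-- the error is small -/
theorem err_lim {z D : ℕ → ℕ} (hz : ∀ᶠ j : ℕ in atTop, z j ≤ j) (k : ℕ) {Y : ℕ → ℝ}
    (hY : ∀ᶠ j : ℕ in atTop, 0 < Y j ∧ Y j ≤ 2 * j) (hD : ∀ᶠ j : ℕ in atTop, D j ≤ j ^ 3) :
    Tendsto (fun j : ℕ => 1 / ((j : ℝ) * Real.log 2) * (1 / Vf (z j)) ^ k *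
      (12 * (1 + Real.log (D j)) / Vf (z j) + 24 * Real.sqrt j / Vf (z j) + Y j / Real.sqrt j + Vf (z j))) atTop (𝓝 0) := by
  obtain ⟨C', hC', hV'⟩ := Vf_ge
  obtain ⟨C, hC⟩ : ∃ C, C = C' + 1 := ⟨_, rfl⟩
  have hC1 : 1 ≤ C := by linarith
  have h1 : Tendsto (fun j : ℕ => 200 * C ^ (k + 2) * (Real.log j ^ (k + 2) / (j : ℝ) ^ (1 / 2 : ℝ))) atTop (𝓝 0) := by
    have h2 := (isLittleO_log_rpow_rpow_atTop ((k + 2 : ℕ) : ℝ) (show (0 : ℝ) < 1 / 2 by norm_num)).tendsto_div_nhds_zero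
    have h3 := (h2.comp (tendsto_natCast_atTop_atTop (R := ℝ))).const_mul (200 * C ^ (k + 2))
    rw [mul_zero] at h3
    refine h3.congr fun j => ?_
    simp only [Function.comp]
    rw [Real.rpow_natCast]
  refine tendsto_of_tendsto_of_tendsto_of_le_of_le' tendsto_const_nhds h1 ?_ ?_
  · filter_upwards [hY, hD, eventually_ge_atTop 1] with j g1 g2 hj
    have hV := Vf_pos (z j)
    have hl := hl2
    have hj1 : (1 : ℝ) ≤ j := by exact_mod_cast hj
    have := Real.log_natCast_nonneg (D j)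
    have := g1.1
    positivity
  · filter_upwards [hY, hD, hV', hz, log_large 1, eventually_ge_atTop 1] with j g1 g2 g3 g4 g5 hj
    have hV := Vf_pos (z j)
    have hV1 := Vf_le_one (z j)
    have hj1 : (1 : ℝ) ≤ j := by exact_mod_cast hj
    have hl2' : 0.69 < Real.log 2 := by linarith [Real.log_two_gt_d9]
    obtain ⟨L, hL⟩ : ∃ L, L = Real.log j := ⟨_, rfl⟩
    rw [← hL] at g5 ⊢
    obtain ⟨r, hr⟩ : ∃ r, r = Real.sqrt j := ⟨_, rfl⟩
    have hr0 : 1 ≤ r := by rw [hr]; exact Real.one_le_sqrt.2 hj1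
    have hr2 : r * r = j := by rw [hr]; exact Real.mul_self_sqrt (by linarith)
    have hrr : (j : ℝ) ^ (1 / 2 : ℝ) = r := by rw [hr, Real.sqrt_eq_rpow]
    rw [hrr, ← hr]
    have e1 : 1 / Vf (z j) ≤ C * L := by
      refine (g3 (z j) g4).trans ?_
      rw [← hL, hC]
      nlinarith
    have e0 : 0 ≤ 1 / Vf (z j) := by positivity
    have hCL : 1 ≤ C * L := by nlinarith
    have e2 : Real.log (D j) ≤ 3 * L := by
      rcases Nat.eq_zero_or_pos (D j) with h0 | h0
      · rw [h0, Nat.cast_zero, Real.log_zero]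
        linarith
      · have h2 : (D j : ℝ) ≤ (j : ℝ) ^ 3 := by exact_mod_cast g2
        have h3 := Real.log_le_log (by exact_mod_cast h0) h2
        rw [Real.log_pow] at h3
        rw [hL]
        exact_mod_cast h3
    have e2' : 0 ≤ Real.log (D j) := Real.log_natCast_nonneg _
    have e3 : L ≤ 2 * r := by
      have h2 := Real.log_le_sub_one_of_pos (show 0 < r by linarith)
      have h3 : L = 2 * Real.log r := by
        rw [hL, ← hr2, Real.log_mul (by linarith) (by linarith)]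
        ring
      linarith
    -- the terms
    have f1 : 12 * (1 + Real.log (D j)) / Vf (z j) ≤ 96 * r * (C * L) := by
      rw [div_eq_mul_one_div]
      refine mul_le_mul ?_ e1 e0 (by positivity)
      linarith
    have f2 : 24 * r / Vf (z j) ≤ 24 * r * (C * L) := by
      rw [div_eq_mul_one_div]
      exact mul_le_mul_of_nonneg_left e1 (by positivity)
    have f3 : Y j / r ≤ 2 * r := by
      rw [div_le_iff₀ (by linarith)]
      have := g1.2
      nlinarith
    have f4 : Vf (z j) ≤ r := by linarith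
    have f5 : 12 * (1 + Real.log (D j)) / Vf (z j) + 24 * r / Vf (z j) + Y j / r + Vf (z j) ≤ 123 * r * (C * L) := by
      have h2 : r ≤ r * (C * L) := by nlinarith
      nlinarith
    have f6 : (1 / Vf (z j)) ^ k ≤ (C * L) ^ k := pow_le_pow_left₀ e0 e1 _
    have f7 : 1 / ((j : ℝ) * Real.log 2) ≤ 1.5 / j := by
      rw [div_le_div_iff₀ (by positivity) (by linarith)]
      nlinarith
    have f8 : 0 ≤ 12 * (1 + Real.log (D j)) / Vf (z j) + 24 * r / Vf (z j) + Y j / r + Vf (z j) := by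
      have := g1.1
      positivity
    calc 1 / ((j : ℝ) * Real.log 2) * (1 / Vf (z j)) ^ k *
          (12 * (1 + Real.log (D j)) / Vf (z j) + 24 * r / Vf (z j) + Y j / r + Vf (z j)) ≤
          1.5 / j * (C * L) ^ k * (123 * r * (C * L)) :=
          mul_le_mul (mul_le_mul f7 f6 (by positivity) (by positivity)) f5 f8 (by positivity)
      _ = 184.5 * (C * L) ^ (k + 1) / r := by
          rw [← hr2, pow_succ]
          field_simp
          norm_num
      _ ≤ 200 * (C * L) ^ (k + 2) / r := by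
          refine div_le_div_of_nonneg_right ?_ (by linarith)
          have h2 : (C * L) ^ (k + 1) ≤ (C * L) ^ (k + 2) := pow_le_pow_right₀ hCL (by omega)
          have h3 : 0 ≤ (C * L) ^ (k + 1) := by positivity
          nlinarith
      _ = 200 * C ^ (k + 2) * (L ^ (k + 2) / r) := by
          rw [mul_pow]
          ring

/-- **The central limit relation.** -/
theorem cen_lim {z D : ℕ → ℕ} (hz : ∀ᶠ j : ℕ in atTop, z j ≤ j) {k : ℕ} (hk : 2 ≤ k) {Y : ℕ → ℝ}
    (hY : Tendsto (fun j : ℕ => Y j / (j * Real.log 2)) atTop (𝓝 1)) (hD : ∀ᶠ j : ℕ in atTop, D j ≤ j ^ 3)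
    {w γ : ℝ} (hw : Tendsto (fun j : ℕ => Real.exp (-(((k : ℝ) - 1) * D j / (j * Real.log 2)))) atTop (𝓝 w))
    (hγ : Tendsto (fun j => gam (z j) k) atTop (𝓝 γ)) :
    Tendsto (fun j : ℕ => ((j : ℝ) * Real.log 2) ^ (k - 1) * ((1 / (Vf (z j) * (j * Real.log 2))) ^ k *
      ∑ d ∈ Icc 1 (D j), Fw (z j) k d (1 / (Vf (z j) * Y j)))) atTop (𝓝 (γ * ((1 - w) / ((k : ℝ) - 1)))) := by
  have hl := hl2
  have hk' : (2 : ℝ) ≤ k := by exact_mod_cast hk
  have hs : (0 : ℝ) < (k : ℝ) - 1 := by linarith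
  have hj0 : ∀ᶠ j : ℕ in atTop, (0 : ℝ) < j := by
    filter_upwards [eventually_ge_atTop 1] with j hj
    exact_mod_cast hj
  have hY0 : ∀ᶠ j : ℕ in atTop, 0 < Y j ∧ Y j ≤ 2 * j := by
    filter_upwards [hj0, hY.eventually (lt_mem_nhds (show (1 / 2 : ℝ) < 1 by norm_num)), hY.eventually (gt_mem_nhds (show (1 : ℝ) < 2 by norm_num))] with
      j g0 g1 g2
    have hl1 : Real.log 2 < 0.7 := by linarith [Real.log_two_lt_d9]
    rw [lt_div_iff₀ (by positivity)] at g1
    rw [div_lt_iff₀ (by positivity)] at g2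
    constructor
    · have : 0 < 1 / 2 * ((j : ℝ) * Real.log 2) := by positivity
      linarith
    · nlinarith
  have hXinv : Tendsto (fun j : ℕ => 1 / ((j : ℝ) * Real.log 2)) atTop (𝓝 0) := by
    refine X_top.inv_tendsto_atTop.congr fun j => ?_
    rw [Pi.inv_apply, one_div]
  have hYr : Tendsto (fun j : ℕ => ((j : ℝ) * Real.log 2) / Y j) atTop (𝓝 1) := by
    have h1 := hY.inv₀ one_ne_zero
    rw [inv_one] at h1
    refine h1.congr fun j => ?_
    rw [inv_div]
  have hYinv : Tendsto (fun j : ℕ => 1 / Y j) atTop (𝓝 0) := by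
    have h1 := hXinv.mul hYr
    rw [zero_mul] at h1
    refine h1.congr' ?_
    filter_upwards [hj0, hY0] with j g0 g1
    have := g1.1
    field_simp
  -- the main term
  have hG := GG_lim (a := fun j : ℕ => ((k : ℝ) - 1) / Y j) (X := fun j : ℕ => (j : ℝ) * Real.log 2)
    (P := fun _ => 1) (M := fun j => D j) (D := D) hs (hY0.mono fun j hj => div_pos hs hj.1)
    (hj0.mono fun j hj => by positivity) (fun j => one_pos) (by
      have h1 := hYr.const_mul ((k : ℝ) - 1)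
      rw [mul_one] at h1
      refine h1.congr fun j => ?_
      ring) (by simpa using hXinv) (Eventually.of_forall fun j => by
      push_cast
      linarith) (Eventually.of_forall fun j => by
      push_cast
      linarith) hw
  have hE1 : Tendsto (fun j : ℕ => Real.exp (-(1 / Y j))) atTop (𝓝 1) := by
    have h1 := (Real.continuous_exp.tendsto 0).comp (by simpa using hYinv.neg : Tendsto (fun j : ℕ => -(1 / Y j)) atTop (𝓝 0))
    rw [Real.exp_zero] at h1
    exact h1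
  have hE2 : Tendsto (fun j : ℕ => Real.exp (-(((k : ℝ) - 1) / Y j))) atTop (𝓝 1) := by
    have h0 : Tendsto (fun j : ℕ => -(((k : ℝ) - 1) / Y j)) atTop (𝓝 0) := by
      have h1 := (hYinv.const_mul ((k : ℝ) - 1)).neg
      simp only [mul_zero, neg_zero] at h1
      refine h1.congr fun j => ?_
      ring
    have h1 := (Real.continuous_exp.tendsto 0).comp h0
    rw [Real.exp_zero] at h1
    exact h1
  have hmain : Tendsto (fun j : ℕ => gam (z j) k * (Real.exp (-(1 / Y j)) * (Real.exp (-(((k : ℝ) - 1) / Y j)) *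
      (((1 : ℕ) : ℝ) / (j * Real.log 2) * GG (((k : ℝ) - 1) / Y j) 1 (D j))))) atTop (𝓝 (γ * ((1 - w) / ((k : ℝ) - 1)))) := by
    have h1 := hγ.mul (hE1.mul (hE2.mul hG))
    rw [one_mul, one_mul] at h1
    exact h1
  -- the error
  have herr := err_lim (Y := Y) hz k hY0 hD
  have hdiff : Tendsto (fun j : ℕ => ((j : ℝ) * Real.log 2) ^ (k - 1) * ((1 / (Vf (z j) * (j * Real.log 2))) ^ k *
      ∑ d ∈ Icc 1 (D j), Fw (z j) k d (1 / (Vf (z j) * Y j))) - gam (z j) k * (Real.exp (-(1 / Y j)) * (Real.exp (-(((k : ℝ) - 1) / Y j)) *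
      (((1 : ℕ) : ℝ) / (j * Real.log 2) * GG (((k : ℝ) - 1) / Y j) 1 (D j))))) atTop (𝓝 0) := by
    refine squeeze_zero_norm' ?_ herr
    filter_upwards [hj0, hY0] with j g0 g1
    have hV := Vf_pos (z j)
    have hP : (0 : ℝ) < PQ (z j) := by exact_mod_cast PQ_pos _
    have h1 := Fw_sum (z j) (D j) hk g1.1 (s := Real.sqrt j) (Real.sqrt_pos.2 g0)
    rw [R2_gam (by omega), SS_GG] at h1
    obtain ⟨s, rfl⟩ : ∃ s, k = s + 1 := ⟨k - 1, by omega⟩
    rw [Nat.add_sub_cancel, Real.norm_eq_abs]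
    obtain ⟨X, hX⟩ : ∃ X, X = (j : ℝ) * Real.log 2 := ⟨_, rfl⟩
    have hX0 : 0 < X := by rw [hX]; positivity
    rw [← hX]
    obtain ⟨F, hF⟩ : ∃ F, F = ∑ d ∈ Icc 1 (D j), Fw (z j) (s + 1) d (1 / (Vf (z j) * Y j)) := ⟨_, rfl⟩
    obtain ⟨G, hG'⟩ : ∃ G, G = GG ((((s + 1 : ℕ) : ℝ) - 1) / Y j) 1 (D j) := ⟨_, rfl⟩
    obtain ⟨E1, hE1'⟩ : ∃ E1, E1 = Real.exp (-(1 / Y j)) := ⟨_, rfl⟩
    obtain ⟨E2, hE2'⟩ : ∃ E2, E2 = Real.exp (-((((s + 1 : ℕ) : ℝ) - 1) / Y j)) := ⟨_, rfl⟩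
    rw [← hF, ← hG', ← hE1', ← hE2'] at h1 ⊢
    have h2 : X ^ s * ((1 / (Vf (z j) * X)) ^ (s + 1) * F) - gam (z j) (s + 1) * (E1 * (E2 * (((1 : ℕ) : ℝ) / X * G))) =
        1 / X * (1 / Vf (z j)) ^ (s + 1) * (F - E1 * (gam (z j) (s + 1) * (PQ (z j) : ℝ) ^ 2 * Vf (z j) ^ (s + 1) / (PQ (z j) : ℝ) ^ 2 * (E2 * G))) := by
      rw [one_div, one_div, one_div, mul_inv, mul_pow, inv_pow, inv_pow]
      push_cast
      have hXs : X ^ (s + 1) = X ^ s * X := pow_succ X s
      rw [hXs]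
      have hXs0 : X ^ s ≠ 0 := by positivity
      have hVs0 : Vf (z j) ^ (s + 1) ≠ 0 := by positivity
      field_simp
    rw [h2, abs_mul, abs_of_nonneg (show 0 ≤ 1 / X * (1 / Vf (z j)) ^ (s + 1) by positivity)]
    exact mul_le_mul_of_nonneg_left h1 (by positivity)
  have h3 := hdiff.add hmain
  rw [zero_add] at h3
  refine h3.congr fun j => ?_
  ring

end Pool.Agent.H38.RC
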